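import Pool.Agent.Helper76.LC.Reduce

set_option autoImplicit false

/-!
# Asymptotic form of the reduction
-/

namespace Pool.Agent.Helper76.LC

open Finset

open Classical in
/-- `A` is `(r, s)`-rigid: it is not the sum of a matrix of rank at most `r` and a matrix with at
most `s` nonzero entries. -/
def Rigid {F : Type} [Field F] {n : ℕ} (A : Matrix (Fin n) (Fin n) F) (r s : ℝ) : Prop :=
  ∀ R S : Matrix (Fin n) (Fin n) F, A = R + S → (R.rank : ℝ) ≤ r →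
    s < ((univ.filter fun p : Fin n × Fin n => S p.1 p.2 ≠ 0).card : ℝ)

open Classical in
theorem nnz_le {F : Type} [Field F] {n : ℕ} (S : Matrix (Fin n) (Fin n) F) (q : ℕ)
    (h : ∀ i, (univ.filter fun j => S i j ≠ 0).card ≤ q) :
    (univ.filter fun p : Fin n × Fin n => S p.1 p.2 ≠ 0).card ≤ n * q := by
  have h1 : (univ.filter fun p : Fin n × Fin n => S p.1 p.2 ≠ 0) ⊆
      univ.biUnion fun i : Fin n => (univ.filter fun j => S i j ≠ 0).image fun j => (i, j) := by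
    rintro ⟨i, j⟩ hp
    rw [mem_filter] at hp
    rw [mem_biUnion]
    exact ⟨i, mem_univ i, mem_image.mpr ⟨j, mem_filter.mpr ⟨mem_univ j, hp.2⟩, rfl⟩⟩
  refine (card_le_card h1).trans (card_biUnion_le.trans ?_)
  calc ∑ i : Fin n, ((univ.filter fun j => S i j ≠ 0).image fun j => (i, j)).card
      ≤ ∑ _i : Fin n, q := sum_le_sum fun i _ => card_image_le.trans (h i)
    _ = n * q := by simp

/-- the choice of the parameters -/
theorem params (K ε δ : ℝ) (hK : 0 < K) (hε : 0 < ε) (hδ : 0 < δ) : ∃ (η : ℝ) (k n₀ : ℕ), 0 < η ∧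
    1 ≤ k ∧ K / k ≤ ε / 8 ∧ ∀ n : ℕ, n₀ ≤ n → ∃ ℓ t : ℕ, t ≤ ℓ ∧
      (2 : ℝ) ^ ((Real.logb 2 n) ^ (1 + η)) < 2 ^ (2 ^ ℓ) ∧
      K * (t / ((ℓ - t : ℕ) + 1)) ≤ ε / 4 ∧ ((k : ℝ) ^ (2 ^ (ℓ - t) * k)) ≤ (n : ℝ) ^ δ ∧
      1 ≤ n := by
  set η : ℝ := ε / (8 * K) with hη
  have hη0 : 0 < η := by positivity
  set k : ℕ := ⌈8 * K / ε⌉₊ + 2 with hk
  have hkr : 8 * K / ε ≤ k := by
    rw [hk]; push_cast
    linarith [Nat.le_ceil (8 * K / ε)]
  have hk2 : (2 : ℝ) ≤ k := by rw [hk]; push_cast; linarith [Nat.cast_nonneg (α := ℝ) ⌈8 * K / ε⌉₊]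
  have hkpos : (0 : ℝ) < k := by linarith
  set c : ℝ := max 0 (Real.logb 2 (2 * k * Real.logb 2 k / δ)) with hc
  have hc0 : 0 ≤ c := le_max_left _ _
  set L₀ : ℝ := max (c + 2) ((c + 1 + 2 * η * c) / η) with hL₀
  refine ⟨η, k, 2 ^ (2 ^ ⌈L₀⌉₊), hη0, by rw [hk]; omega, ?_, ?_⟩
  · rw [div_le_iff₀ hkpos]
    have h1 : 8 * K ≤ k * ε := by
      rw [div_le_iff₀ hε] at hkr
      exact hkr
    linarith
  intro n hn
  have hn1 : 1 ≤ n := le_trans Nat.one_le_two_pow hn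
  have hnr : (1 : ℝ) ≤ n := by exact_mod_cast hn1
  set x : ℝ := Real.logb 2 n with hx
  have hx1 : (2 : ℝ) ^ ⌈L₀⌉₊ ≤ x := by
    rw [hx, Real.le_logb_iff_rpow_le (by norm_num) (by linarith)]
    have h1 : ((2 ^ (2 ^ ⌈L₀⌉₊) : ℕ) : ℝ) ≤ n := by exact_mod_cast hn
    push_cast at h1
    calc (2 : ℝ) ^ ((2 : ℝ) ^ ⌈L₀⌉₊) = (2 : ℝ) ^ (((2 ^ ⌈L₀⌉₊ : ℕ) : ℝ)) := by push_cast; rfl
      _ = (2 : ℝ) ^ (2 ^ ⌈L₀⌉₊) := by rw [Real.rpow_natCast]
      _ ≤ n := h1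
  have hx0 : 0 < x := lt_of_lt_of_le (by positivity) hx1
  set L : ℝ := Real.logb 2 x with hL
  have hLL : L₀ ≤ L := by
    rw [hL, Real.le_logb_iff_rpow_le (by norm_num) hx0]
    refine le_trans ?_ hx1
    rw [← Real.rpow_natCast]
    exact Real.rpow_le_rpow_of_exponent_le (by norm_num) (Nat.le_ceil _)
  have hL1 : c + 2 ≤ L := (le_max_left _ _).trans hLL
  have hL2 : (c + 1 + 2 * η * c) ≤ η * L := by
    have : (c + 1 + 2 * η * c) / η ≤ L := (le_max_right _ _).trans hLL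
    rw [div_le_iff₀ hη0] at this
    linarith
  have h2L : (2 : ℝ) ^ L = x := Real.rpow_logb (by norm_num) (by norm_num) hx0
  have hpow : ∀ s : ℝ, x ^ s = (2 : ℝ) ^ (s * L) := by
    intro s
    rw [← h2L, ← Real.rpow_mul (by norm_num), mul_comm]
  set ℓ : ℕ := ⌊(1 + η) * L⌋₊ + 1 with hℓ
  set t : ℕ := ⌈c + η * L⌉₊ with ht
  have hLpos : 0 < L := by linarith
  have hy0 : 0 ≤ (1 + η) * L := by positivity
  have hℓ1 : (1 + η) * L < ℓ := by rw [hℓ]; push_cast; exact Nat.lt_floor_add_one _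
  have hℓ2 : (ℓ : ℝ) ≤ (1 + η) * L + 1 := by
    rw [hℓ]; push_cast; linarith [Nat.floor_le hy0]
  have ht1 : c + η * L ≤ t := Nat.le_ceil _
  have ht2 : (t : ℝ) ≤ c + η * L + 1 := (Nat.ceil_lt_add_one (by positivity)).le
  have htℓ : t ≤ ℓ := by
    have : (t : ℝ) ≤ ℓ := by nlinarith
    exact_mod_cast this
  refine ⟨ℓ, t, htℓ, ?_, ?_, ?_, hn1⟩
  · rw [← Real.rpow_natCast]
    refine Real.rpow_lt_rpow_of_exponent_lt (by norm_num) ?_
    push_cast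
    rw [hpow, ← Real.rpow_natCast]
    exact Real.rpow_lt_rpow_of_exponent_lt (by norm_num) hℓ1
  · have h1 : (((ℓ - t : ℕ) : ℝ)) = ℓ - t := by push_cast [Nat.cast_sub htℓ]; ring
    rw [h1]
    have h2 : L - c ≤ (ℓ : ℝ) - t + 1 := by linarith
    have h3 : 0 < L - c := by linarith
    have h4 : (t : ℝ) ≤ 2 * η * (L - c) := by nlinarith
    have h5 : (t : ℝ) / ((ℓ : ℝ) - t + 1) ≤ 2 * η := by
      rw [div_le_iff₀ (by linarith)]
      refine h4.trans ?_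
      exact mul_le_mul_of_nonneg_left h2 (by positivity)
    calc K * ((t : ℝ) / ((ℓ : ℝ) - t + 1)) ≤ K * (2 * η) := mul_le_mul_of_nonneg_left h5 hK.le
      _ = ε / 4 := by rw [hη]; field_simp; ring
  · have hlogk : 0 < Real.logb 2 k := Real.logb_pos (by norm_num) (by linarith)
    have h1 : ((2 : ℝ) ^ (ℓ - t) : ℝ) * 2 ^ t = 2 ^ ℓ := by
      rw [← pow_add, Nat.sub_add_cancel htℓ]
    have h2 : ((2 : ℝ) ^ ℓ : ℝ) ≤ 2 * x ^ (1 + η) := by
      rw [hpow, ← Real.rpow_natCast]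
      calc (2 : ℝ) ^ (ℓ : ℝ) ≤ (2 : ℝ) ^ ((1 + η) * L + 1) :=
            Real.rpow_le_rpow_of_exponent_le (by norm_num) hℓ2
        _ = 2 * (2 : ℝ) ^ ((1 + η) * L) := by
            rw [Real.rpow_add (by norm_num), Real.rpow_one, mul_comm]
    have h3 : (2 * k * Real.logb 2 k / δ) * x ^ η ≤ (2 : ℝ) ^ t := by
      rw [hpow, ← Real.rpow_natCast]
      calc (2 * k * Real.logb 2 k / δ) * (2 : ℝ) ^ (η * L)
          ≤ (2 : ℝ) ^ c * (2 : ℝ) ^ (η * L) := by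
            refine mul_le_mul_of_nonneg_right ?_ (by positivity)
            have h4 : 0 < 2 * k * Real.logb 2 k / δ := by positivity
            calc 2 * k * Real.logb 2 k / δ =
                (2 : ℝ) ^ (Real.logb 2 (2 * k * Real.logb 2 k / δ)) :=
                  (Real.rpow_logb (by norm_num) (by norm_num) h4).symm
              _ ≤ (2 : ℝ) ^ c := Real.rpow_le_rpow_of_exponent_le (by norm_num) (le_max_right _ _)
        _ = (2 : ℝ) ^ (c + η * L) := by rw [Real.rpow_add (by norm_num)]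
        _ ≤ (2 : ℝ) ^ (t : ℝ) := Real.rpow_le_rpow_of_exponent_le (by norm_num) ht1
    have h4 : ((2 : ℝ) ^ (ℓ - t) : ℝ) * (k * Real.logb 2 k) ≤ δ * x := by
      have hxe : 0 < x ^ η := Real.rpow_pos_of_pos hx0 _
      have h5 : ((2 : ℝ) ^ (ℓ - t) : ℝ) * ((2 * k * Real.logb 2 k / δ) * x ^ η) ≤
          2 * x ^ (1 + η) := by
        calc ((2 : ℝ) ^ (ℓ - t) : ℝ) * ((2 * k * Real.logb 2 k / δ) * x ^ η)
            ≤ (2 : ℝ) ^ (ℓ - t) * 2 ^ t := mul_le_mul_of_nonneg_left h3 (by positivity)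
          _ = 2 ^ ℓ := h1
          _ ≤ _ := h2
      rw [Real.rpow_add hx0, Real.rpow_one] at h5
      have h6 : ((2 : ℝ) ^ (ℓ - t) : ℝ) * (2 * k * Real.logb 2 k / δ) * x ^ η ≤
          (2 * x) * x ^ η := by linarith
      have h7 := le_of_mul_le_mul_right h6 hxe
      have h8 : ((2 : ℝ) ^ (ℓ - t) : ℝ) * (2 * k * Real.logb 2 k / δ) =
          2 * ((2 : ℝ) ^ (ℓ - t) * (k * Real.logb 2 k)) / δ := by ring
      rw [h8, div_le_iff₀ hδ] at h7
      linarith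
    have h5 : (k : ℝ) = (2 : ℝ) ^ (Real.logb 2 k) :=
      (Real.rpow_logb (by norm_num) (by norm_num) hkpos).symm
    have h6 : (n : ℝ) = (2 : ℝ) ^ x :=
      (Real.rpow_logb (by norm_num) (by norm_num) (by linarith)).symm
    calc ((k : ℝ) ^ (2 ^ (ℓ - t) * k)) = ((2 : ℝ) ^ (Real.logb 2 k)) ^ (2 ^ (ℓ - t) * k) := by
          rw [← h5]
      _ = (2 : ℝ) ^ (Real.logb 2 k * ((2 ^ (ℓ - t) * k : ℕ) : ℝ)) := by
          rw [← Real.rpow_natCast, ← Real.rpow_mul (by norm_num)]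
      _ ≤ (2 : ℝ) ^ (x * δ) := by
          refine Real.rpow_le_rpow_of_exponent_le (by norm_num) ?_
          push_cast
          linarith
      _ = (n : ℝ) ^ δ := by rw [Real.rpow_mul (by norm_num), ← h6]

theorem asym (K ε δ : ℝ) (hK : 0 < K) (hε : 0 < ε) (hδ : 0 < δ) : ∃ η : ℝ, 0 < η ∧ ∃ n₀ : ℕ,
    ∀ n : ℕ, n₀ ≤ n → ∀ (F : Type) [Field F] (A : Matrix (Fin n) (Fin n) F),
      Rigid A (ε * n) ((n : ℝ) ^ (1 + δ)) → ∀ C : LinCircuit F n, C.Computes A →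
      (C.size : ℝ) ≤ K * n → ∀ T₀ : Finset C.V, (T₀.card : ℝ) ≤ ε / 2 * n →
      ∀ f, C.IsCount T₀ f → ∃ i, (2 : ℝ) ^ ((Real.logb 2 n) ^ (1 + η)) < f (C.out i) := by
  classical
  obtain ⟨η, k, n₀, hη, hk, hKk, hpar⟩ := params K ε δ hK hε hδ
  refine ⟨η, hη, n₀, fun n hn F _ A hA C hC hsize T₀ hT₀ f hf => ?_⟩
  obtain ⟨ℓ, t, htℓ, hN, hKt, hrow, hn1⟩ := hpar n hn
  by_contra hcon
  push Not at hcon
  have hkr : (0 : ℝ) < k := by exact_mod_cast hk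
  have hnr : (0 : ℝ) < n := by exact_mod_cast hn1
  obtain ⟨R, S, r₁, r₂, r₃, hRS, hrank, h1, h2, h3, hS⟩ := C.reduction hC hf ℓ t k k htℓ hk hk
    (fun i => by
      have := lt_of_le_of_lt (hcon i) hN
      exact_mod_cast this)
  have hE : (C.E.card : ℝ) ≤ K * n := by
    refine le_trans ?_ hsize
    unfold LinCircuit.size
    push_cast
    linarith [Nat.cast_nonneg (α := ℝ) (Fintype.card C.V)]
  have hV : (Fintype.card C.V : ℝ) ≤ K * n := by
    refine le_trans ?_ hsize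
    unfold LinCircuit.size
    push_cast
    linarith [Nat.cast_nonneg (α := ℝ) C.E.card]
  have hKk' : K ≤ ε / 8 * k := by rwa [div_le_iff₀ hkr] at hKk
  have b1 : (r₁ : ℝ) ≤ ε / 8 * n := by
    have h4 : (r₁ : ℝ) * (k + 1) ≤ K * n := le_trans (by exact_mod_cast h1) hE
    have h5 : (r₁ : ℝ) * k ≤ (ε / 8 * n) * k := by
      calc (r₁ : ℝ) * k ≤ r₁ * (k + 1) := by
            have : (0 : ℝ) ≤ r₁ := Nat.cast_nonneg _
            nlinarith
        _ ≤ K * n := h4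
        _ ≤ (ε / 8 * k) * n := mul_le_mul_of_nonneg_right hKk' hnr.le
        _ = (ε / 8 * n) * k := by ring
    exact le_of_mul_le_mul_right h5 hkr
  have b3 : (r₃ : ℝ) ≤ ε / 8 * n := by
    have h4 : (k : ℝ) * r₃ ≤ K * n := le_trans (by exact_mod_cast h3) hV
    have h5 : (r₃ : ℝ) * k ≤ (ε / 8 * n) * k := by
      calc (r₃ : ℝ) * k = k * r₃ := by ring
        _ ≤ K * n := h4
        _ ≤ (ε / 8 * k) * n := mul_le_mul_of_nonneg_right hKk' hnr.le
        _ = (ε / 8 * n) * k := by ring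
    exact le_of_mul_le_mul_right h5 hkr
  have b2 : (r₂ : ℝ) ≤ ε / 4 * n := by
    have h4 : (r₂ : ℝ) * (((ℓ - t : ℕ) : ℝ) + 1) ≤ t * (K * n) := by
      have h5 : (r₂ : ℝ) * (((ℓ - t : ℕ) : ℝ) + 1) ≤ t * C.E.card := by exact_mod_cast h2
      exact h5.trans (mul_le_mul_of_nonneg_left hE (Nat.cast_nonneg _))
    have hpos : (0 : ℝ) < ((ℓ - t : ℕ) : ℝ) + 1 := by positivity
    calc (r₂ : ℝ) ≤ t * (K * n) / (((ℓ - t : ℕ) : ℝ) + 1) := by rwa [le_div_iff₀ hpos]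
      _ = K * (t / (((ℓ - t : ℕ) : ℝ) + 1)) * n := by ring
      _ ≤ ε / 4 * n := mul_le_mul_of_nonneg_right hKt hnr.le
  have hR : (R.rank : ℝ) ≤ ε * n := by
    have h4 : (R.rank : ℝ) ≤ T₀.card + (r₁ + r₂ + r₃) := by exact_mod_cast hrank
    linarith
  have h4 := hA R S hRS hR
  have h5 := nnz_le S _ hS
  have h6 : ((univ.filter fun p : Fin n × Fin n => S p.1 p.2 ≠ 0).card : ℝ) ≤
      n * (k : ℝ) ^ (2 ^ (ℓ - t) * k) := by exact_mod_cast h5
  have h7 : (n : ℝ) * (k : ℝ) ^ (2 ^ (ℓ - t) * k) ≤ (n : ℝ) ^ (1 + δ) := by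
    rw [Real.rpow_add hnr, Real.rpow_one]
    exact mul_le_mul_of_nonneg_left hrow hnr.le
  linarith

/-- Circuits of bounded depth have few paths after the removal of the nodes of large in-degree. -/
theorem depth_count {F : Type} [Field F] {n : ℕ} (C : LinCircuit F n) (Δ : ℕ) (hΔ : 1 ≤ Δ) :
    ∃ T₀ : Finset C.V, T₀.card * (Δ + 1) ≤ C.E.card ∧
      ∀ f, C.IsCount T₀ f → ∀ v, f v ≤ Δ ^ C.rk v := by
  classical
  refine ⟨univ.filter fun v => Δ < (C.pre v).card, C.high_card Δ, fun f hf => ?_⟩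
  refine C.ind fun v ih => ?_
  rw [hf v]
  split_ifs with h1 h2
  · exact Nat.zero_le _
  · rw [zero_add]
    have h3 : (C.pre v).card ≤ Δ := by
      rw [mem_filter, not_and] at h1
      exact not_lt.mp (h1 (mem_univ v))
    rcases (C.pre v).eq_empty_or_nonempty with h4 | ⟨u, hu⟩
    · rw [h4, sum_empty]; exact Nat.zero_le _
    · have h5 : 1 ≤ C.rk v := by have := C.rk_pre hu; omega
      calc ∑ u ∈ C.pre v, f u ≤ ∑ u ∈ C.pre v, Δ ^ (C.rk v - 1) := by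
            refine sum_le_sum fun u hu => (ih u hu).trans (Nat.pow_le_pow_right hΔ ?_)
            have := C.rk_pre hu
            omega
        _ = (C.pre v).card * Δ ^ (C.rk v - 1) := by rw [sum_const, smul_eq_mul]
        _ ≤ Δ * Δ ^ (C.rk v - 1) := Nat.mul_le_mul_right _ h3
        _ = Δ ^ C.rk v := by rw [← pow_succ']; congr 1; omega
  · have h3 : C.pre v = ∅ := by
      rw [eq_empty_iff_forall_notMem]
      intro u hu
      exact h2 (C.lab_pre hu)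
    rw [h3, sum_empty, add_zero]
    exact Nat.one_le_pow _ _ hΔ

end Pool.Agent.Helper76.LC
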