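import Pool.Agent.Helper76.LC.Defs

set_option autoImplicit false

/-!
# Symmetric linear circuits: definitions and the projections on the characters
-/

namespace Pool.Agent.Helper76.LC

open Finset

variable {F : Type} [Field F] {n : ℕ}

/-- The circuit is symmetric with respect to the permutations `τ c` of the inputs: each of them
extends to an automorphism `α` of the graph, up to nonzero scalars `s v` at the gates. -/
def LinCircuit.Symm {H : Type} (C : LinCircuit F n) (τ : H → Equiv.Perm (Fin n)) : Prop :=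
  ∀ c : H, ∃ (α : Equiv.Perm C.V) (s : C.V → F), (∀ v, s v ≠ 0) ∧
    (∀ u v, (α u, α v) ∈ C.E ↔ (u, v) ∈ C.E) ∧
    (∀ u v, (u, v) ∈ C.E → C.wt (α u) (α v) * s u = s v * C.wt u v) ∧
    (∀ v, C.lab (α v) = (C.lab v).map (τ c)) ∧ ∀ v, C.lab v ≠ none → s v = 1

/-- The number of additions: a gate with `k` in-edges needs `k - 1` of them. -/
def LinCircuit.adds (C : LinCircuit F n) : ℕ := ∑ v, ((C.pre v).card - 1)

/-- The sum of the prime factors of `n`, with multiplicity. -/
def sopfr (n : ℕ) : ℕ := n.primeFactorsList.sum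

theorem LinCircuit.symm_val {H : Type} {C : LinCircuit F n} {τ : H → Equiv.Perm (Fin n)}
    (hC : C.Symm τ) {val : C.V → Fin n → F} (hval : C.IsVal val) (c : H) :
    ∃ (α : Equiv.Perm C.V), (∀ u v, (u, v) ∈ C.E → (α u, α v) ∈ C.E) ∧
      ∀ v, ∃ l : F, l ≠ 0 ∧ ∀ j, val (α v) (τ c j) = l * val v j := by
  obtain ⟨α, s, hs, hE, hw, hl, h1⟩ := hC c
  refine ⟨α, fun u v h => (hE u v).mpr h, fun v => ⟨s v, hs v, ?_⟩⟩
  refine C.ind (P := fun v => ∀ j, val (α v) (τ c j) = s v * val v j) ?_ v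
  intro v ih j
  have e1 := congrFun (hval (α v)) (τ c j)
  have e2 := congrFun (hval v) j
  have e3 := hl v
  cases hv : C.lab v with
  | some i =>
    rw [hv] at e3
    simp only [Option.map_some] at e3
    rw [e3] at e1
    rw [hv] at e2
    simp only at e1 e2
    rw [e1, e2, h1 v (by rw [hv]; simp), one_mul]
    by_cases h : j = i
    · subst h; simp
    · rw [Pi.single_eq_of_ne h, Pi.single_eq_of_ne (fun h' => h ((τ c).injective h'))]
  | none =>
    rw [hv] at e3
    simp only [Option.map_none] at e3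
    rw [e3] at e1
    rw [hv] at e2
    simp only at e1 e2
    rw [e1, e2, Finset.sum_apply, Finset.sum_apply, mul_sum]
    have hpre : C.pre (α v) = (C.pre v).map α.toEmbedding := by
      ext u
      simp only [mem_map, Equiv.coe_toEmbedding]
      constructor
      · intro hu
        refine ⟨α.symm u, ?_, by simp⟩
        rw [C.mem_pre] at hu ⊢
        rw [← hE]
        simpa using hu
      · rintro ⟨w, hw', rfl⟩
        rw [C.mem_pre] at hw' ⊢
        exact (hE _ _).mpr hw'
    rw [hpre, sum_map]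
    refine sum_congr rfl fun u hu => ?_
    simp only [Equiv.coe_toEmbedding, Pi.smul_apply, smul_eq_mul]
    rw [ih u hu j, ← mul_assoc, hw u v (C.mem_pre.mp hu)]
    ring

section

variable {H : Type} [AddCommGroup H] {τ : H → Equiv.Perm (Fin n)}

theorem tau_zero (hadd : ∀ c d i, τ (c + d) i = τ c (τ d i)) (i : Fin n) : τ 0 i = i := by
  have := hadd 0 0 i
  rw [add_zero] at this
  exact ((τ 0).injective this).symm

/-- the translations which map the form `f` to a multiple of `f` -/
def St (hadd : ∀ c d i, τ (c + d) i = τ c (τ d i)) (f : Fin n → F) : AddSubgroup H where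
  carrier := {c | ∃ l : F, l ≠ 0 ∧ ∀ j, f (τ c j) = l * f j}
  zero_mem' := ⟨1, one_ne_zero, fun j => by rw [tau_zero hadd, one_mul]⟩
  add_mem' := by
    rintro c d ⟨l, hl, h⟩ ⟨m, hm, h'⟩
    exact ⟨l * m, mul_ne_zero hl hm, fun j => by rw [hadd, h, h', mul_assoc]⟩
  neg_mem' := by
    rintro c ⟨l, hl, h⟩
    refine ⟨l⁻¹, inv_ne_zero hl, fun j => ?_⟩
    have h1 := h (τ (-c) j)
    rw [← hadd, add_neg_cancel, tau_zero hadd] at h1
    rw [h1, ← mul_assoc, inv_mul_cancel₀ hl, one_mul]

theorem mem_St (hadd : ∀ c d i, τ (c + d) i = τ c (τ d i)) {f : Fin n → F} {c : H} :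
    c ∈ St hadd f ↔ ∃ l : F, l ≠ 0 ∧ ∀ j, f (τ c j) = l * f j := Iff.rfl

/-- If `g` is a translate of a multiple of `f` then the stabilizers agree. -/
theorem St_congr (hadd : ∀ c d i, τ (c + d) i = τ c (τ d i)) {f g : Fin n → F} {c : H} {l : F}
    (hl : l ≠ 0) (h : ∀ j, g (τ c j) = l * f j) : St hadd g = St hadd f := by
  ext d
  rw [mem_St, mem_St]
  have hcomm : ∀ j, τ d (τ c j) = τ c (τ d j) := fun j => by rw [← hadd, ← hadd, add_comm]
  constructor
  · rintro ⟨m, hm, h'⟩
    refine ⟨m, hm, fun j => ?_⟩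
    have h1 := h' (τ c j)
    rw [hcomm, h, h] at h1
    have h2 : l * f (τ d j) = l * (m * f j) := by rw [h1]; ring
    exact mul_left_cancel₀ hl h2
  · rintro ⟨m, hm, h'⟩
    refine ⟨m, hm, fun j => ?_⟩
    obtain ⟨i, rfl⟩ := (τ c).surjective j
    rw [hcomm, h, h, h']
    ring

variable [Fintype H]

/-- the projection on the forms with character `ψ` (without normalisation) -/
def Pr (τ : H → Equiv.Perm (Fin n)) (ψ : AddChar H F) : (Fin n → F) →ₗ[F] (Fin n → F) where
  toFun f j := ∑ c, ψ (-c) * f (τ c j)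
  map_add' f g := by
    funext j
    simp only [Pi.add_apply, mul_add, sum_add_distrib]
  map_smul' a f := by
    funext j
    simp only [Pi.smul_apply, smul_eq_mul, RingHom.id_apply, mul_sum]
    exact sum_congr rfl fun c _ => by ring

theorem Pr_apply (ψ : AddChar H F) (f : Fin n → F) (j : Fin n) :
    Pr τ ψ f j = ∑ c, ψ (-c) * f (τ c j) := rfl

theorem Pr_tau (hadd : ∀ c d i, τ (c + d) i = τ c (τ d i)) (ψ : AddChar H F) (f : Fin n → F)
    (d : H) (j : Fin n) : Pr τ ψ f (τ d j) = ψ d * Pr τ ψ f j := by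
  rw [Pr_apply, Pr_apply, mul_sum]
  refine Fintype.sum_equiv (Equiv.addRight d) _ _ fun c => ?_
  simp only [Equiv.coe_addRight]
  rw [hadd, ← mul_assoc, ← AddChar.map_add_eq_mul]
  congr 2
  abel

theorem Pr_comm (hadd : ∀ c d i, τ (c + d) i = τ c (τ d i)) (ψ : AddChar H F) {f g : Fin n → F}
    {d : H} {l : F} (h : ∀ j, g (τ d j) = l * f j) (j : Fin n) :
    ψ d * Pr τ ψ g j = l * Pr τ ψ f j := by
  rw [← Pr_tau hadd, Pr_apply, Pr_apply, mul_sum]
  refine sum_congr rfl fun c _ => ?_
  have hcomm : τ c (τ d j) = τ d (τ c j) := by rw [← hadd, ← hadd, add_comm]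
  rw [hcomm, h]
  ring

theorem psi_ne (ψ : AddChar H F) (c : H) : ψ c ≠ 0 := by
  intro h
  have h1 : ψ (c + -c) = ψ c * ψ (-c) := AddChar.map_add_eq_mul ψ c (-c)
  rw [add_neg_cancel, AddChar.map_zero_eq_one, h, zero_mul] at h1
  exact one_ne_zero h1

/-- On the stabilizer the character of an active form is determined. -/
theorem char_eq (hadd : ∀ c d i, τ (c + d) i = τ c (τ d i)) {ψ : AddChar H F} {f : Fin n → F}
    (hf : Pr τ ψ f ≠ 0) {c : H} {l : F} (h : ∀ j, f (τ c j) = l * f j) : ψ c = l := by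
  obtain ⟨j, hj⟩ := Function.ne_iff.mp hf
  have h1 := Pr_comm hadd ψ h j
  exact mul_right_cancel₀ hj h1

end

end Pool.Agent.Helper76.LC
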