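import Pool.Agent.Helper76.LC.Reduce
import Pool.Agent.Helper76.LC.Sym

set_option autoImplicit false

/-!
# Cancellation: determinants of the forms of a circuit and sums of absolute values over paths
-/

namespace Pool.Agent.Helper76.LC

open Finset

section

variable {F : Type} [NormedField F] {n : ℕ} (C : LinCircuit F n)

/-- `B v j` is the sum, over the directed paths from the input `j` to the node `v` which avoid the
nodes in `T`, of the product of the absolute values of the scalars on the path. -/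
def LinCircuit.IsAbs (T : Finset C.V) (B : C.V → Fin n → ℝ) : Prop := ∀ v, B v =
  if v ∈ T then 0 else
  match C.lab v with
  | some j => Pi.single j 1
  | none => ∑ u ∈ C.pre v, ‖C.wt u v‖ • B u

theorem exists_abs (T : Finset C.V) : ∃ B, C.IsAbs T B := by
  refine C.exists_sol (fun v g => if v ∈ T then 0 else
    match C.lab v with
    | some j => Pi.single j 1
    | none => ∑ u ∈ C.pre v, ‖C.wt u v‖ • g u) ?_
  intro v f g h
  have : ∑ u ∈ C.pre v, ‖C.wt u v‖ • f u = ∑ u ∈ C.pre v, ‖C.wt u v‖ • g u :=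
    sum_congr rfl fun u hu => by rw [h u hu]
  simp only [this]

variable {C} {T : Finset C.V} {B : C.V → Fin n → ℝ} (hB : C.IsAbs T B)

include hB

theorem abs_nonneg' : ∀ v j, 0 ≤ B v j := by
  intro v
  refine C.ind (P := fun v => ∀ j, 0 ≤ B v j) ?_ v
  intro v ih j
  rw [hB v]
  by_cases hv : v ∈ T
  · rw [if_pos hv]; exact le_refl _
  · rw [if_neg hv]
    cases hl : C.lab v with
    | some i =>
      simp only
      by_cases h : j = i
      · subst h; simp
      · rw [Pi.single_eq_of_ne h]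
    | none =>
      simp only
      rw [Finset.sum_apply]
      exact sum_nonneg fun u hu => mul_nonneg (norm_nonneg _) (ih u hu j)

theorem abs_pre {u v : C.V} (hu : u ∈ C.pre v) (hv : v ∉ T) (j : Fin n) :
    ‖C.wt u v‖ * B u j ≤ B v j := by
  rw [hB v, if_neg hv, C.lab_pre hu]
  simp only
  rw [Finset.sum_apply]
  exact single_le_sum (f := fun u => (‖C.wt u v‖ • B u) j)
    (fun w _ => mul_nonneg (norm_nonneg _) (abs_nonneg' hB w j)) hu

theorem prod_nonneg' {k : ℕ} (b : Fin k → C.V) (a : Fin k → Fin n) :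
    0 ≤ ∏ i, B (b i) (a i) := prod_nonneg fun i _ => abs_nonneg' hB (b i) (a i)

omit hB

/-- all determinants of the forms at nodes of `D` are bounded -/
def Good (g : C.V → Fin n → F) (B : C.V → Fin n → ℝ) (D : Finset C.V) (c : ℝ) : Prop :=
  ∀ (k : ℕ) (b : Fin k → C.V) (a : Fin k → Fin n), (∀ i, b i ∈ D) →
    ∃ σ : Equiv.Perm (Fin k), ‖(Matrix.of fun i j => g (b i) (a j)).det‖ ≤
      c * ∏ i, B (b i) (a (σ i))

include hB

theorem good_inputs {g : C.V → Fin n → F} (hg : C.IsVal0 T g) (D : Finset C.V)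
    (hD : ∀ v ∈ D, C.lab v ≠ none) : Good g B D 1 := by
  classical
  intro k b a hb
  by_cases h0 : (Matrix.of fun i j => g (b i) (a j)).det = 0
  · refine ⟨1, ?_⟩
    rw [h0, norm_zero, one_mul]
    exact prod_nonneg' hB _ _
  have ha : Function.Injective a := by
    intro x y hxy
    by_contra hne
    exact h0 (Matrix.det_zero_of_column_eq hne fun i => by
      simp only [Matrix.of_apply, hxy])
  obtain ⟨σ, hσ⟩ : ∃ σ : Equiv.Perm (Fin k), ∀ i, g (b i) (a (σ i)) ≠ 0 := by
    by_contra hcon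
    push Not at hcon
    apply h0
    rw [← Matrix.det_transpose, Matrix.det_apply']
    refine sum_eq_zero fun σ _ => ?_
    obtain ⟨i, hi⟩ := hcon σ
    have : ∏ i, (Matrix.of fun i j => g (b i) (a j)).transpose (σ i) i = 0 :=
      prod_eq_zero (mem_univ i) (by simpa [Matrix.transpose_apply] using hi)
    rw [this, mul_zero]
  have key : ∀ i, ∃ j, g (b i) = Pi.single j 1 ∧ B (b i) = Pi.single j 1 ∧ j = a (σ i) := by
    intro i
    have h1 := hg (b i)
    have h2 := hB (b i)
    have h3 := hσ i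
    by_cases hT : b i ∈ T
    · rw [if_pos hT] at h1
      rw [h1] at h3
      exact absurd rfl h3
    · rw [if_neg hT] at h1 h2
      cases hl : C.lab (b i) with
      | none => exact absurd hl (hD _ (hb i))
      | some j =>
        rw [hl] at h1 h2
        simp only at h1 h2
        refine ⟨j, h1, h2, ?_⟩
        by_contra hne
        rw [h1, Pi.single_eq_of_ne (Ne.symm hne)] at h3
        exact h3 rfl
  refine ⟨σ, ?_⟩
  have hM : (Matrix.of fun i j => g (b i) (a j)) = (Equiv.toPEquiv σ).toMatrix := by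
    ext i j
    obtain ⟨l, h1, -, h3⟩ := key i
    rw [Matrix.of_apply, h1, PEquiv.toMatrix_apply, Equiv.toPEquiv_apply, h3]
    by_cases h : j = σ i
    · subst h; simp
    · rw [Pi.single_eq_of_ne (fun h' => h (ha h')), if_neg]
      simp only [Option.mem_some_iff]
      exact fun h' => h h'.symm
  have hP : ∏ i, B (b i) (a (σ i)) = 1 := by
    refine prod_eq_one fun i _ => ?_
    obtain ⟨l, -, h2, h3⟩ := key i
    rw [h2, h3, Pi.single_eq_same]
  rw [hM, Matrix.det_permutation, hP]
  have : ‖((Equiv.Perm.sign σ : ℤ) : F)‖ ≤ 1 := by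
    rcases Int.units_eq_one_or (Equiv.Perm.sign σ) with h | h <;> rw [h] <;> simp
  simpa using this

theorem good_insert {g : C.V → Fin n → F} (hg : C.IsVal0 T g) {D : Finset C.V} {c : ℝ}
    (hc : 0 ≤ c) (hD : Good g B D c) {v : C.V} (hv : C.lab v = none) (hpre : C.pre v ⊆ D)
    (_hvD : v ∉ D) : Good g B (insert v D) (c * ((C.pre v).card ⊔ 1 : ℕ)) := by
  classical
  intro k b a hb
  obtain ⟨σ, hσ⟩ := Finite.exists_max fun σ : Equiv.Perm (Fin k) => ∏ i, B (b i) (a (σ i))
  have hP : ∀ σ : Equiv.Perm (Fin k), 0 ≤ ∏ i, B (b i) (a (σ i)) := fun σ =>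
    prod_nonneg fun i _ => abs_nonneg' hB _ _
  have hm1 : (1 : ℝ) ≤ ((C.pre v).card ⊔ 1 : ℕ) := by
    exact_mod_cast le_sup_right
  have hm2 : ((C.pre v).card : ℝ) ≤ ((C.pre v).card ⊔ 1 : ℕ) := by
    exact_mod_cast le_sup_left
  refine ⟨σ, ?_⟩
  have hzero : (0 : ℝ) ≤ c * ((C.pre v).card ⊔ 1 : ℕ) * ∏ i, B (b i) (a (σ i)) :=
    mul_nonneg (mul_nonneg hc (Nat.cast_nonneg _)) (hP σ)
  by_cases hocc : ∃ i, b i = v
  swap
  · push Not at hocc
    obtain ⟨σ', h1⟩ := hD k b a fun i => by
      rcases mem_insert.mp (hb i) with h | h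
      · exact absurd h (hocc i)
      · exact h
    calc _ ≤ c * ∏ i, B (b i) (a (σ' i)) := h1
      _ ≤ c * ∏ i, B (b i) (a (σ i)) := mul_le_mul_of_nonneg_left (hσ σ') hc
      _ ≤ c * ((C.pre v).card ⊔ 1 : ℕ) * ∏ i, B (b i) (a (σ i)) := by
          refine mul_le_mul_of_nonneg_right ?_ (hP σ)
          exact le_mul_of_one_le_right hc hm1
  obtain ⟨i₀, hi₀⟩ := hocc
  by_cases htwice : ∃ i, i ≠ i₀ ∧ b i = v
  · obtain ⟨i, hne, hi⟩ := htwice
    have : (Matrix.of fun i j => g (b i) (a j)).det = 0 :=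
      Matrix.det_zero_of_row_eq hne (by funext j; simp only [Matrix.of_apply, hi, hi₀])
    rw [this, norm_zero]
    exact hzero
  push Not at htwice
  by_cases hT : v ∈ T
  · have : (Matrix.of fun i j => g (b i) (a j)).det = 0 := by
      refine Matrix.det_eq_zero_of_row_eq_zero i₀ fun j => ?_
      rw [Matrix.of_apply, hi₀, hg v, if_pos hT]
      rfl
    rw [this, norm_zero]
    exact hzero
  have hgv : g v = ∑ u ∈ C.pre v, C.wt u v • g u := by
    have := hg v
    rw [if_neg hT, hv] at this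
    exact this
  have hM : (Matrix.of fun i j => g (b i) (a j)).det = ∑ u ∈ C.pre v, C.wt u v *
      (Matrix.of fun i j => g (Function.update b i₀ u i) (a j)).det := by
    have e1 : (Matrix.of fun i j => g (b i) (a j)) =
        (Matrix.of fun i j => g (b i) (a j)).updateRow i₀
          (∑ u ∈ C.pre v, C.wt u v • fun j => g u (a j)) := by
      ext i j
      by_cases h : i = i₀
      · subst h
        rw [Matrix.updateRow_self, Matrix.of_apply, hi₀, hgv, Finset.sum_apply, Finset.sum_apply]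
        rfl
      · rw [Matrix.updateRow_ne h]
    rw [e1]
    have e4 : ((Matrix.of fun i j => g (b i) (a j)).updateRow i₀
        (∑ u ∈ C.pre v, C.wt u v • fun j => g u (a j))).det =
        ∑ u ∈ C.pre v, ((Matrix.of fun i j => g (b i) (a j)).updateRow i₀
        (C.wt u v • fun j => g u (a j))).det :=
      (Matrix.detRowAlternating (n := Fin k) (R := F)).toMultilinearMap.map_update_sum
        (C.pre v) i₀ (fun u => C.wt u v • fun j => g u (a j))
        (Matrix.of fun i j => g (b i) (a j))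
    rw [e4]
    refine sum_congr rfl fun u _ => ?_
    rw [Matrix.det_updateRow_smul]
    congr 2
    ext i j
    by_cases h : i = i₀
    · subst h
      rw [Matrix.updateRow_self, Matrix.of_apply, Function.update_self]
    · rw [Matrix.updateRow_ne h, Matrix.of_apply, Matrix.of_apply, Function.update_of_ne h]
  rw [hM]
  refine (norm_sum_le _ _).trans ?_
  have hterm : ∀ u ∈ C.pre v, ‖C.wt u v *
      (Matrix.of fun i j => g (Function.update b i₀ u i) (a j)).det‖ ≤
      c * ∏ i, B (b i) (a (σ i)) := by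
    intro u hu
    obtain ⟨σ', h1⟩ := hD k (Function.update b i₀ u) a fun i => by
      by_cases h : i = i₀
      · subst h; rw [Function.update_self]; exact hpre hu
      · rw [Function.update_of_ne h]
        rcases mem_insert.mp (hb i) with h2 | h2
        · exact absurd h2 (htwice i h)
        · exact h2
    have e2 : ∏ i, B (Function.update b i₀ u i) (a (σ' i)) =
        B u (a (σ' i₀)) * ∏ i ∈ univ.erase i₀, B (b i) (a (σ' i)) := by
      rw [← mul_prod_erase univ _ (mem_univ i₀), Function.update_self]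
      congr 1
      refine prod_congr rfl fun i hi => ?_
      rw [Function.update_of_ne (ne_of_mem_erase hi)]
    have e3 : ∏ i, B (b i) (a (σ' i)) =
        B v (a (σ' i₀)) * ∏ i ∈ univ.erase i₀, B (b i) (a (σ' i)) := by
      rw [← mul_prod_erase univ _ (mem_univ i₀), hi₀]
    have h2 : 0 ≤ ∏ i ∈ univ.erase i₀, B (b i) (a (σ' i)) :=
      prod_nonneg fun i _ => abs_nonneg' hB _ _
    rw [norm_mul]
    calc ‖C.wt u v‖ * ‖(Matrix.of fun i j => g (Function.update b i₀ u i) (a j)).det‖
        ≤ ‖C.wt u v‖ * (c * (B u (a (σ' i₀)) * ∏ i ∈ univ.erase i₀, B (b i) (a (σ' i)))) := by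
          refine mul_le_mul_of_nonneg_left ?_ (norm_nonneg _)
          rw [← e2]; exact h1
      _ = c * ((‖C.wt u v‖ * B u (a (σ' i₀))) * ∏ i ∈ univ.erase i₀, B (b i) (a (σ' i))) := by
          ring
      _ ≤ c * (B v (a (σ' i₀)) * ∏ i ∈ univ.erase i₀, B (b i) (a (σ' i))) := by
          refine mul_le_mul_of_nonneg_left ?_ hc
          exact mul_le_mul_of_nonneg_right (abs_pre hB hu hT _) h2
      _ = c * ∏ i, B (b i) (a (σ' i)) := by rw [e3]
      _ ≤ c * ∏ i, B (b i) (a (σ i)) := mul_le_mul_of_nonneg_left (hσ σ') hc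
  refine (sum_le_sum hterm).trans ?_
  rw [sum_const, nsmul_eq_mul]
  calc ((C.pre v).card : ℝ) * (c * ∏ i, B (b i) (a (σ i)))
      = c * (C.pre v).card * ∏ i, B (b i) (a (σ i)) := by ring
    _ ≤ _ := by
        refine mul_le_mul_of_nonneg_right ?_ (hP σ)
        exact mul_le_mul_of_nonneg_left hm2 hc

theorem good_all {g : C.V → Fin n → F} (hg : C.IsVal0 T g) : ∀ (N : ℕ) (D : Finset C.V),
    (D.filter fun v => C.lab v = none).card = N → (∀ v ∈ D, C.pre v ⊆ D) →
    Good g B D (∏ v ∈ D, ((C.pre v).card ⊔ 1 : ℕ) : ℕ) := by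
  classical
  intro N
  induction N with
  | zero =>
    intro D hN _
    have hD : ∀ v ∈ D, C.lab v ≠ none := by
      intro v hv h
      have : v ∈ D.filter fun v => C.lab v = none := mem_filter.mpr ⟨hv, h⟩
      rw [card_eq_zero.mp hN] at this
      exact notMem_empty _ this
    have h1 : (∏ v ∈ D, ((C.pre v).card ⊔ 1 : ℕ)) = 1 := by
      refine prod_eq_one fun v hv => ?_
      have : C.pre v = ∅ := by
        rw [eq_empty_iff_forall_notMem]
        intro u hu
        exact hD v hv (C.lab_pre hu)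
      rw [this]; rfl
    rw [h1, Nat.cast_one]
    exact good_inputs hB hg D hD
  | succ N ih =>
    intro D hN hdown
    have hne : (D.filter fun v => C.lab v = none).Nonempty := by
      rw [← card_pos, hN]; omega
    obtain ⟨v, hv, hmax⟩ := exists_max_image _ C.rk hne
    obtain ⟨hvD, hvl⟩ := mem_filter.mp hv
    have h1 : insert v (D.erase v) = D := insert_erase hvD
    have hpre : C.pre v ⊆ D.erase v := by
      intro u hu
      refine mem_erase.mpr ⟨?_, hdown v hvD hu⟩
      rintro rfl
      exact lt_irrefl _ (C.rk_pre hu)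
    have hD' : Good g B (D.erase v) (∏ v ∈ D.erase v, ((C.pre v).card ⊔ 1 : ℕ) : ℕ) := by
      refine ih (D.erase v) ?_ ?_
      · rw [filter_erase, card_erase_of_mem hv, hN]
        rfl
      · intro w hw u hu
        obtain ⟨hwv, hwD⟩ := mem_erase.mp hw
        refine mem_erase.mpr ⟨?_, hdown w hwD hu⟩
        rintro rfl
        have h2 := hmax w (mem_filter.mpr ⟨hwD, C.lab_pre hu⟩)
        have h3 := C.rk_pre hu
        omega
    have h2 := good_insert hB hg (Nat.cast_nonneg _) hD' hvl hpre (notMem_erase v D)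
    rw [h1] at h2
    have h3 : ((∏ v ∈ D.erase v, ((C.pre v).card ⊔ 1 : ℕ) : ℕ) : ℝ) * ((C.pre v).card ⊔ 1 : ℕ) =
        ((∏ v ∈ D, ((C.pre v).card ⊔ 1 : ℕ) : ℕ) : ℝ) := by
      rw [← Nat.cast_mul, prod_erase_mul _ _ hvD]
    rwa [h3] at h2

/-- **Determinants and path sums.** -/
theorem det_le {g : C.V → Fin n → F} (hg : C.IsVal0 T g) (k : ℕ) (b : Fin k → C.V)
    (a : Fin k → Fin n) : ∃ σ : Equiv.Perm (Fin k),
      ‖(Matrix.of fun i j => g (b i) (a j)).det‖ ≤ 2 ^ C.adds * ∏ i, B (b i) (a (σ i)) := by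
  classical
  obtain ⟨σ, h⟩ := good_all hB hg _ univ rfl (fun v _ => subset_univ _) k b a
    (fun _ => mem_univ _)
  refine ⟨σ, h.trans ?_⟩
  refine mul_le_mul_of_nonneg_right ?_ (prod_nonneg fun i _ => abs_nonneg' hB _ _)
  have h1 : ∏ v : C.V, ((C.pre v).card ⊔ 1 : ℕ) ≤ 2 ^ C.adds := by
    unfold LinCircuit.adds
    rw [← prod_pow_eq_pow_sum]
    refine prod_le_prod' fun v _ => ?_
    rcases Nat.eq_zero_or_pos (C.pre v).card with h | h
    · rw [h]; norm_num
    · rw [sup_eq_left.mpr h]
      obtain ⟨m, hm⟩ : ∃ m, (C.pre v).card = m + 1 := ⟨(C.pre v).card - 1, by omega⟩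
      rw [hm, Nat.add_sub_cancel]
      exact Nat.lt_two_pow_self
  exact_mod_cast h1

end

end Pool.Agent.Helper76.LC
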