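import Mathlib

set_option autoImplicit false

/-!
# Large minors of matrices close to a Hadamard matrix in rank
-/

namespace Pool.Agent.Helper76.LC

open Finset Matrix

/-- Cauchy-Binet with ordered tuples. -/
theorem cauchy_binet {R : Type} [CommRing R] {m n : ℕ} (P : Matrix (Fin m) (Fin n) R)
    (Q : Matrix (Fin n) (Fin m) R) :
    (m.factorial : R) * (P * Q).det =
      ∑ a : Fin m → Fin n, (P.submatrix id a).det * (Q.submatrix a id).det := by
  have h0 : (P * Q).det = ∑ a : Fin m → Fin n, (P.submatrix id a).det * ∏ i, Q (a i) i := by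
    rw [det_apply']
    have h1 : ∀ σ : Equiv.Perm (Fin m), ∏ i, (P * Q) (σ i) i =
        ∑ a : Fin m → Fin n, (∏ i, P (σ i) (a i)) * ∏ i, Q (a i) i := by
      intro σ
      simp only [Matrix.mul_apply]
      rw [Finset.prod_univ_sum, Fintype.piFinset_univ]
      apply Finset.sum_congr rfl
      intro a _
      rw [Finset.prod_mul_distrib]
    simp only [h1, Finset.mul_sum]
    rw [Finset.sum_comm]
    apply Finset.sum_congr rfl
    intro a _
    rw [det_apply', Finset.sum_mul]
    apply Finset.sum_congr rfl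
    intro σ _
    simp only [submatrix_apply, id]
    ring
  have h1 : ∀ τ : Equiv.Perm (Fin m), (P * Q).det =
      ∑ a : Fin m → Fin n, (P.submatrix id a).det *
        (((Equiv.Perm.sign τ : ℤ) : R) * ∏ i, Q (a (τ i)) i) := by
    intro τ
    rw [h0, ← Equiv.sum_comp (Equiv.arrowCongr τ.symm (Equiv.refl (Fin n)))]
    apply Finset.sum_congr rfl
    intro a _
    have e : (Equiv.arrowCongr τ.symm (Equiv.refl (Fin n))) a = a ∘ τ := by
      ext i
      simp [Equiv.arrowCongr]
    rw [e]
    have e2 : P.submatrix id (a ∘ τ) = (P.submatrix id a).submatrix id τ := rfl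
    rw [e2, Matrix.det_permute']
    simp only [Function.comp_apply]
    ring
  calc (m.factorial : R) * (P * Q).det = ∑ τ : Equiv.Perm (Fin m), (P * Q).det := by
        rw [Finset.sum_const, Finset.card_univ, Fintype.card_perm, Fintype.card_fin, nsmul_eq_mul]
    _ = ∑ τ : Equiv.Perm (Fin m), ∑ a : Fin m → Fin n, (P.submatrix id a).det *
      (((Equiv.Perm.sign τ : ℤ) : R) * ∏ i, Q (a (τ i)) i) :=
        Finset.sum_congr rfl (fun τ _ => h1 τ)
    _ = _ := by
        rw [Finset.sum_comm]
        apply Finset.sum_congr rfl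
        intro a _
        rw [← Finset.mul_sum, det_apply' (Q.submatrix a id)]
        rfl

variable {𝕜 : Type} [RCLike 𝕜]

/-- The Gram determinant. -/
theorem gram {m n : ℕ} (Y : Matrix (Fin m) (Fin n) 𝕜) :
    ((m.factorial : ℝ) : 𝕜) * (Y * Yᴴ).det =
      ((∑ a : Fin m → Fin n, ‖(Y.submatrix id a).det‖ ^ 2 : ℝ) : 𝕜) := by
  have h := cauchy_binet Y Yᴴ
  rw [RCLike.ofReal_natCast, h]
  push_cast
  refine sum_congr rfl fun a _ => ?_
  have : Yᴴ.submatrix a id = (Y.submatrix id a)ᴴ := rfl
  rw [this, det_conjTranspose, RCLike.star_def, RCLike.mul_conj]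

theorem large_minor {n k : ℕ} (A A' : Matrix (Fin n) (Fin n) 𝕜)
    (hA : A * Aᴴ = (n : 𝕜) • (1 : Matrix (Fin n) (Fin n) 𝕜)) (X : Matrix (Fin k) (Fin n) 𝕜)
    (hX : X * Xᴴ = 1) (hXA : X * A' = X * A) (hkn : k ≤ n) :
    ∃ b a : Fin k → Fin n, (n : ℝ) ^ k ≤ (n.choose k : ℝ) ^ 2 * ‖(A'.submatrix b a).det‖ ^ 2 := by
  classical
  have hk0 : (0 : ℝ) < (k.factorial : ℝ) := by exact_mod_cast Nat.factorial_pos k
  -- the Gram determinant of X
  have h1 : (k.factorial : ℝ) = ∑ b : Fin k → Fin n, ‖(X.submatrix id b).det‖ ^ 2 := by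
    have := gram X
    rw [hX, det_one, mul_one] at this
    exact_mod_cast this
  have h2 : (k.factorial : ℝ) * (n : ℝ) ^ k =
      ∑ a : Fin k → Fin n, ‖((X * A').submatrix id a).det‖ ^ 2 := by
    have h3 := gram (X * A')
    have h4 : X * A' * (X * A')ᴴ = (n : 𝕜) • (1 : Matrix (Fin k) (Fin k) 𝕜) := by
      rw [hXA, conjTranspose_mul, Matrix.mul_assoc, ← Matrix.mul_assoc A, hA, Matrix.smul_mul,
        Matrix.one_mul, Matrix.mul_smul, hX]
    rw [h4, det_smul, det_one, mul_one, Fintype.card_fin] at h3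
    have h5 : (((k.factorial : ℝ) * (n : ℝ) ^ k : ℝ) : 𝕜) =
        ((∑ a : Fin k → Fin n, ‖((X * A').submatrix id a).det‖ ^ 2 : ℝ) : 𝕜) := by
      rw [← h3]
      push_cast
      ring
    exact RCLike.ofReal_injective h5
  have h6 : ∀ a : Fin k → Fin n, (k.factorial : ℝ) * ‖((X * A').submatrix id a).det‖ ^ 2 ≤
      ∑ b : Fin k → Fin n, ‖(A'.submatrix b a).det‖ ^ 2 := by
    intro a
    have h7 : (X * A').submatrix id a = X * A'.submatrix id a := by
      ext i j
      simp [Matrix.mul_apply]
    have h8 := cauchy_binet X (A'.submatrix id a)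
    rw [h7]
    have h9 : (k.factorial : ℝ) * ‖(X * A'.submatrix id a).det‖ ≤
        ∑ b : Fin k → Fin n, ‖(X.submatrix id b).det‖ * ‖(A'.submatrix b a).det‖ := by
      have h10 : (k.factorial : ℝ) * ‖(X * A'.submatrix id a).det‖ =
          ‖(k.factorial : 𝕜) * (X * A'.submatrix id a).det‖ := by
        rw [norm_mul, RCLike.norm_natCast]
      rw [h10, h8]
      refine (norm_sum_le _ _).trans (sum_le_sum fun b _ => ?_)
      rw [norm_mul]
      exact le_of_eq rfl
    have h11 : (∑ b : Fin k → Fin n, ‖(X.submatrix id b).det‖ * ‖(A'.submatrix b a).det‖) ^ 2 ≤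
        (∑ b : Fin k → Fin n, ‖(X.submatrix id b).det‖ ^ 2) *
          ∑ b : Fin k → Fin n, ‖(A'.submatrix b a).det‖ ^ 2 :=
      sum_mul_sq_le_sq_mul_sq _ _ _
    rw [← h1] at h11
    have h12 : ((k.factorial : ℝ) * ‖(X * A'.submatrix id a).det‖) ^ 2 ≤
        (k.factorial : ℝ) * ∑ b : Fin k → Fin n, ‖(A'.submatrix b a).det‖ ^ 2 :=
      (pow_le_pow_left₀ (mul_nonneg hk0.le (norm_nonneg _)) h9 2).trans h11
    have h13 : (k.factorial : ℝ) * ((k.factorial : ℝ) * ‖(X * A'.submatrix id a).det‖ ^ 2) ≤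
        (k.factorial : ℝ) * ∑ b : Fin k → Fin n, ‖(A'.submatrix b a).det‖ ^ 2 := by
      calc _ = ((k.factorial : ℝ) * ‖(X * A'.submatrix id a).det‖) ^ 2 := by ring
        _ ≤ _ := h12
    exact le_of_mul_le_mul_left h13 hk0
  have hne : Nonempty ((Fin k → Fin n) × (Fin k → Fin n)) := ⟨(Fin.castLE hkn, Fin.castLE hkn)⟩
  obtain ⟨⟨b₀, a₀⟩, hmax⟩ := Finite.exists_max
    fun p : (Fin k → Fin n) × (Fin k → Fin n) => ‖(A'.submatrix p.1 p.2).det‖ ^ 2
  refine ⟨b₀, a₀, ?_⟩
  set M := ‖(A'.submatrix b₀ a₀).det‖ ^ 2 with hM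
  -- only injective tuples contribute
  have h14 : ∑ a : Fin k → Fin n, ∑ b : Fin k → Fin n, ‖(A'.submatrix b a).det‖ ^ 2 ≤
      (n.descFactorial k : ℝ) ^ 2 * M := by
    have hcard : (univ.filter fun a : Fin k → Fin n => Function.Injective a).card =
        n.descFactorial k := by
      have e1 : (univ.filter fun a : Fin k → Fin n => Function.Injective a).card =
          Fintype.card {a : Fin k → Fin n // Function.Injective a} :=
        (Fintype.card_subtype _).symm
      have e2 : Fintype.card {a : Fin k → Fin n // Function.Injective a} =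
          Fintype.card (Fin k ↪ Fin n) :=
        Fintype.card_congr (Equiv.subtypeInjectiveEquivEmbedding (Fin k) (Fin n))
      rw [e1, e2, Fintype.card_embedding_eq, Fintype.card_fin, Fintype.card_fin]
    calc ∑ a : Fin k → Fin n, ∑ b : Fin k → Fin n, ‖(A'.submatrix b a).det‖ ^ 2
        ≤ ∑ a : Fin k → Fin n, ∑ b : Fin k → Fin n,
          (if Function.Injective a then 1 else 0) * (if Function.Injective b then 1 else 0) * M := by
          refine sum_le_sum fun a _ => sum_le_sum fun b _ => ?_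
          by_cases ha : Function.Injective a
          · by_cases hb : Function.Injective b
            · rw [if_pos ha, if_pos hb, one_mul, one_mul]
              exact hmax (b, a)
            · obtain ⟨i, j, hij, hne⟩ : ∃ i j, b i = b j ∧ i ≠ j := by
                unfold Function.Injective at hb
                push Not at hb
                exact hb
              have : (A'.submatrix b a).det = 0 :=
                det_zero_of_row_eq hne (by funext l; simp [hij])
              rw [this, if_neg hb]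
              simp
          · obtain ⟨i, j, hij, hne⟩ : ∃ i j, a i = a j ∧ i ≠ j := by
              unfold Function.Injective at ha
              push Not at ha
              exact ha
            have : (A'.submatrix b a).det = 0 :=
              det_zero_of_column_eq hne (by intro l; simp [hij])
            rw [this, if_neg ha]
            simp
      _ = (n.descFactorial k : ℝ) ^ 2 * M := by
          simp only [← sum_mul, ← mul_sum]
          rw [sum_boole, hcard, sq]
  have h15 : (k.factorial : ℝ) ^ 2 * (n : ℝ) ^ k ≤ (n.descFactorial k : ℝ) ^ 2 * M := by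
    calc (k.factorial : ℝ) ^ 2 * (n : ℝ) ^ k
        = (k.factorial : ℝ) * ((k.factorial : ℝ) * (n : ℝ) ^ k) := by ring
      _ = ∑ a : Fin k → Fin n, (k.factorial : ℝ) * ‖((X * A').submatrix id a).det‖ ^ 2 := by
          rw [h2, mul_sum]
      _ ≤ ∑ a : Fin k → Fin n, ∑ b : Fin k → Fin n, ‖(A'.submatrix b a).det‖ ^ 2 :=
          sum_le_sum fun a _ => h6 a
      _ ≤ _ := h14
  rw [Nat.descFactorial_eq_factorial_mul_choose] at h15
  push_cast at h15
  have h16 : (k.factorial : ℝ) ^ 2 * (n : ℝ) ^ k ≤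
      (k.factorial : ℝ) ^ 2 * ((n.choose k : ℝ) ^ 2 * M) := by
    calc _ ≤ _ := h15
      _ = _ := by ring
  exact le_of_mul_le_mul_left h16 (by positivity)

/-- orthonormal vectors in the left kernel -/
theorem exists_kernel {n k : ℕ} (R : Matrix (Fin n) (Fin n) 𝕜) (h : R.rank + k ≤ n) :
    ∃ X : Matrix (Fin k) (Fin n) 𝕜, X * Xᴴ = 1 ∧ X * R = 0 := by
  classical
  obtain ⟨f, hf⟩ : ∃ f : EuclideanSpace 𝕜 (Fin n) →ₗ[𝕜] (Fin n → 𝕜), f =
    (Matrix.toLin' Rᵀ) ∘ₗ (WithLp.linearEquiv 2 𝕜 (Fin n → 𝕜)).toLinearMap := ⟨_, rfl⟩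
  let W : Submodule 𝕜 (EuclideanSpace 𝕜 (Fin n)) := LinearMap.ker f
  have hW : k ≤ Module.finrank 𝕜 W := by
    have h1 := LinearMap.finrank_range_add_finrank_ker f
    have h2 : Module.finrank 𝕜 (LinearMap.range f) = R.rank := by
      rw [hf, LinearMap.range_comp, LinearEquiv.range, Submodule.map_top,
        ← Matrix.rank_transpose R]
      rfl
    rw [h2, finrank_euclideanSpace, Fintype.card_fin] at h1
    show k ≤ Module.finrank 𝕜 (LinearMap.ker f)
    omega
  let B := stdOrthonormalBasis 𝕜 W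
  let X : Matrix (Fin k) (Fin n) 𝕜 := Matrix.of fun i j =>
    ((B (Fin.castLE hW i) : W) : EuclideanSpace 𝕜 (Fin n)) j
  refine ⟨X, ?_, ?_⟩
  · ext i j
    have h1 := orthonormal_iff_ite.mp B.orthonormal (Fin.castLE hW j) (Fin.castLE hW i)
    rw [Submodule.coe_inner, PiLp.inner_apply] at h1
    rw [Matrix.mul_apply, Matrix.one_apply]
    simp only [X, Matrix.of_apply, conjTranspose_apply, RCLike.star_def]
    have h2 : (if Fin.castLE hW j = Fin.castLE hW i then (1 : 𝕜) else 0) =
        if i = j then 1 else 0 := by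
      by_cases hij : i = j
      · subst hij; simp
      · rw [if_neg hij, if_neg]
        intro h3
        exact hij (Fin.castLE_injective hW h3).symm
    rw [← h2, ← h1]
    refine sum_congr rfl fun l _ => ?_
    simp only [RCLike.inner_apply]
  · ext i j
    have h1 := (B (Fin.castLE hW i)).2
    rw [LinearMap.mem_ker, hf] at h1
    have h2 := congrFun h1 j
    simp only [LinearMap.comp_apply, Matrix.toLin'_apply, Matrix.mulVec, dotProduct,
      Matrix.transpose_apply] at h2
    rw [Matrix.mul_apply, Matrix.zero_apply]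
    simp only [X, Matrix.of_apply]
    refine Eq.trans ?_ h2
    refine sum_congr rfl fun l _ => ?_
    exact mul_comm _ _

end Pool.Agent.Helper76.LC
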