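import Pool.Agent.Helper76.LC.FftD

set_option autoImplicit false

/-!
# Exact optimality of the fast Fourier transform; Walsh-Hadamard matrices
-/

namespace Pool.Agent.Helper76.LC.FFT

open Finset

variable {F : Type} [Field F]

theorem cube_le {p : ℕ} (hp : 2 ≤ p) : p ^ 3 ≤ 3 ^ p := by
  rcases Nat.lt_or_ge p 3 with h | h
  · have : p = 2 := by omega
    subst this
    norm_num
  · induction p, h using Nat.le_induction with
    | base => norm_num
    | succ p h3 ih =>
      have h4 := ih (by omega)
      have h5 : (p + 1) ^ 3 ≤ 3 * p ^ 3 := by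
        have h6 : 3 * (p * p) ≤ p ^ 3 := by
          have : p ^ 3 = p * (p * p) := by ring
          rw [this]
          exact Nat.mul_le_mul_right _ h3
        have h7 : 3 * p + 1 ≤ p ^ 3 := by
          have h8 : 3 * p + 1 ≤ 3 * (p * p) := by nlinarith
          omega
        nlinarith
      calc (p + 1) ^ 3 ≤ 3 * p ^ 3 := h5
        _ ≤ 3 * 3 ^ p := Nat.mul_le_mul_left _ h4
        _ = 3 ^ (p + 1) := by ring

/-- `sopfr h` is at least `3 log h / log 3`. -/
theorem sopfr_ge : ∀ h : ℕ, 1 ≤ h → h ^ 3 ≤ 3 ^ sopfr h := by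
  intro h
  induction h using Nat.strong_induction_on with
  | _ h ih =>
    intro hh
    rcases Nat.lt_or_ge h 2 with h1 | h1
    · have : h = 1 := by omega
      subst this
      rw [sopfr_one]; norm_num
    · obtain ⟨p, hp, b, rfl⟩ := Nat.exists_prime_and_dvd (show h ≠ 1 by omega)
      have hb : 0 < b := Nat.pos_of_ne_zero fun h0 => by subst h0; omega
      rw [sopfr_mul hp.ne_zero (by omega), sopfr_prime hp, mul_pow, pow_add]
      refine Nat.mul_le_mul (cube_le hp.two_le) (ih b ?_ hb)
      have := hp.two_le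
      nlinarith

section

variable {G : Type} [AddCommGroup G] {n : ℕ} (e : Fin n ≃ G) (χ : Fin n → AddChar G F)

theorem tau_apply (c : G) (j : Fin n) : tau e c j = e.symm (c + e j) := rfl

theorem rows_li (hχ : Function.Injective χ) :
    LinearIndependent F (fun i j => χ i (e j) : Fin n → Fin n → F) := by
  have h1 := (linearIndependent_monoidHom (Multiplicative G) F).comp
    (fun i => (χ i).toMonoidHom) (by
      intro a b hab
      apply hχ
      apply AddChar.ext
      intro x
      exact DFunLike.congr_fun hab (Multiplicative.ofAdd x))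
  have h2 := h1.map' (LinearMap.funLeft F F (fun j => Multiplicative.ofAdd (e j))) (by
    rw [LinearMap.ker_eq_bot]
    apply LinearMap.funLeft_injective_of_surjective
    intro g
    exact ⟨e.symm g.toAdd, by simp⟩)
  exact h2

include e in
theorem card_ne_zero (hχ : Function.Injective χ) : (n : F) ≠ 0 := by
  classical
  have : Fintype G := Fintype.ofEquiv _ e
  have hcard : Fintype.card G = n := by rw [← Fintype.card_congr e, Fintype.card_fin]
  have hpos : 0 < n := by
    rw [← hcard]; exact Fintype.card_pos_iff.mpr ⟨0⟩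
  have hli := rows_li e χ hχ
  have hspan : Submodule.span F (Set.range (fun i j => χ i (e j) : Fin n → Fin n → F)) = ⊤ :=
    hli.span_eq_top_of_card_eq_finrank' (by simp)
  let k : Fin n := ⟨0, hpos⟩
  let L : (Fin n → F) →ₗ[F] F :=
    { toFun := fun f => ∑ j, χ k (-(e j)) * f j
      map_add' := by intro f g; simp only [Pi.add_apply, mul_add, sum_add_distrib]
      map_smul' := by
        intro a f
        simp only [Pi.smul_apply, smul_eq_mul, RingHom.id_apply, mul_sum]
        exact sum_congr rfl fun j _ => by ring }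
  intro h0
  have hL : ∀ i, L (fun j => χ i (e j)) = 0 := by
    intro i
    have h1 : L (fun j => χ i (e j)) = ∑ g : G, (χ i * (χ k)⁻¹) g := by
      show ∑ j, χ k (-(e j)) * χ i (e j) = _
      refine Fintype.sum_equiv e _ _ fun j => ?_
      rw [AddChar.mul_apply, AddChar.inv_apply, mul_comm]
    rw [h1, AddChar.sum_eq_ite]
    split_ifs with h2
    · rw [hcard, h0]
    · rfl
  have hL2 : L = 0 := by
    have : Set.EqOn L (0 : (Fin n → F) →ₗ[F] F)
        (Set.range (fun i j => χ i (e j) : Fin n → Fin n → F)) := by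
      rintro _ ⟨i, rfl⟩
      rw [hL i]; rfl
    exact LinearMap.ext_on hspan this
  have h3 : L (Pi.single (e.symm 0) 1) = 1 := by
    show ∑ j, χ k (-(e j)) * (Pi.single (e.symm 0) (1 : F) : Fin n → F) j = 1
    rw [sum_eq_single (e.symm 0)]
    · simp
    · intro b _ hb
      rw [Pi.single_eq_of_ne hb, mul_zero]
    · intro h; exact absurd (mem_univ _) h
  rw [hL2] at h3
  exact zero_ne_one h3

theorem symm_lower (hχ : Function.Injective χ) (C : LinCircuit F n) (hC : C.Symm (tau e))
    (hcomp : C.Computes (Matrix.of fun i j => χ i (e j))) :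
    n * sopfr n ≤ C.E.card ∧ n * sopfr n ≤ 2 * C.adds := by
  classical
  have : Fintype G := Fintype.ofEquiv _ e
  have hcard : Fintype.card G = n := by rw [← Fintype.card_congr e, Fintype.card_fin]
  have hadd : ∀ c d i, tau e (c + d) i = tau e c (tau e d i) := by
    intro c d i
    simp only [tau_apply, Equiv.apply_symm_apply, add_assoc]
  have hfree : ∀ c i, tau e c i = i → c = 0 := by
    intro c i h
    rw [tau_apply, Equiv.symm_apply_eq] at h
    simpa using h
  have h1 := lower C hadd hfree hC hcomp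
    (fun i => ⟨χ i, fun c j => by
      show χ i (e (tau e c j)) = _
      rw [tau_apply, Equiv.apply_symm_apply, AddChar.map_add_eq_mul]
      rfl⟩)
    (by rw [hcard]; exact card_ne_zero e χ hχ)
  have h2 : (Matrix.of fun i j => χ i (e j) : Matrix (Fin n) (Fin n) F).rank = n := by
    have := (rows_li e χ hχ).rank_matrix (M := Matrix.of fun i j => χ i (e j))
    rwa [Fintype.card_fin] at this
  rwa [h2, hcard] at h1

theorem optimal (hχ : Function.Injective χ) :
    IsLeast {k | ∃ C : LinCircuit F n, C.Symm (tau e) ∧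
      C.Computes (Matrix.of fun i j => χ i (e j)) ∧ C.E.card = k} (n * sopfr n) := by
  have : Finite G := Finite.of_equiv _ e
  refine ⟨?_, ?_⟩
  · obtain ⟨C, h1, h2, h3, -⟩ := upper (F := F) e χ
    exact ⟨C, h1, h2, le_antisymm h3 (symm_lower e χ hχ C h1 h2).1⟩
  · rintro k ⟨C, h1, h2, rfl⟩
    exact (symm_lower e χ hχ C h1 h2).1

theorem optimal_adds (hχ : Function.Injective χ) (m : ℕ) (hm : n = 2 ^ m) :
    IsLeast {k | ∃ C : LinCircuit F n, C.Symm (tau e) ∧
      C.Computes (Matrix.of fun i j => χ i (e j)) ∧ C.adds = k} (n * m) := by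
  have : Finite G := Finite.of_equiv _ e
  have key : ∀ C : LinCircuit F n, C.Symm (tau e) →
      C.Computes (Matrix.of fun i j => χ i (e j)) → n * m ≤ C.adds := by
    intro C h1 h2
    have h3 := (symm_lower e χ hχ C h1 h2).2
    have h4 : sopfr n = 2 * m := by rw [hm, sopfr_two_pow]
    rw [h4] at h3
    have h5 : n * (2 * m) = 2 * (n * m) := by ring
    omega
  refine ⟨?_, ?_⟩
  · obtain ⟨C, h1, h2, -, h3⟩ := upper (F := F) e χ
    exact ⟨C, h1, h2, le_antisymm (h3 m hm) (key C h1 h2)⟩
  · rintro k ⟨C, h1, h2, rfl⟩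
    exact key C h1 h2

end

/-- The Walsh-Hadamard matrix of order `2 ^ m`, the indices being identified with bit vectors by
`e`: the entry at `i, j` is `-1` to the number of the common ones of `e i` and `e j`. -/
def walsh (F : Type) [Field F] {m : ℕ} (e : Fin (2 ^ m) ≃ (Fin m → ZMod 2)) :
    Matrix (Fin (2 ^ m)) (Fin (2 ^ m)) F :=
  Matrix.of fun i j => ∏ l, if e i l = 1 ∧ e j l = 1 then (-1 : F) else 1

theorem bit_mul (a g g' : ZMod 2) : (if a = 1 ∧ g + g' = 1 then (-1 : F) else 1) =
    (if a = 1 ∧ g = 1 then (-1 : F) else 1) * (if a = 1 ∧ g' = 1 then (-1 : F) else 1) := by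
  have key : ∀ a g g' : ZMod 2, (if a = 1 ∧ g + g' = 1 then (-1 : ℤ) else 1) =
    (if a = 1 ∧ g = 1 then (-1 : ℤ) else 1) * (if a = 1 ∧ g' = 1 then (-1 : ℤ) else 1) := by
    decide
  have := congrArg (Int.cast : ℤ → F) (key a g g')
  simpa using this

/-- the characters of the group of bit vectors -/
def walshChar (F : Type) [Field F] {m : ℕ} (a : Fin m → ZMod 2) :
    AddChar (Fin m → ZMod 2) F where
  toFun g := ∏ l, if a l = 1 ∧ g l = 1 then (-1 : F) else 1
  map_zero_eq_one' := by
    refine prod_eq_one fun l _ => ?_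
    rw [if_neg]
    rintro ⟨_, h⟩
    exact absurd h (by simp)
  map_add_eq_mul' g g' := by
    rw [← prod_mul_distrib]
    exact prod_congr rfl fun l _ => bit_mul _ _ _

theorem walshChar_injective (h2 : (2 : F) ≠ 0) {m : ℕ} (e : Fin (2 ^ m) ≃ (Fin m → ZMod 2)) :
    Function.Injective (fun i => walshChar F (e i)) := by
  intro i i' hii
  apply e.injective
  funext l
  have h1 : ∀ a : Fin m → ZMod 2, walshChar F a (Pi.single l 1) =
      if a l = 1 then (-1 : F) else 1 := by
    intro a
    show ∏ l', (if a l' = 1 ∧ (Pi.single l 1 : Fin m → ZMod 2) l' = 1 then (-1 : F) else 1) = _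
    rw [prod_eq_single l]
    · simp
    · intro b _ hb
      rw [Pi.single_eq_of_ne hb, if_neg]
      rintro ⟨_, h⟩
      exact absurd h (by simp)
    · intro h; exact absurd (mem_univ _) h
  have h3 := h1 (e i)
  have h4 := h1 (e i')
  simp only at hii
  rw [hii, h4] at h3
  have h5 : (-1 : F) ≠ 1 := by
    intro h6
    apply h2
    linear_combination -h6
  have h6 : ∀ x y : ZMod 2, ((if x = 1 then (1 : ℤ) else 0) = if y = 1 then 1 else 0) → x = y := by
    decide
  apply h6
  by_cases hx : e i l = 1
  · by_cases hy : e i' l = 1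
    · rw [if_pos hx, if_pos hy]
    · rw [if_neg hy, if_pos hx] at h3
      exact absurd h3.symm h5
  · by_cases hy : e i' l = 1
    · rw [if_pos hy, if_neg hx] at h3
      exact absurd h3 h5
    · rw [if_neg hx, if_neg hy]

theorem walsh_optimal (h2 : (2 : F) ≠ 0) {m : ℕ} (e : Fin (2 ^ m) ≃ (Fin m → ZMod 2)) :
    IsLeast {k | ∃ C : LinCircuit F (2 ^ m), C.Symm (tau e) ∧ C.Computes (walsh F e) ∧
      C.E.card = k} (2 ^ m * (2 * m)) ∧
    IsLeast {k | ∃ C : LinCircuit F (2 ^ m), C.Symm (tau e) ∧ C.Computes (walsh F e) ∧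
      C.adds = k} (2 ^ m * m) := by
  have h := optimal (F := F) e _ (walshChar_injective h2 e)
  rw [sopfr_two_pow] at h
  exact ⟨h, optimal_adds (F := F) e _ (walshChar_injective h2 e) m rfl⟩

end Pool.Agent.Helper76.LC.FFT
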