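import Pool.Agent.Helper76.LC.CanA
import Pool.Agent.Helper76.LC.CanB
import Pool.Agent.Helper76.LC.FftE

set_option autoImplicit false

/-!
# Cancellation in circuits for Hadamard matrices
-/

namespace Pool.Agent.Helper76.LC

open Finset Matrix

variable {𝕜 : Type} [RCLike 𝕜] {n : ℕ} (C : LinCircuit 𝕜 n)

theorem det_le_full {F : Type} [NormedField F] (C : LinCircuit F n) {A : Matrix (Fin n) (Fin n) F}
    (hcomp : C.Computes A) {B : C.V → Fin n → ℝ} (hB : C.IsAbs ∅ B) :
    ∃ σ : Equiv.Perm (Fin n), ‖A.det‖ ≤ 2 ^ C.adds * ∏ i, B (C.out i) (σ i) := by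
  obtain ⟨val, hval, hout⟩ := hcomp
  have hg : C.IsVal0 ∅ val := by
    intro v
    rw [if_neg (notMem_empty v)]
    exact hval v
  obtain ⟨σ, h⟩ := det_le hB hg n C.out id
  refine ⟨σ, ?_⟩
  have : (Matrix.of fun i j => val (C.out i) (id j)) = A := by
    ext i j
    rw [Matrix.of_apply, hout]
    rfl
  rw [this] at h
  exact h

theorem cancel {A : Matrix (Fin n) (Fin n) 𝕜}
    (hA : A * Aᴴ = (n : 𝕜) • (1 : Matrix (Fin n) (Fin n) 𝕜)) (hcomp : C.Computes A)
    {T : Finset C.V} {B : C.V → Fin n → ℝ} (hB : C.IsAbs T B) {k : ℕ} (hk : T.card + k ≤ n) :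
    ∃ b a : Fin k → Fin n, Function.Injective b ∧ Function.Injective a ∧
      (n : ℝ) ^ k ≤ (2 ^ (n + C.adds) * ∏ i, B (C.out (b i)) (a i)) ^ 2 := by
  obtain ⟨val, hval, hout⟩ := hcomp
  obtain ⟨g, hg⟩ := C.exists_val0 T
  let A' : Matrix (Fin n) (Fin n) 𝕜 := Matrix.of fun i => g (C.out i)
  have hrank : (A - A').rank ≤ T.card := by
    refine C.rank_le_card T val _ fun i => ?_
    have := C.sub_mem_span T val g hval hg (C.out i)
    rw [hout] at this
    exact this
  obtain ⟨X, hX, hXR⟩ := exists_kernel (k := k) (A - A') (by omega)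
  have hXA : X * A' = X * A := by
    rw [Matrix.mul_sub, sub_eq_zero] at hXR
    exact hXR.symm
  obtain ⟨b, a, hba⟩ := large_minor A A' hA X hX hXA (by omega)
  have hpos : (0 : ℝ) < (n : ℝ) ^ k := by
    rcases Nat.eq_zero_or_pos k with h | h
    · rw [h, pow_zero]; exact one_pos
    · have : 0 < n := by omega
      positivity
  have hdet : (A'.submatrix b a).det ≠ 0 := by
    intro h0
    rw [h0, norm_zero] at hba
    norm_num at hba
    linarith
  have hb : Function.Injective b := by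
    intro x y hxy
    by_contra hne
    exact hdet (det_zero_of_row_eq hne (by funext l; simp [hxy]))
  have ha : Function.Injective a := by
    intro x y hxy
    by_contra hne
    exact hdet (det_zero_of_column_eq hne (by intro l; simp [hxy]))
  obtain ⟨σ, hσ⟩ := det_le hB hg k (fun i => C.out (b i)) a
  refine ⟨b, a ∘ σ, hb, ha.comp σ.injective, hba.trans ?_⟩
  have h1 : (Matrix.of fun i j => g (C.out (b i)) (a j)) = A'.submatrix b a := rfl
  rw [h1] at hσ
  rw [← mul_pow]
  refine pow_le_pow_left₀ (by positivity) ?_ 2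
  have h2 : (n.choose k : ℝ) ≤ 2 ^ n := by exact_mod_cast Nat.choose_le_two_pow n k
  calc (n.choose k : ℝ) * ‖(A'.submatrix b a).det‖
      ≤ 2 ^ n * (2 ^ C.adds * ∏ i, B (C.out (b i)) (a (σ i))) :=
        mul_le_mul h2 hσ (norm_nonneg _) (by positivity)
    _ = 2 ^ (n + C.adds) * ∏ i, B (C.out (b i)) ((a ∘ σ) i) := by
        rw [pow_add]
        simp only [Function.comp_apply]
        ring

theorem cancel_log {A : Matrix (Fin n) (Fin n) 𝕜}
    (hA : A * Aᴴ = (n : 𝕜) • (1 : Matrix (Fin n) (Fin n) 𝕜)) (hcomp : C.Computes A)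
    {T : Finset C.V} {B : C.V → Fin n → ℝ} (hB : C.IsAbs T B) {K : ℝ} (hK : 0 < K)
    (hBK : ∀ i j, B (C.out i) j ≤ K) :
    ((n : ℝ) - T.card) * (Real.logb 2 n / 2 - Real.logb 2 K) ≤ n + C.adds ∨
      (n : ℝ) ≤ T.card := by
  rcases Nat.lt_or_ge T.card n with hT | hT
  swap
  · exact Or.inr (by exact_mod_cast hT)
  left
  have hn : 0 < n := by omega
  obtain ⟨k, hk⟩ : ∃ k, T.card + k = n := ⟨n - T.card, by omega⟩
  have hk' : (n : ℝ) - T.card = k := by
    have : ((T.card : ℝ) + k) = n := by exact_mod_cast hk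
    linarith
  obtain ⟨b, a, -, -, h⟩ := cancel C hA hcomp hB hk.le
  have h1 : ∏ i, B (C.out (b i)) (a i) ≤ K ^ k := by
    calc ∏ i, B (C.out (b i)) (a i) ≤ ∏ _i : Fin k, K :=
          prod_le_prod (fun i _ => abs_nonneg' hB _ _) fun i _ => hBK _ _
      _ = K ^ k := by rw [prod_const, card_univ, Fintype.card_fin]
  have h2 : (n : ℝ) ^ k ≤ (2 ^ (n + C.adds) * K ^ k) ^ 2 := by
    refine h.trans (pow_le_pow_left₀ (mul_nonneg (by positivity)
      (prod_nonneg fun i _ => abs_nonneg' hB _ _)) ?_ 2)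
    exact mul_le_mul_of_nonneg_left h1 (by positivity)
  have hnR : (0 : ℝ) < n := by exact_mod_cast hn
  have h3 := Real.logb_le_logb_of_le (b := 2) (by norm_num) (by positivity) h2
  rw [Real.logb_pow, Real.logb_pow, Real.logb_mul (by positivity) (by positivity),
    Real.logb_pow, Real.logb_pow, Real.logb_self_eq_one (by norm_num)] at h3
  push_cast at h3
  rw [hk']
  linarith

theorem fourier_gram {G : Type} [AddCommGroup G] (e : Fin n ≃ G) (χ : Fin n → AddChar G 𝕜)
    (hχ : Function.Injective χ) :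
    (Matrix.of fun i j => χ i (e j)) * (Matrix.of fun i j => χ i (e j))ᴴ =
      (n : 𝕜) • (1 : Matrix (Fin n) (Fin n) 𝕜) := by
  classical
  have : Fintype G := Fintype.ofEquiv _ e
  have hcard : Fintype.card G = n := by rw [← Fintype.card_congr e, Fintype.card_fin]
  ext i k
  rw [Matrix.mul_apply, Matrix.smul_apply, Matrix.one_apply]
  have h1 : ∑ j, (Matrix.of fun i j => χ i (e j)) i j *
      (Matrix.of fun i j => χ i (e j))ᴴ j k = ∑ g : G, (χ i * (χ k)⁻¹) g := by
    refine Fintype.sum_equiv e _ _ fun j => ?_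
    rw [Matrix.conjTranspose_apply, Matrix.of_apply, Matrix.of_apply, AddChar.mul_apply,
      AddChar.inv_apply, AddChar.map_neg_eq_conj]
    rfl
  rw [h1, AddChar.sum_eq_ite]
  by_cases h : i = k
  · subst h
    rw [mul_inv_cancel, if_pos (show (1 : AddChar G 𝕜) = 0 from rfl), if_pos rfl, hcard]
    simp
  · have h2 : χ i * (χ k)⁻¹ ≠ 0 := by
      intro h3
      apply h
      apply hχ
      have h4 : χ i * (χ k)⁻¹ = 1 := h3
      exact mul_inv_eq_one.mp h4
    rw [if_neg h2, if_neg h, smul_zero]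

theorem walsh_gram {m : ℕ} (e : Fin (2 ^ m) ≃ (Fin m → ZMod 2)) :
    FFT.walsh 𝕜 e * (FFT.walsh 𝕜 e)ᴴ =
      ((2 ^ m : ℕ) : 𝕜) • (1 : Matrix (Fin (2 ^ m)) (Fin (2 ^ m)) 𝕜) :=
  fourier_gram e _ (FFT.walshChar_injective (by norm_num) e)

end Pool.Agent.Helper76.LC
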