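import Mathlib

set_option autoImplicit false

/-!
# Linear circuits
-/

namespace Pool.Agent.Helper76.LC

open Finset

/-- A linear circuit over `F` on the inputs `x_0, …, x_{n-1}`: a finite acyclic directed graph
(`rk` increases along the edges) with node set `V` and edge set `E`. The nodes `v` with
`lab v = some j` are sources labelled by the input `x_j`, all other nodes are addition gates, every
edge `(u, v)` carries the scalar `wt u v`, and `out i` is the `i`-th output node. -/
structure LinCircuit (F : Type) [Field F] (n : ℕ) where
  V : Type
  [fin : Fintype V]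
  [dec : DecidableEq V]
  E : Finset (V × V)
  rk : V → ℕ
  acyclic : ∀ u v, (u, v) ∈ E → rk u < rk v
  lab : V → Option (Fin n)
  source : ∀ u v, (u, v) ∈ E → lab v = none
  wt : V → V → F
  out : Fin n → V

attribute [instance] LinCircuit.fin LinCircuit.dec

namespace LinCircuit

variable {F : Type} [Field F] {n : ℕ} (C : LinCircuit F n)

/-- the in-neighbours of a node -/
def pre (v : C.V) : Finset C.V := univ.filter fun u => (u, v) ∈ C.E

/-- Number of nodes plus number of edges. -/
def size : ℕ := Fintype.card C.V + C.E.card

/-- `val v` is the linear form computed at the node `v` (given by its coefficients): an input node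
has its variable, a gate has the sum, over its in-edges, of the form at the tail times the scalar on
the edge. -/
def IsVal (val : C.V → Fin n → F) : Prop := ∀ v, val v =
  match C.lab v with
  | some j => Pi.single j 1
  | none => ∑ u ∈ C.pre v, C.wt u v • val u

/-- The circuit computes `A`: the `i`-th output is `∑ j, A i j x_j`. -/
def Computes (A : Matrix (Fin n) (Fin n) F) : Prop :=
  ∃ val, C.IsVal val ∧ ∀ i, val (C.out i) = A i

/-- `f v` is the number of the directed paths from input nodes to `v` which avoid the nodes in `T`
(an input node counts as a path of length `0`). -/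
def IsCount (T : Finset C.V) (f : C.V → ℕ) : Prop := ∀ v, f v =
  if v ∈ T then 0 else (if C.lab v = none then 0 else 1) + ∑ u ∈ C.pre v, f u

theorem mem_pre {u v : C.V} : u ∈ C.pre v ↔ (u, v) ∈ C.E := by simp [pre]

theorem rk_pre {u v : C.V} (h : u ∈ C.pre v) : C.rk u < C.rk v := C.acyclic u v (C.mem_pre.mp h)

theorem lab_pre {u v : C.V} (h : u ∈ C.pre v) : C.lab v = none := C.source u v (C.mem_pre.mp h)

/-- Recursion along the circuit. -/
theorem exists_sol {M : Type} [Nonempty M] (Φ : C.V → (C.V → M) → M)
    (hΦ : ∀ v f g, (∀ u ∈ C.pre v, f u = g u) → Φ v f = Φ v g) : ∃ f : C.V → M, ∀ v, f v = Φ v f := by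
  have main : ∀ N : ℕ, ∃ f : C.V → M, ∀ v, C.rk v < N → f v = Φ v f := by
    intro N
    induction N with
    | zero => exact ⟨fun _ => Classical.arbitrary M, fun v hv => absurd hv (Nat.not_lt_zero _)⟩
    | succ N ih =>
      obtain ⟨f, hf⟩ := ih
      refine ⟨fun v => if C.rk v < N then f v else Φ v f, fun v hv => ?_⟩
      have hsame : Φ v (fun v => if C.rk v < N then f v else Φ v f) = Φ v f := by
        refine hΦ v _ _ fun u hu => ?_
        have := C.rk_pre hu
        show (if C.rk u < N then f u else Φ u f) = f u
        rw [if_pos (by omega)]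
      rw [hsame]
      by_cases h : C.rk v < N
      · simp only [h, if_true]
        exact hf v h
      · simp only [h, if_false]
  obtain ⟨f, hf⟩ := main (univ.sup C.rk + 1)
  exact ⟨f, fun v => hf v (Nat.lt_succ_of_le (le_sup (mem_univ v)))⟩

/-- Induction along the circuit. -/
theorem ind {P : C.V → Prop} (h : ∀ v, (∀ u ∈ C.pre v, P u) → P v) : ∀ v, P v := by
  have main : ∀ N : ℕ, ∀ v, C.rk v < N → P v := by
    intro N
    induction N with
    | zero => intro v hv; exact absurd hv (Nat.not_lt_zero _)
    | succ N ih =>
      intro v hv
      exact h v fun u hu => ih u (by have := C.rk_pre hu; omega)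
  intro v
  exact main _ v (Nat.lt_succ_self _)

theorem exists_count (T : Finset C.V) : ∃ f, C.IsCount T f := by
  refine C.exists_sol (fun v f => if v ∈ T then 0 else (if C.lab v = none then 0 else 1) +
    ∑ u ∈ C.pre v, f u) ?_
  intro v f g h
  rw [sum_congr rfl h]

end LinCircuit

end Pool.Agent.Helper76.LC
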