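import Pool.Agent.Helper76.LC.SymC

set_option autoImplicit false

/-!
# Fast Fourier transform circuits: normalised forms
-/

namespace Pool.Agent.Helper76.LC.FFT

open Finset

variable {F : Type} [Field F] {G : Type} [AddCommGroup G]

open Classical in
/-- a chosen point of a nonempty set, `0` for the whole group -/
noncomputable def pt (S : Set G) : G :=
  if S = Set.univ then 0 else if h : S.Nonempty then h.choose else 0

theorem pt_mem {S : Set G} (h : S.Nonempty) : pt S ∈ S := by
  unfold pt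
  by_cases h1 : S = Set.univ
  · rw [if_pos h1, h1]; exact Set.mem_univ _
  · rw [if_neg h1, dif_pos h]; exact h.choose_spec

theorem pt_univ : pt (Set.univ : Set G) = 0 := by
  unfold pt
  rw [if_pos rfl]

/-- normalisation: the value at the chosen point of the support becomes `1` -/
noncomputable def nrm (f : G → F) : G → F := fun g => (f (pt (Function.support f)))⁻¹ * f g

/-- translation -/
def tr (c : G) (f : G → F) : G → F := fun g => f (g - c)

theorem tr_apply (c : G) (f : G → F) (g : G) : tr c f g = f (g - c) := rfl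

theorem supp_smul {l : F} (hl : l ≠ 0) (f : G → F) :
    Function.support (fun g => l * f g) = Function.support f := by
  ext g
  simp [hl]

theorem val_pt {f : G → F} (hf : ∃ g, f g ≠ 0) : f (pt (Function.support f)) ≠ 0 :=
  pt_mem (S := Function.support f) hf

theorem nrm_smul {l : F} (hl : l ≠ 0) (f : G → F) : nrm (fun g => l * f g) = nrm f := by
  funext g
  unfold nrm
  rw [supp_smul hl]
  by_cases h : f (pt (Function.support f)) = 0
  · simp [h]
  · field_simp

theorem supp_nrm {f : G → F} (hf : ∃ g, f g ≠ 0) : Function.support (nrm f) = Function.support f :=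
  supp_smul (inv_ne_zero (val_pt hf)) f

theorem nrm_nrm {f : G → F} (hf : ∃ g, f g ≠ 0) : nrm (nrm f) = nrm f :=
  nrm_smul (inv_ne_zero (val_pt hf)) f

theorem one_of_nrm {f : G → F} (hf : ∃ g, f g ≠ 0) (h : nrm f = f) :
    f (pt (Function.support f)) = 1 := by
  have h1 := congrFun h (pt (Function.support f))
  unfold nrm at h1
  rw [inv_mul_cancel₀ (val_pt hf)] at h1
  exact h1.symm

/-- `f` is a nonzero multiple of a character on a coset of `K`, and zero outside -/
def IsL (K : AddSubgroup G) (f : G → F) : Prop :=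
  ∃ (x : G) (χ : AddChar G F) (l : F), l ≠ 0 ∧ (∀ g, g - x ∈ K → f g = l * χ g) ∧
    ∀ g, g - x ∉ K → f g = 0

theorem chi_ne (χ : AddChar G F) (c : G) : χ c ≠ 0 := by
  intro h
  have h1 : χ (c + -c) = χ c * χ (-c) := AddChar.map_add_eq_mul χ c (-c)
  rw [add_neg_cancel, AddChar.map_zero_eq_one, h, zero_mul] at h1
  exact one_ne_zero h1

namespace IsL

variable {K : AddSubgroup G} {f : G → F}

theorem nonempty (h : IsL K f) : ∃ g, f g ≠ 0 := by
  obtain ⟨x, χ, l, hl, h1, h2⟩ := h
  refine ⟨x, ?_⟩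
  rw [h1 x (by rw [sub_self]; exact K.zero_mem)]
  exact mul_ne_zero hl (chi_ne χ x)

theorem supp (h : IsL K f) {g g' : G} (hg : f g ≠ 0) : f g' ≠ 0 ↔ g' - g ∈ K := by
  obtain ⟨x, χ, l, hl, h1, h2⟩ := h
  have hgx : g - x ∈ K := by
    by_contra hc
    exact hg (h2 g hc)
  constructor
  · intro h3
    have hgx' : g' - x ∈ K := by
      by_contra hc
      exact h3 (h2 g' hc)
    have := K.sub_mem hgx' hgx
    rwa [sub_sub_sub_cancel_right] at this
  · intro h3
    have : g' - x ∈ K := by
      have := K.add_mem h3 hgx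
      rwa [sub_add_sub_cancel] at this
    rw [h1 g' this]
    exact mul_ne_zero hl (chi_ne χ g')

theorem smul (h : IsL K f) {a : F} (ha : a ≠ 0) : IsL K (fun g => a * f g) := by
  obtain ⟨x, χ, l, hl, h1, h2⟩ := h
  refine ⟨x, χ, a * l, mul_ne_zero ha hl, fun g hg => ?_, fun g hg => ?_⟩
  · simp only [h1 g hg, mul_assoc]
  · simp only [h2 g hg, mul_zero]

theorem nrm (h : IsL K f) : IsL K (FFT.nrm f) := h.smul (inv_ne_zero (val_pt h.nonempty))

theorem tr (h : IsL K f) (c : G) : IsL K (FFT.tr c f) := by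
  obtain ⟨x, χ, l, hl, h1, h2⟩ := h
  refine ⟨x + c, χ, l * χ (-c), mul_ne_zero hl (chi_ne χ _), fun g hg => ?_, fun g hg => ?_⟩
  · rw [tr_apply, h1 _ (by rwa [sub_sub, add_comm c x]), sub_eq_add_neg,
      AddChar.map_add_eq_mul]
    ring
  · rw [tr_apply, h2 _ (by rwa [sub_sub, add_comm c x])]

/-- the character on `K` -/
theorem mul_apply (h : IsL K f) {g : G} (hg : f g ≠ 0) : ∃ χ : AddChar G F, ∀ k ∈ K,
    f (g + k) = f g * χ k := by
  obtain ⟨x, χ, l, hl, h1, h2⟩ := h
  have hgx : g - x ∈ K := by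
    by_contra hc
    exact hg (h2 g hc)
  refine ⟨χ, fun k hk => ?_⟩
  rw [h1 g hgx, h1 (g + k) (by
    have := K.add_mem hgx hk
    rwa [sub_add_eq_add_sub] at this), AddChar.map_add_eq_mul]
  ring

theorem restrict {K' : AddSubgroup G} (h : IsL K' f) (hK : K ≤ K') {g : G} (hg : f g ≠ 0) :
    ∃ f₀ : G → F, IsL K f₀ ∧ f₀ g ≠ 0 ∧ ∀ g', f₀ g' ≠ 0 → f g' = f₀ g' := by
  classical
  obtain ⟨x, χ, l, hl, h1, h2⟩ := h
  have hgx : g - x ∈ K' := by
    by_contra hc
    exact hg (h2 g hc)
  refine ⟨fun g' => if g' - g ∈ K then l * χ g' else 0, ⟨g, χ, l, hl, fun g' h' => if_pos h',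
    fun g' h' => if_neg h'⟩, ?_, ?_⟩
  · simp only [sub_self, K.zero_mem, if_true]
    exact mul_ne_zero hl (chi_ne χ g)
  · intro g' hg'
    by_cases h3 : g' - g ∈ K
    · simp only [h3, if_true]
      refine h1 g' ?_
      have := K'.add_mem (hK h3) hgx
      rwa [sub_add_sub_cancel] at this
    · simp only [h3, if_false] at hg'
      exact absurd rfl hg'

end IsL

/-- `f` is the restriction of a multiple of `f'` -/
def Sub (f f' : G → F) : Prop := ∃ l : F, l ≠ 0 ∧ ∀ g, f g ≠ 0 → f' g = l * f g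

theorem Sub.move {f f' : G → F} (h : Sub f f') (c : G) {a b : F} (ha : a ≠ 0) (hb : b ≠ 0) :
    Sub (fun g => a * tr c f g) (fun g => b * tr c f' g) := by
  obtain ⟨l, hl, h1⟩ := h
  refine ⟨b * l / a, div_ne_zero (mul_ne_zero hb hl) ha, fun g hg => ?_⟩
  have hg' : f (g - c) ≠ 0 := (mul_ne_zero_iff.mp hg).2
  simp only [tr_apply, h1 _ hg']
  field_simp

theorem supp_tr (c : G) (f : G → F) (g : G) : g ∈ Function.support (tr c f) ↔ f (g - c) ≠ 0 := Iff.rfl

theorem tr_tr (c d : G) (f : G → F) : tr c (tr d f) = tr (d + c) f := by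
  funext g
  simp only [tr_apply]
  congr 1
  abel

theorem tr_zero (f : G → F) : tr 0 f = f := by
  funext g
  rw [tr_apply, sub_zero]

/-- the action of the translations on normalised forms -/
noncomputable def act (c : G) (f : G → F) : G → F := nrm (tr c f)

theorem act_act {f : G → F} (hf : ∃ g, f g ≠ 0) (hn : nrm f = f) (c : G) :
    act (-c) (act c f) = f := by
  have h1 : ∃ g, tr c f g ≠ 0 := by
    obtain ⟨g, hg⟩ := hf
    exact ⟨g + c, by rwa [tr_apply, add_sub_cancel_right]⟩
  unfold act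
  have h2 : tr (-c) (nrm (tr c f)) = fun g => (tr c f (pt (Function.support (tr c f))))⁻¹ * f g := by
    funext g
    rw [tr_apply]
    unfold nrm
    congr 1
    rw [tr_apply]
    congr 1
    abel
  rw [h2, nrm_smul (inv_ne_zero (val_pt h1)), hn]

end Pool.Agent.Helper76.LC.FFT
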