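import Pool.Agent.Helper76.LC.FftA

set_option autoImplicit false

/-!
# Fast Fourier transform circuits: the circuit
-/

namespace Pool.Agent.Helper76.LC.FFT

open Finset

variable {F : Type} [Field F] {G : Type} [AddCommGroup G]

theorem finite_addChar (H : Type) [AddCommGroup H] [Finite H] : Finite (AddChar H F) := by
  have h1 := (linearIndependent_monoidHom (Multiplicative H) F).comp
    (fun ψ : AddChar H F => ψ.toMonoidHom) (by
      intro a b hab
      apply AddChar.ext
      intro x
      exact DFunLike.congr_fun hab (Multiplicative.ofAdd x))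
  exact h1.finite

theorem card_addChar (H : Type) [AddCommGroup H] [Finite H] :
    Nat.card (AddChar H F) ≤ Nat.card H := by
  have := finite_addChar (F := F) H
  have : Fintype (AddChar H F) := Fintype.ofFinite _
  have : Fintype H := Fintype.ofFinite _
  have h := card_chars (F := F) (⊥ : AddSubgroup H) univ (by
    intro ψ _ ψ' _ c hc
    rw [AddSubgroup.mem_bot] at hc
    subst hc
    rw [AddChar.map_zero_eq_one, AddChar.map_zero_eq_one])
  rw [card_univ, AddSubgroup.card_bot, mul_one] at h
  rwa [Nat.card_eq_fintype_card, Nat.card_eq_fintype_card]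

/-- normalised forms of type `K` -/
abbrev NF (F : Type) [Field F] {G : Type} [AddCommGroup G] (K : AddSubgroup G) : Type :=
  {f : G → F // IsL K f ∧ nrm f = f}

theorem exists_inj (K : AddSubgroup G) :
    ∃ Θ : NF F K → (G ⧸ K) × AddChar K F, Function.Injective Θ := by
  choose χ hχ using fun f : NF F K => f.2.1.mul_apply (val_pt f.2.1.nonempty)
  refine ⟨fun f => (QuotientAddGroup.mk (pt (Function.support f.1)),
    (χ f).compAddMonoidHom K.subtype), ?_⟩
  intro f f' h
  rw [Prod.ext_iff] at h
  obtain ⟨h1, h2⟩ := h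
  simp only at h1 h2
  have hs : Function.support f.1 = Function.support f'.1 := by
    have e := QuotientAddGroup.eq.mp h1
    ext g
    rw [Function.mem_support, Function.mem_support, f.2.1.supp (val_pt f.2.1.nonempty),
      f'.2.1.supp (val_pt f'.2.1.nonempty)]
    constructor
    · intro h3
      have := K.sub_mem h3 e
      have e2 : g - pt (Function.support f.1) - (-pt (Function.support f.1) +
        pt (Function.support f'.1)) = g - pt (Function.support f'.1) := by abel
      rwa [e2] at this
    · intro h3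
      have := K.add_mem h3 e
      have e2 : g - pt (Function.support f'.1) + (-pt (Function.support f.1) +
        pt (Function.support f'.1)) = g - pt (Function.support f.1) := by abel
      rwa [e2] at this
  apply Subtype.ext
  funext g
  by_cases hg : f.1 g = 0
  · have : f'.1 g = 0 := by
      have h3 : g ∉ Function.support f.1 := fun h => h hg
      rw [hs] at h3
      exact not_not.mp h3
    rw [hg, this]
  · have hk := (f.2.1.supp (val_pt f.2.1.nonempty) (g' := g)).mp hg
    have e1 := hχ f _ hk
    have e2 := hχ f' (g - pt (Function.support f.1)) hk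
    rw [one_of_nrm f.2.1.nonempty f.2.2, one_mul, add_sub_cancel] at e1
    rw [one_of_nrm f'.2.1.nonempty f'.2.2, one_mul, ← hs, add_sub_cancel] at e2
    rw [e1, e2]
    exact DFunLike.congr_fun h2 (⟨_, hk⟩ : K)

theorem finite_NF [Finite G] (K : AddSubgroup G) : Finite (NF F K) := by
  obtain ⟨Θ, hΘ⟩ := exists_inj (F := F) K
  have := finite_addChar (F := F) K
  exact Finite.of_injective Θ hΘ

theorem card_NF [Finite G] (K : AddSubgroup G) : Nat.card (NF F K) ≤ Nat.card G := by
  obtain ⟨Θ, hΘ⟩ := exists_inj (F := F) K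
  have := finite_addChar (F := F) K
  refine (Nat.card_le_card_of_injective Θ hΘ).trans ?_
  rw [Nat.card_prod, AddSubgroup.card_eq_card_quotient_mul_card_addSubgroup K]
  exact Nat.mul_le_mul_left _ (card_addChar _)

theorem uniq {K : AddSubgroup G} {f f' fv : G → F} (hf : IsL K f) (hf' : IsL K f')
    (hn : nrm f = f) (hn' : nrm f' = f') (hs : Sub f fv) (hs' : Sub f' fv) {g : G}
    (hg : f g ≠ 0) (hg' : f' g ≠ 0) : f = f' := by
  have hsupp : Function.support f = Function.support f' := by
    ext x
    rw [Function.mem_support, Function.mem_support, hf.supp hg, hf'.supp hg']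
  have h1 := one_of_nrm hf.nonempty hn
  have h2 := one_of_nrm hf'.nonempty hn'
  obtain ⟨l, hl, h3⟩ := hs
  obtain ⟨l', hl', h4⟩ := hs'
  have e1 := h3 _ (val_pt hf.nonempty)
  have e2 := h4 _ (val_pt hf'.nonempty)
  rw [h1, mul_one] at e1
  rw [h2, mul_one, ← hsupp, e1] at e2
  funext x
  by_cases hx : f x = 0
  · have : x ∉ Function.support f := fun h => h hx
    rw [hsupp] at this
    rw [hx, not_not.mp this]
  · have hx' : f' x ≠ 0 := by
      have : x ∈ Function.support f := hx
      rwa [hsupp] at this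
    have e3 := h3 x hx
    have e4 := h4 x hx'
    rw [e3, e2] at e4
    exact mul_left_cancel₀ hl' e4

theorem exists_pre {K K' : AddSubgroup G} (hK : K ≤ K') {fv : G → F} (hv : IsL K' fv) {g : G}
    (hg : fv g ≠ 0) : ∃ f, (IsL K f ∧ nrm f = f) ∧ Sub f fv ∧ f g ≠ 0 := by
  obtain ⟨f₀, h1, h2, h3⟩ := hv.restrict hK hg
  have ha := val_pt h1.nonempty
  refine ⟨nrm f₀, ⟨h1.nrm, nrm_nrm h1.nonempty⟩, ⟨f₀ (pt (Function.support f₀)), ha, ?_⟩, ?_⟩
  · intro g' hg'
    have h4 : f₀ g' ≠ 0 := (mul_ne_zero_iff.mp hg').2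
    rw [h3 g' h4]
    unfold nrm
    rw [mul_inv_cancel_left₀ ha]
  · exact mul_ne_zero (inv_ne_zero ha) h2

/-- a chain of subgroups of `G` from `⊥` to `⊤` -/
structure Chain (G : Type) [AddCommGroup G] where
  t : ℕ
  H : ℕ → AddSubgroup G
  bot : H 0 = ⊥
  top : H t = ⊤
  mono : ∀ i, i < t → H i ≤ H (i + 1)

variable [Finite G] (𝓗 : Chain G)

/-- the nodes: normalised forms with their level -/
abbrev Node (F : Type) [Field F] {G : Type} [AddCommGroup G] (𝓗 : Chain G) : Type :=
  {p : Fin (𝓗.t + 1) × (G → F) // IsL (𝓗.H p.1) p.2 ∧ nrm p.2 = p.2}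

theorem finite_node : Finite (Node F 𝓗) := by
  have : ∀ i : Fin (𝓗.t + 1), Finite (NF F (𝓗.H i)) := fun i => finite_NF _
  refine Finite.of_injective (β := Σ i : Fin (𝓗.t + 1), NF F (𝓗.H i))
    (fun p => ⟨p.1.1, ⟨p.1.2, p.2⟩⟩) ?_
  rintro ⟨⟨i, f⟩, hp⟩ ⟨⟨i', f'⟩, hp'⟩ h
  simp only [Sigma.mk.injEq] at h
  obtain ⟨rfl, h2⟩ := h
  have h3 := Subtype.ext_iff.mp (eq_of_heq h2)
  simp only at h3
  subst h3
  rfl

theorem isL_char (χ : AddChar G F) : IsL (⊤ : AddSubgroup G) χ ∧ nrm (χ : G → F) = χ := by
  refine ⟨⟨0, χ, 1, one_ne_zero, fun g _ => (one_mul _).symm,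
    fun g hg => absurd (AddSubgroup.mem_top _) hg⟩, ?_⟩
  have : Function.support (χ : G → F) = Set.univ := by
    ext g
    simp only [Function.mem_support, Set.mem_univ, iff_true]
    exact chi_ne χ g
  funext g
  unfold nrm
  rw [this, pt_univ, AddChar.map_zero_eq_one, inv_one, one_mul]

open Classical in
/-- the fast Fourier transform circuit of a chain of subgroups -/
noncomputable def circ {n : ℕ} (e : Fin n ≃ G) (χ : Fin n → AddChar G F) : LinCircuit F n where
  V := Node F 𝓗
  fin := @Fintype.ofFinite _ (finite_node 𝓗)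
  dec := Classical.decEq _
  E := letI := @Fintype.ofFinite _ (finite_node (F := F) 𝓗)
    univ.filter fun p : Node F 𝓗 × Node F 𝓗 =>
      p.2.1.1.val = p.1.1.1.val + 1 ∧ Sub p.1.1.2 p.2.1.2
  rk v := v.1.1.val
  acyclic := by
    intro u v h
    have := (mem_filter.mp h).2.1
    simp only at this
    omega
  lab v := if v.1.1.val = 0 then some (e.symm (pt (Function.support v.1.2))) else none
  source := by
    intro u v h
    have := (mem_filter.mp h).2.1
    simp only at this
    rw [if_neg (by omega)]
  wt u v := v.1.2 (pt (Function.support u.1.2))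
  out i := ⟨(Fin.last 𝓗.t, χ i), by
    simp only [Fin.val_last, 𝓗.top]
    exact isL_char (χ i)⟩

end Pool.Agent.Helper76.LC.FFT
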