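import Pool.Agent.Helper76.LC.FftB

set_option autoImplicit false

/-!
# Fast Fourier transform circuits: correctness, symmetry and the number of edges
-/

namespace Pool.Agent.Helper76.LC.FFT

open Finset

variable {F : Type} [Field F] {G : Type} [AddCommGroup G] [Finite G] (𝓗 : Chain G)
  {n : ℕ} (e : Fin n ≃ G) (χ : Fin n → AddChar G F)

theorem mem_E {u v : Node F 𝓗} : (u, v) ∈ (circ 𝓗 e χ).E ↔
    v.1.1.val = u.1.1.val + 1 ∧ Sub u.1.2 v.1.2 := by
  unfold circ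
  simp

theorem lab_eq (v : Node F 𝓗) : (circ 𝓗 e χ).lab v =
    if v.1.1.val = 0 then some (e.symm (pt (Function.support v.1.2))) else none := rfl

theorem wt_eq (u v : Node F 𝓗) : (circ 𝓗 e χ).wt u v = v.1.2 (pt (Function.support u.1.2)) := rfl

/-- the values of the circuit -/
def vals (e : Fin n ≃ G) (v : Node F 𝓗) : Fin n → F := fun j => v.1.2 (e j)

open Classical in
theorem level_zero (v : Node F 𝓗) (h : v.1.1.val = 0) (g : G) :
    v.1.2 g = if g = pt (Function.support v.1.2) then 1 else 0 := by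
  have h1 := v.2.1
  have h0 : 𝓗.H v.1.1 = ⊥ := by rw [h]; exact 𝓗.bot
  rw [h0] at h1
  split_ifs with hg
  · rw [hg]
    exact one_of_nrm h1.nonempty v.2.2
  · by_contra hne
    have h2 := (h1.supp (val_pt h1.nonempty)).mp hne
    rw [AddSubgroup.mem_bot, sub_eq_zero] at h2
    exact hg h2

theorem isVal : (circ 𝓗 e χ).IsVal (vals 𝓗 e) := by
  classical
  intro v
  have hlab := lab_eq 𝓗 e χ v
  by_cases h : (v : Node F 𝓗).1.1.val = 0
  · rw [if_pos h] at hlab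
    rw [hlab]
    funext j
    refine (level_zero 𝓗 v h (e j)).trans ?_
    show _ = (Pi.single (e.symm (pt (Function.support (v : Node F 𝓗).1.2))) 1 : Fin n → F) j
    generalize pt (Function.support (v : Node F 𝓗).1.2) = x
    by_cases hj : j = e.symm x
    · subst hj
      simp
    · rw [Pi.single_eq_of_ne hj, if_neg]
      intro h2
      exact hj (by rw [← h2, Equiv.symm_apply_apply])
  · rw [if_neg h] at hlab
    rw [hlab]
    funext j
    show v.1.2 (e j) = (∑ u ∈ (circ 𝓗 e χ).pre v, (circ 𝓗 e χ).wt u v • vals 𝓗 e u) j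
    rw [Finset.sum_apply]
    by_cases hg : v.1.2 (e j) = 0
    · rw [hg]
      symm
      refine sum_eq_zero fun u hu => ?_
      obtain ⟨_, l, hl, h2⟩ := (mem_E 𝓗 e χ).mp ((circ 𝓗 e χ).mem_pre.mp hu)
      rw [Pi.smul_apply, smul_eq_mul]
      show _ * u.1.2 (e j) = 0
      by_contra hne
      have hne' := (mul_ne_zero_iff.mp hne).2
      have h3 := h2 _ hne'
      rw [hg] at h3
      exact mul_ne_zero hl hne' h3.symm
    · have hlt : v.1.1.val - 1 < 𝓗.t + 1 := by omega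
      have hK : 𝓗.H (v.1.1.val - 1) ≤ 𝓗.H v.1.1 := by
        have := 𝓗.mono (v.1.1.val - 1) (by have := v.1.1.2; omega)
        rwa [show v.1.1.val - 1 + 1 = v.1.1.val by omega] at this
      obtain ⟨f, hf, hs, hfg⟩ := exists_pre hK v.2.1 hg
      let u₀ : (circ 𝓗 e χ).V := (⟨(⟨v.1.1.val - 1, hlt⟩, f), hf⟩ : Node F 𝓗)
      have hu₀ : u₀ ∈ (circ 𝓗 e χ).pre v := by
        refine (circ 𝓗 e χ).mem_pre.mpr ((mem_E 𝓗 e χ).mpr ?_)
        exact ⟨by show v.1.1.val = v.1.1.val - 1 + 1; omega, hs⟩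
      refine Eq.trans ?_ (sum_eq_single_of_mem u₀ hu₀ ?_).symm
      · rw [Pi.smul_apply, smul_eq_mul]
        show v.1.2 (e j) = v.1.2 (pt (Function.support f)) * f (e j)
        obtain ⟨l, hl, h2⟩ := hs
        rw [h2 _ hfg, h2 _ (val_pt hf.1.nonempty), one_of_nrm hf.1.nonempty hf.2, mul_one]
      · intro u hu hne
        rw [Pi.smul_apply, smul_eq_mul]
        show _ * u.1.2 (e j) = 0
        by_contra hne2
        have hne' := (mul_ne_zero_iff.mp hne2).2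
        obtain ⟨h3, h4⟩ := (mem_E 𝓗 e χ).mp ((circ 𝓗 e χ).mem_pre.mp hu)
        have h5 : u.1.1.val = v.1.1.val - 1 := by omega
        have h6 := u.2.1
        rw [h5] at h6
        have h7 := uniq h6 hf.1 u.2.2 hf.2 h4 hs hne' hfg
        apply hne
        apply Subtype.ext
        exact Prod.ext (Fin.ext h5) h7

theorem computes : (circ 𝓗 e χ).Computes (Matrix.of fun i j => χ i (e j)) :=
  ⟨vals 𝓗 e, isVal 𝓗 e χ, fun _ => rfl⟩

/-! ## the number of edges -/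

theorem card_pre (v : Node F 𝓗) (_h : v.1.1.val ≠ 0) :
    ((circ 𝓗 e χ).pre v).card * Nat.card (𝓗.H (v.1.1.val - 1)) ≤ Nat.card (𝓗.H v.1.1) := by
  classical
  have : Fintype G := Fintype.ofFinite G
  let P := (circ 𝓗 e χ).pre v
  have hlev : ∀ u ∈ P, u.1.1.val = v.1.1.val - 1 := by
    intro u hu
    have := ((mem_E 𝓗 e χ).mp ((circ 𝓗 e χ).mem_pre.mp hu)).1
    omega
  have hsub : ∀ u ∈ P, Sub u.1.2 v.1.2 := fun u hu =>
    ((mem_E 𝓗 e χ).mp ((circ 𝓗 e χ).mem_pre.mp hu)).2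
  have hL : ∀ u ∈ P, IsL (𝓗.H (v.1.1.val - 1)) u.1.2 := by
    intro u hu
    have := u.2.1
    rwa [hlev u hu] at this
  have hne : ∀ u ∈ P, ∀ k ∈ 𝓗.H (v.1.1.val - 1),
      u.1.2 (pt (Function.support u.1.2) + k) ≠ 0 := by
    intro u hu k hk
    rw [(hL u hu).supp (val_pt (hL u hu).nonempty), add_sub_cancel_left]
    exact hk
  have hmem : ∀ u ∈ P, ∀ k ∈ 𝓗.H (v.1.1.val - 1),
      pt (Function.support u.1.2) + k - pt (Function.support v.1.2) ∈ 𝓗.H v.1.1 := by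
    intro u hu k hk
    rw [← v.2.1.supp (val_pt v.2.1.nonempty)]
    obtain ⟨l, hl, h2⟩ := hsub u hu
    rw [h2 _ (hne u hu k hk)]
    exact mul_ne_zero hl (hne u hu k hk)
  have hcard : P.card * Nat.card (𝓗.H (v.1.1.val - 1)) =
      Nat.card (P × 𝓗.H (v.1.1.val - 1)) := by
    rw [Nat.card_prod, Nat.card_eq_fintype_card (α := P), Fintype.card_coe]
  rw [show ((circ 𝓗 e χ).pre v).card = P.card from rfl, hcard]
  refine Nat.card_le_card_of_injective (fun p : P × 𝓗.H (v.1.1.val - 1) =>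
    (⟨_, hmem p.1.1 p.1.2 p.2.1 p.2.2⟩ : 𝓗.H v.1.1)) ?_
  rintro ⟨⟨u, hu⟩, ⟨k, hk⟩⟩ ⟨⟨u', hu'⟩, ⟨k', hk'⟩⟩ heq
  have h1 := congrArg Subtype.val heq
  simp only [sub_left_inj] at h1
  have h2 := hne u hu k hk
  have h3 := hne u' hu' k' hk'
  rw [← h1] at h3
  have h4 := uniq (hL u hu) (hL u' hu') u.2.2 u'.2.2 (hsub u hu) (hsub u' hu') h2 h3
  have h5 : u = u' := Subtype.ext (Prod.ext (Fin.ext ((hlev u hu).trans (hlev u' hu').symm)) h4)
  subst h5
  have h6 : k = k' := by simpa using h1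
  subst h6
  rfl

theorem sum_levels (w : (circ 𝓗 e χ).V → ℕ) (q : ℕ → ℕ)
    (h0 : ∀ v : (circ 𝓗 e χ).V, (v : Node F 𝓗).1.1.val = 0 → w v = 0)
    (hq : ∀ v : (circ 𝓗 e χ).V, ∀ i, i < 𝓗.t → (v : Node F 𝓗).1.1.val = i + 1 → w v ≤ q i) :
    ∑ v, w v ≤ n * ∑ i ∈ range 𝓗.t, q i := by
  classical
  let C := circ 𝓗 e χ
  have h2 : ∀ v : C.V, w v ≤
      ∑ i ∈ range 𝓗.t, if (v : Node F 𝓗).1.1.val = i + 1 then q i else 0 := by
    intro v
    by_cases h : (v : Node F 𝓗).1.1.val = 0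
    · rw [h0 v h]; exact Nat.zero_le _
    · have hlt : (v : Node F 𝓗).1.1.val - 1 < 𝓗.t := by
        have := (v : Node F 𝓗).1.1.2; omega
      have h5 := hq v _ hlt (by omega)
      refine h5.trans ?_
      have h6 := single_le_sum (f := fun i => if (v : Node F 𝓗).1.1.val = i + 1 then q i else 0)
        (fun _ _ => Nat.zero_le _) (mem_range.mpr hlt)
      refine le_trans ?_ h6
      rw [if_pos (by omega)]
  have h7 : ∀ i ∈ range 𝓗.t, ∑ v : C.V, (if (v : Node F 𝓗).1.1.val = i + 1 then q i else 0) ≤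
      n * q i := by
    intro i hi
    rw [← sum_filter, sum_const, smul_eq_mul]
    refine Nat.mul_le_mul_right _ ?_
    have hfin : Finite (NF F (𝓗.H (i + 1))) := finite_NF _
    have hn : Nat.card G = n := by
      rw [← Nat.card_congr e, Nat.card_eq_fintype_card, Fintype.card_fin]
    refine le_trans ?_ ((card_NF (F := F) (𝓗.H (i + 1))).trans hn.le)
    rw [← Fintype.card_coe, ← Nat.card_eq_fintype_card]
    refine Nat.card_le_card_of_injective (fun v => (⟨(v.1 : Node F 𝓗).1.2, by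
      have h8 := (mem_filter.mp v.2).2
      have h9 := (v.1 : Node F 𝓗).2
      rwa [h8] at h9⟩ : NF F (𝓗.H (i + 1)))) ?_
    rintro ⟨v, hv⟩ ⟨v', hv'⟩ heq
    have h8 := (mem_filter.mp hv).2
    have h8' := (mem_filter.mp hv').2
    apply Subtype.ext
    apply Subtype.ext
    exact Prod.ext (Fin.ext (h8.trans h8'.symm)) (congrArg Subtype.val heq)
  calc ∑ v, w v ≤ ∑ v : C.V, ∑ i ∈ range 𝓗.t,
        (if (v : Node F 𝓗).1.1.val = i + 1 then q i else 0) :=
        sum_le_sum fun v _ => h2 v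
    _ = ∑ i ∈ range 𝓗.t, ∑ v : C.V, (if (v : Node F 𝓗).1.1.val = i + 1 then q i else 0) :=
        sum_comm
    _ ≤ ∑ i ∈ range 𝓗.t, n * q i := sum_le_sum h7
    _ = _ := by rw [mul_sum]

theorem pre_zero (v : (circ 𝓗 e χ).V) (h : (v : Node F 𝓗).1.1.val = 0) :
    (circ 𝓗 e χ).pre v = ∅ := by
  rw [eq_empty_iff_forall_notMem]
  intro u hu
  have := ((mem_E 𝓗 e χ).mp ((circ 𝓗 e χ).mem_pre.mp hu)).1
  omega

theorem card_pre_le (p : ℕ → ℕ)
    (hp : ∀ i, i < 𝓗.t → Nat.card (𝓗.H (i + 1)) = p i * Nat.card (𝓗.H i))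
    (v : (circ 𝓗 e χ).V) (i : ℕ) (hi : i < 𝓗.t) (h : (v : Node F 𝓗).1.1.val = i + 1) :
    ((circ 𝓗 e χ).pre v).card ≤ p i := by
  have h3 := card_pre 𝓗 e χ v (by omega)
  rw [h, Nat.add_sub_cancel, hp i hi] at h3
  exact Nat.le_of_mul_le_mul_right h3 Nat.card_pos

theorem card_E (p : ℕ → ℕ) (hp : ∀ i, i < 𝓗.t → Nat.card (𝓗.H (i + 1)) = p i * Nat.card (𝓗.H i)) :
    (circ 𝓗 e χ).E.card ≤ n * ∑ i ∈ range 𝓗.t, p i := by
  classical
  let C := circ 𝓗 e χ
  have h1 : C.E.card = ∑ v : C.V, (C.pre v).card := by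
    rw [card_eq_sum_card_fiberwise (f := Prod.snd) (t := univ) (fun _ _ => mem_univ _)]
    refine sum_congr rfl fun v _ => ?_
    refine card_bij (fun q _ => q.1) ?_ ?_ ?_
    · rintro ⟨a, b⟩ hq
      obtain ⟨hq1, hq2⟩ := mem_filter.mp hq
      rw [C.mem_pre]
      simp only at hq2 ⊢
      rw [← hq2]; exact hq1
    · rintro ⟨a, b⟩ hq ⟨a', b'⟩ hq' haa
      have hb := (mem_filter.mp hq).2
      have hb' := (mem_filter.mp hq').2
      simp only at haa hb hb'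
      rw [haa, hb, hb']
    · intro u hu
      exact ⟨(u, v), mem_filter.mpr ⟨C.mem_pre.mp hu, rfl⟩, rfl⟩
  refine h1.le.trans (sum_levels 𝓗 e χ _ p (fun v h => ?_)
    (fun v i hi h => card_pre_le 𝓗 e χ p hp v i hi h))
  show ((circ 𝓗 e χ).pre v).card = 0
  rw [pre_zero 𝓗 e χ v h, card_empty]

theorem card_adds (p : ℕ → ℕ)
    (hp : ∀ i, i < 𝓗.t → Nat.card (𝓗.H (i + 1)) = p i * Nat.card (𝓗.H i)) :
    (circ 𝓗 e χ).adds ≤ n * ∑ i ∈ range 𝓗.t, (p i - 1) := by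
  refine sum_levels 𝓗 e χ _ (fun i => p i - 1) (fun v h => ?_) (fun v i hi h => ?_)
  · rw [pre_zero 𝓗 e χ v h, card_empty]
  · have := card_pre_le 𝓗 e χ p hp v i hi h
    omega

end Pool.Agent.Helper76.LC.FFT
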