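import Pool.Agent.Helper76.LC.FftC

set_option autoImplicit false

/-!
# Fast Fourier transform circuits: chains of subgroups and the symmetry
-/

namespace Pool.Agent.Helper76.LC.FFT

open Finset

variable {F : Type} [Field F] {G : Type} [AddCommGroup G] [Finite G]

theorem exists_step (K : AddSubgroup G) (hK : K ≠ ⊤) : ∃ (p : ℕ) (K' : AddSubgroup G), p.Prime ∧
    K ≤ K' ∧ Nat.card K' = p * Nat.card K ∧ K.index = p * K'.index := by
  classical
  have hidx : K.index ≠ 1 := fun h => hK (AddSubgroup.index_eq_one.mp h)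
  obtain ⟨p, hp, hdvd⟩ := Nat.exists_prime_and_dvd hidx
  have : Fact p.Prime := ⟨hp⟩
  have hcard : Nat.card (G ⧸ K) = K.index := rfl
  obtain ⟨q, hq⟩ := exists_prime_addOrderOf_dvd_card' (G := G ⧸ K) p (by rwa [hcard])
  let Z := AddSubgroup.zmultiples q
  have hZ : Nat.card Z = p := by rw [Nat.card_zmultiples, hq]
  let K' := Z.comap (QuotientAddGroup.mk' K)
  have hle : K ≤ K' := by
    intro x hx
    rw [AddSubgroup.mem_comap]
    have : QuotientAddGroup.mk' K x = 0 := by
      rw [QuotientAddGroup.mk'_apply, QuotientAddGroup.eq_zero_iff]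
      exact hx
    rw [this]
    exact Z.zero_mem
  have hidx' : K'.index = Z.index :=
    AddSubgroup.index_comap_of_surjective Z (QuotientAddGroup.mk'_surjective K)
  have h1 : p * K'.index = K.index := by
    rw [hidx', ← hZ, AddSubgroup.card_mul_index, hcard]
  have h2 : Nat.card K' * K'.index = Nat.card G := AddSubgroup.card_mul_index K'
  have h3 : Nat.card K * K.index = Nat.card G := AddSubgroup.card_mul_index K
  have hpos : 0 < K'.index := Nat.pos_of_ne_zero AddSubgroup.index_ne_zero_of_finite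
  refine ⟨p, K', hp, hle, ?_, h1.symm⟩
  have h4 : Nat.card K' * K'.index = p * Nat.card K * K'.index := by
    rw [h2, ← h3, ← h1]; ring
  exact Nat.eq_of_mul_eq_mul_right hpos h4

theorem exists_chain_above : ∀ (N : ℕ) (K : AddSubgroup G), K.index = N →
    ∃ (t : ℕ) (H : ℕ → AddSubgroup G) (p : ℕ → ℕ), H 0 = K ∧ H t = ⊤ ∧
      (∀ i, i < t → H i ≤ H (i + 1) ∧ Nat.card (H (i + 1)) = p i * Nat.card (H i) ∧
        (p i).Prime) ∧
      ∑ i ∈ range t, p i = sopfr K.index := by
  intro N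
  induction N using Nat.strong_induction_on with
  | _ N ih =>
    intro K hN
    by_cases hK : K = ⊤
    · refine ⟨0, fun _ => ⊤, fun _ => 0, hK.symm, rfl, fun i hi => absurd hi (Nat.not_lt_zero _), ?_⟩
      rw [hK, AddSubgroup.index_top, sopfr_one]
      simp
    · obtain ⟨p, K', hp, hle, hcard, hidx⟩ := exists_step K hK
      have hpos : 0 < K'.index := Nat.pos_of_ne_zero AddSubgroup.index_ne_zero_of_finite
      have hlt : K'.index < N := by
        rw [← hN, hidx]
        nlinarith [hp.two_le]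
      obtain ⟨t, H, q, h0, ht, hs, hsum⟩ := ih _ hlt K' rfl
      refine ⟨t + 1, fun i => Nat.casesOn i K H, fun i => Nat.casesOn i p q, rfl, ht, ?_, ?_⟩
      · intro i hi
        cases i with
        | zero =>
          show K ≤ H 0 ∧ Nat.card (H 0) = p * Nat.card K ∧ p.Prime
          rw [h0]
          exact ⟨hle, hcard, hp⟩
        | succ i => exact hs i (by omega)
      · rw [sum_range_succ']
        show ∑ i ∈ range t, q i + p = _
        rw [hsum, hidx, sopfr_mul hp.ne_zero hpos.ne', sopfr_prime hp, add_comm]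

theorem exists_chain : ∃ (𝓗 : Chain G) (p : ℕ → ℕ),
    (∀ i, i < 𝓗.t → Nat.card (𝓗.H (i + 1)) = p i * Nat.card (𝓗.H i)) ∧
      (∀ i, i < 𝓗.t → (p i).Prime) ∧ ∑ i ∈ range 𝓗.t, p i = sopfr (Nat.card G) := by
  obtain ⟨t, H, p, h0, ht, hs, hsum⟩ := exists_chain_above _ (⊥ : AddSubgroup G) rfl
  refine ⟨⟨t, H, h0, ht, fun i hi => (hs i hi).1⟩, p, fun i hi => (hs i hi).2.1,
    fun i hi => (hs i hi).2.2, ?_⟩
  rw [AddSubgroup.index_bot] at hsum
  exact hsum

/-- the translations of the inputs -/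
def tau {n : ℕ} (e : Fin n ≃ G) (c : G) : Equiv.Perm (Fin n) :=
  (e.trans (Equiv.addLeft c)).trans e.symm

variable (𝓗 : Chain G) {n : ℕ} (e : Fin n ≃ G) (χ : Fin n → AddChar G F)

theorem tr_ne {f : G → F} (hf : ∃ g, f g ≠ 0) (c : G) : ∃ g, tr c f g ≠ 0 := by
  obtain ⟨g, hg⟩ := hf
  exact ⟨g + c, by rwa [tr_apply, add_sub_cancel_right]⟩

theorem act_eq (c : G) (f : G → F) (g : G) :
    act c f g = (tr c f (pt (Function.support (tr c f))))⁻¹ * f (g - c) := rfl

/-- the action on the nodes -/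
noncomputable def actN (c : G) (v : Node F 𝓗) : Node F 𝓗 :=
  ⟨(v.1.1, act c v.1.2), (v.2.1.tr c).nrm, nrm_nrm (tr_ne v.2.1.nonempty c)⟩

theorem actN_actN (c : G) (v : Node F 𝓗) : actN 𝓗 (-c) (actN 𝓗 c v) = v :=
  Subtype.ext (Prod.ext rfl (act_act v.2.1.nonempty v.2.2 c))

/-- the automorphism of the circuit -/
noncomputable def aut (c : G) : Equiv.Perm (Node F 𝓗) where
  toFun := actN 𝓗 c
  invFun := actN 𝓗 (-c)
  left_inv := actN_actN 𝓗 c
  right_inv v := by
    have := actN_actN 𝓗 (-c) v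
    rwa [neg_neg] at this

theorem sub_act {f f' : G → F} (hf : ∃ g, f g ≠ 0) (hf' : ∃ g, f' g ≠ 0) (h : Sub f f') (c : G) :
    Sub (act c f) (act c f') :=
  h.move c (inv_ne_zero (val_pt (tr_ne hf c))) (inv_ne_zero (val_pt (tr_ne hf' c)))

theorem symm : (circ 𝓗 e χ).Symm (tau e) := by
  classical
  intro c
  refine ⟨aut 𝓗 c, fun v : Node F 𝓗 =>
    (tr c v.1.2 (pt (Function.support (tr c v.1.2))))⁻¹, ?_, ?_, ?_, ?_, ?_⟩
  · exact fun v : Node F 𝓗 => inv_ne_zero (val_pt (tr_ne v.2.1.nonempty c))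
  · intro u v
    refine (mem_E 𝓗 e χ).trans (Iff.trans ?_ (mem_E 𝓗 e χ).symm)
    refine and_congr Iff.rfl ⟨fun h => ?_, fun h => ?_⟩
    · have h1 := sub_act (actN 𝓗 c u).2.1.nonempty (actN 𝓗 c v).2.1.nonempty h (-c)
      have h2 : act (-c) (act c (u : Node F 𝓗).1.2) = (u : Node F 𝓗).1.2 :=
        act_act (u : Node F 𝓗).2.1.nonempty (u : Node F 𝓗).2.2 c
      have h3 : act (-c) (act c (v : Node F 𝓗).1.2) = (v : Node F 𝓗).1.2 :=
        act_act (v : Node F 𝓗).2.1.nonempty (v : Node F 𝓗).2.2 c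
      have h4 : Sub (act (-c) (act c (u : Node F 𝓗).1.2))
        (act (-c) (act c (v : Node F 𝓗).1.2)) := h1
      rwa [h2, h3] at h4
    · exact sub_act (u : Node F 𝓗).2.1.nonempty (v : Node F 𝓗).2.1.nonempty h c
  · intro u v huv
    obtain ⟨_, l, hl, h⟩ := (mem_E 𝓗 e χ).mp huv
    obtain ⟨⟨iu, fu⟩, hu, hun⟩ := u
    obtain ⟨⟨iv, fv⟩, hv, hvn⟩ := v
    simp only at h hu hun hv hvn
    show act c fv (pt (Function.support (act c fu))) *
      (tr c fu (pt (Function.support (tr c fu))))⁻¹ =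
      (tr c fv (pt (Function.support (tr c fv))))⁻¹ * fv (pt (Function.support fu))
    have hsupp : Function.support (act c fu) = Function.support (tr c fu) :=
      supp_nrm (tr_ne hu.nonempty c)
    have hne : tr c fu (pt (Function.support (tr c fu))) ≠ 0 := val_pt (tr_ne hu.nonempty c)
    rw [hsupp, act_eq, h _ (val_pt hu.nonempty), one_of_nrm hu.nonempty hun, mul_one]
    generalize pt (Function.support (tr c fu)) = x at hne ⊢
    rw [tr_apply] at hne
    rw [h _ hne, tr_apply c fu x]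
    field_simp
  · intro v
    show (circ 𝓗 e χ).lab (actN 𝓗 c v) = _
    rw [lab_eq 𝓗 e χ, show (circ 𝓗 e χ).lab v = _ from lab_eq 𝓗 e χ v]
    by_cases h : (v : Node F 𝓗).1.1.val = 0
    · have h' : (actN 𝓗 c v).1.1.val = 0 := h
      rw [if_pos h', if_pos h]
      simp only [Option.map_some, Option.some.injEq]
      have h1 := level_zero 𝓗 (actN 𝓗 c v) h'
        (c + pt (Function.support (v : Node F 𝓗).1.2))
      have h2 : (actN 𝓗 c v).1.2 (c + pt (Function.support (v : Node F 𝓗).1.2)) ≠ 0 := by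
        show act c (v : Node F 𝓗).1.2 _ ≠ 0
        rw [act_eq, add_sub_cancel_left]
        exact mul_ne_zero (inv_ne_zero (val_pt (tr_ne (v : Node F 𝓗).2.1.nonempty c)))
          (val_pt (v : Node F 𝓗).2.1.nonempty)
      have h3 : c + pt (Function.support (v : Node F 𝓗).1.2) =
          pt (Function.support (actN 𝓗 c v).1.2) := by
        by_contra hne
        rw [if_neg hne] at h1
        exact h2 h1
      rw [← h3]
      unfold tau
      simp
    · have h' : ¬ (actN 𝓗 c v).1.1.val = 0 := h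
      rw [if_neg h', if_neg h]
      rfl
  · intro v hv
    by_cases h : (v : Node F 𝓗).1.1.val = 0
    · have h1 := level_zero 𝓗 (v : Node F 𝓗) h
      have h2 : tr c (v : Node F 𝓗).1.2
          (pt (Function.support (tr c (v : Node F 𝓗).1.2))) ≠ 0 :=
        val_pt (tr_ne (v : Node F 𝓗).2.1.nonempty c)
      have h3 : tr c (v : Node F 𝓗).1.2
          (pt (Function.support (tr c (v : Node F 𝓗).1.2))) = 1 := by
        rw [tr_apply] at h2 ⊢
        rw [h1] at h2 ⊢
        by_contra hne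
        split_ifs at h2 hne with h5
        · exact hne rfl
        · exact h2 rfl
      show (tr c (v : Node F 𝓗).1.2
          (pt (Function.support (tr c (v : Node F 𝓗).1.2))))⁻¹ = 1
      rw [h3, inv_one]
    · exfalso
      apply hv
      have := lab_eq 𝓗 e χ v
      rwa [if_neg h] at this

/-- The fast Fourier transform: upper bound. -/
theorem upper : ∃ C : LinCircuit F n, C.Symm (tau e) ∧
    C.Computes (Matrix.of fun i j => χ i (e j)) ∧ C.E.card ≤ n * sopfr n ∧
    ∀ m, n = 2 ^ m → C.adds ≤ n * m := by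
  obtain ⟨𝓗, p, hp, hprime, hsum⟩ := exists_chain (G := G)
  have hn : Nat.card G = n := by
    rw [← Nat.card_congr e, Nat.card_eq_fintype_card, Fintype.card_fin]
  refine ⟨circ 𝓗 e χ, symm 𝓗 e χ, computes 𝓗 e χ, ?_, ?_⟩
  · have := card_E 𝓗 e χ p hp
    rwa [hsum, hn] at this
  · intro m hm
    have h2 : ∀ i ∈ range 𝓗.t, p i = 2 := by
      intro i hi
      have h3 : p i ∣ Nat.card (𝓗.H (i + 1)) := by
        rw [hp i (mem_range.mp hi)]
        exact Dvd.intro _ rfl
      have h4 : p i ∣ 2 ^ m := by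
        rw [← hm, ← hn]
        exact h3.trans (AddSubgroup.card_addSubgroup_dvd_card _)
      exact (Nat.prime_dvd_prime_iff_eq (hprime i (mem_range.mp hi)) Nat.prime_two).mp
        ((hprime i (mem_range.mp hi)).dvd_of_dvd_pow h4)
    have h5 : ∑ i ∈ range 𝓗.t, p i = ∑ i ∈ range 𝓗.t, 2 := sum_congr rfl h2
    rw [hsum, hn, hm, sopfr_two_pow, sum_const, card_range, smul_eq_mul] at h5
    have h6 : ∑ i ∈ range 𝓗.t, (p i - 1) = ∑ i ∈ range 𝓗.t, 1 :=
      sum_congr rfl fun i hi => by rw [h2 i hi]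
    have h7 := card_adds 𝓗 e χ p hp
    rw [h6, sum_const, card_range, smul_eq_mul, mul_one] at h7
    have h8 : 𝓗.t = m := by omega
    rwa [h8] at h7

end Pool.Agent.Helper76.LC.FFT
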