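import Pool.Agent.Helper76.LC.Defs

set_option autoImplicit false

/-!
# Removing few edges such that a labelling takes few values
-/

namespace Pool.Agent.Helper76.LC

open Finset

/-- the edges for which the labels agree above the digit `κ` and not at `κ` -/
def cls {V : Type} (f : V → ℕ) (E : Finset (V × V)) (κ : ℕ) : Finset (V × V) :=
  E.filter fun e => f e.1 / 2 ^ (κ + 1) = f e.2 / 2 ^ (κ + 1) ∧ f e.1 / 2 ^ κ < f e.2 / 2 ^ κ

theorem cls_disj {V : Type} (f : V → ℕ) (E : Finset (V × V)) (κ κ' : ℕ) (h : κ < κ') :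
    Disjoint (cls f E κ) (cls f E κ') := by
  rw [Finset.disjoint_left]
  intro e h1 h2
  rw [cls, mem_filter] at h1 h2
  have h3 : f e.1 / 2 ^ κ' = f e.2 / 2 ^ κ' := by
    have : (2 : ℕ) ^ κ' = 2 ^ (κ + 1) * 2 ^ (κ' - (κ + 1)) := by
      rw [← pow_add]; congr 1; omega
    rw [this, ← Nat.div_div_eq_div_mul, ← Nat.div_div_eq_div_mul, h1.2.1]
  omega

/-- delete the digit `κ` -/
def del (κ x : ℕ) : ℕ := x / 2 ^ (κ + 1) * 2 ^ κ + x % 2 ^ κ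

theorem del_lt (κ ℓ x : ℕ) (hκ : κ < ℓ) (hx : x < 2 ^ ℓ) : del κ x < 2 ^ (ℓ - 1) := by
  have h1 : x / 2 ^ (κ + 1) < 2 ^ (ℓ - 1 - κ) := by
    rw [Nat.div_lt_iff_lt_mul (by positivity), ← pow_add]
    have : ℓ - 1 - κ + (κ + 1) = ℓ := by omega
    rwa [this]
  have h2 : x % 2 ^ κ < 2 ^ κ := Nat.mod_lt _ (by positivity)
  calc del κ x < x / 2 ^ (κ + 1) * 2 ^ κ + 2 ^ κ := by unfold del; omega
    _ = (x / 2 ^ (κ + 1) + 1) * 2 ^ κ := by ring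
    _ ≤ 2 ^ (ℓ - 1 - κ) * 2 ^ κ := Nat.mul_le_mul_right _ h1
    _ = 2 ^ (ℓ - 1) := by rw [← pow_add]; congr 1; omega

theorem del_strict {κ x y : ℕ} (h : x < y)
    (hn : ¬ (x / 2 ^ (κ + 1) = y / 2 ^ (κ + 1) ∧ x / 2 ^ κ < y / 2 ^ κ)) : del κ x < del κ y := by
  have h1 : x / 2 ^ (κ + 1) ≤ y / 2 ^ (κ + 1) := Nat.div_le_div_right h.le
  have h2 : x % 2 ^ κ < 2 ^ κ := Nat.mod_lt _ (by positivity)
  rcases Nat.lt_or_ge (x / 2 ^ (κ + 1)) (y / 2 ^ (κ + 1)) with h3 | h3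
  · calc del κ x < x / 2 ^ (κ + 1) * 2 ^ κ + 2 ^ κ := by unfold del; omega
      _ = (x / 2 ^ (κ + 1) + 1) * 2 ^ κ := by ring
      _ ≤ y / 2 ^ (κ + 1) * 2 ^ κ := Nat.mul_le_mul_right _ h3
      _ ≤ del κ y := by unfold del; omega
  · have h4 : x / 2 ^ (κ + 1) = y / 2 ^ (κ + 1) := le_antisymm h1 h3
    have h5 : x / 2 ^ κ ≤ y / 2 ^ κ := Nat.div_le_div_right h.le
    have h6 : x / 2 ^ κ = y / 2 ^ κ := by
      by_contra hne
      exact hn ⟨h4, lt_of_le_of_ne h5 hne⟩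
    have h7 := Nat.div_add_mod x (2 ^ κ)
    have h8 := Nat.div_add_mod y (2 ^ κ)
    rw [h6] at h7
    unfold del
    rw [h4]
    omega

theorem halve {V : Type} [DecidableEq V] (f : V → ℕ) (E : Finset (V × V)) (ℓ : ℕ) (hℓ : 1 ≤ ℓ)
    (hf : ∀ e ∈ E, f e.1 < f e.2) : ∃ R ⊆ E, ∃ φ : ℕ → ℕ, ℓ * R.card ≤ E.card ∧
      (∀ x < 2 ^ ℓ, φ x < 2 ^ (ℓ - 1)) ∧ ∀ e ∈ E \ R, φ (f e.1) < φ (f e.2) := by
  have hsum : ∑ κ ∈ range ℓ, (cls f E κ).card ≤ E.card := by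
    rw [← card_biUnion]
    · refine card_le_card ?_
      intro e he
      rw [mem_biUnion] at he
      obtain ⟨κ, _, h⟩ := he
      exact (mem_filter.mp h).1
    · intro κ _ κ' _ hne
      rcases Nat.lt_or_gt_of_ne hne with h | h
      · exact cls_disj f E κ κ' h
      · exact (cls_disj f E κ' κ h).symm
  obtain ⟨κ, hκ, hκ2⟩ : ∃ κ ∈ range ℓ, ℓ * (cls f E κ).card ≤ E.card := by
    by_contra hcon
    push Not at hcon
    have h1 : ∑ κ ∈ range ℓ, E.card < ∑ κ ∈ range ℓ, ℓ * (cls f E κ).card := by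
      refine sum_lt_sum_of_nonempty ⟨0, mem_range.mpr hℓ⟩ fun κ hκ => hcon κ hκ
    rw [sum_const, card_range, ← mul_sum, smul_eq_mul] at h1
    exact absurd (Nat.mul_le_mul_left ℓ hsum) (not_le.mpr h1)
  refine ⟨cls f E κ, filter_subset _ _, del κ, hκ2, fun x hx => del_lt κ ℓ x
    (mem_range.mp hκ) hx, ?_⟩
  intro e he
  rw [mem_sdiff, cls, mem_filter] at he
  exact del_strict (hf e he.1) fun hh => he.2 ⟨he.1, hh⟩

theorem halves {V : Type} [DecidableEq V] : ∀ (t ℓ : ℕ) (f : V → ℕ) (E : Finset (V × V)), t ≤ ℓ →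
    (∀ e ∈ E, f e.1 < f e.2) → ∃ R ⊆ E, ∃ φ : ℕ → ℕ, R.card * (ℓ - t + 1) ≤ t * E.card ∧
      (∀ x < 2 ^ ℓ, φ x < 2 ^ (ℓ - t)) ∧ ∀ e ∈ E \ R, φ (f e.1) < φ (f e.2) := by
  intro t
  induction t with
  | zero =>
    intro ℓ f E _ hf
    refine ⟨∅, empty_subset _, id, by simp, by simp, ?_⟩
    intro e he
    exact hf e (mem_sdiff.mp he).1
  | succ t ih =>
    intro ℓ f E ht hf
    obtain ⟨R₁, hR₁, φ₁, h1, h2, h3⟩ := halve f E ℓ (by omega) hf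
    obtain ⟨R₂, hR₂, φ₂, h4, h5, h6⟩ := ih (ℓ - 1) (fun v => φ₁ (f v)) (E \ R₁) (by omega) h3
    refine ⟨R₁ ∪ R₂, ?_, fun x => φ₂ (φ₁ x), ?_, ?_, ?_⟩
    · refine union_subset hR₁ fun e he => (mem_sdiff.mp (hR₂ he)).1
    · have h7 : (R₁ ∪ R₂).card ≤ R₁.card + R₂.card := card_union_le _ _
      have h8 : (E \ R₁).card ≤ E.card := card_le_card sdiff_subset
      have h9 : ℓ - (t + 1) + 1 = ℓ - t := by omega
      have h10 : ℓ - 1 - t + 1 = ℓ - t := by omega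
      rw [h10] at h4
      rw [h9]
      calc (R₁ ∪ R₂).card * (ℓ - t) ≤ (R₁.card + R₂.card) * (ℓ - t) := Nat.mul_le_mul_right _ h7
        _ = R₁.card * (ℓ - t) + R₂.card * (ℓ - t) := by ring
        _ ≤ ℓ * R₁.card + t * (E \ R₁).card := by
            refine Nat.add_le_add ?_ h4
            rw [mul_comm]
            exact Nat.mul_le_mul_right _ (Nat.sub_le _ _)
        _ ≤ E.card + t * E.card := Nat.add_le_add h1 (Nat.mul_le_mul_left _ h8)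
        _ = (t + 1) * E.card := by ring
    · intro x hx
      have h11 := h5 (φ₁ x) (h2 x hx)
      have h12 : ℓ - 1 - t = ℓ - (t + 1) := by omega
      rwa [h12] at h11
    · intro e he
      rw [mem_sdiff, mem_union, not_or] at he
      exact h6 e (by rw [mem_sdiff, mem_sdiff]; exact ⟨⟨he.1, he.2.1⟩, he.2.2⟩)

end Pool.Agent.Helper76.LC
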