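import Pool.Agent.Q292.LC.Stm7
import Pool.Agent.Q257.LC.LapA

/-!
# Project LC: `S_LAM` (the damaged set is sparse in all boxes, the resolvent form is small)
-/

set_option autoImplicit false

namespace Pool.Agent.Helper76.LC

open Finset Equiv Matrix Q292.LC
open Pool.Agent.Q257.LC (td_comm td_self td_tri mem_bal bal_mono box_sub card_bal_ge PP_nonneg
  cc_nonneg)

/-- sides of the boxes -/
theorem geo_r {K h L d : ℕ} {Cf : ℝ} (hCf : 1 ≤ Cf) (hd : 1 ≤ d) (h8 : 8 * d * Cf ≤ h)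
    (h4 : 4 ≤ h) (hK : 2 * (h : ℝ) ≤ Real.sqrt K) (hKL : K ≤ L ^ 2) :
    1 ≤ Nat.sqrt K / h ∧ 4 * (Nat.sqrt K / h) ≤ L ∧
    Real.sqrt K ≤ 2 * h * ((Nat.sqrt K / h : ℕ) : ℝ) ∧
    2 * d * (Nat.sqrt K / h) ≤ ⌊Real.sqrt K / (2 * Cf)⌋₊ := by
  have hs1 : Real.sqrt K < (Nat.sqrt K : ℝ) + 1 := Real.real_sqrt_lt_nat_sqrt_succ
  have hs2 : (Nat.sqrt K : ℝ) ≤ Real.sqrt K := Real.nat_sqrt_le_real_sqrt
  have hsL : Nat.sqrt K ≤ L := by
    calc Nat.sqrt K ≤ Nat.sqrt (L ^ 2) := Nat.sqrt_le_sqrt hKL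
      _ = L := Nat.sqrt_eq' L
  set s := Nat.sqrt K with hs
  have hh0 : 0 < h := by omega
  have hhr : (0 : ℝ) < h := by exact_mod_cast hh0
  have h1 : s < h * (s / h) + h := by
    have := Nat.div_add_mod s h
    have := Nat.mod_lt s hh0
    omega
  have h1r : (s : ℝ) + 1 ≤ h * ((s / h : ℕ) : ℝ) + h := by exact_mod_cast h1
  have h2 : Real.sqrt K ≤ 2 * h * ((s / h : ℕ) : ℝ) := by nlinarith
  have h3 : h * (s / h) ≤ s := Nat.mul_div_le s h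
  have h3r : (h : ℝ) * ((s / h : ℕ) : ℝ) ≤ s := by exact_mod_cast h3
  refine ⟨?_, ?_, h2, ?_⟩
  · by_contra hc
    have hc0 : s / h = 0 := Nat.lt_one_iff.1 (not_le.1 hc)
    rw [hc0] at h2
    push_cast at h2
    linarith
  · calc 4 * (s / h) ≤ h * (s / h) := Nat.mul_le_mul_right _ h4
      _ ≤ s := h3
      _ ≤ L := hsL
  · apply Nat.le_floor
    push_cast
    rw [le_div_iff₀ (by positivity)]
    have h5 : (0 : ℝ) ≤ ((s / h : ℕ) : ℝ) := Nat.cast_nonneg _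
    calc 2 * (d : ℝ) * ((s / h : ℕ) : ℝ) * (2 * Cf) = (4 * d * Cf) * ((s / h : ℕ) : ℝ) := by ring
      _ ≤ h * ((s / h : ℕ) : ℝ) := by
          refine mul_le_mul_of_nonneg_right ?_ h5
          have : (0 : ℝ) ≤ d * Cf := by positivity
          linarith
      _ ≤ Real.sqrt K := h3r.trans hs2

/-- size of a ball -/
theorem ball_big {d L K : ℕ} [NeZero L] {Cf : ℝ} (hCf : 1 ≤ Cf) (hd : 1 ≤ d) (hKL : K ≤ L ^ 2)
    (h4 : 4 * Cf ≤ Real.sqrt K) :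
    (Real.sqrt K / (4 * d * Cf)) ^ d ≤
      ((bal (0 : Fin d → ZMod L) ⌊Real.sqrt K / (2 * Cf)⌋₊).card : ℝ) := by
  set ℓ := ⌊Real.sqrt K / (2 * Cf)⌋₊ with hℓ
  have hL0 : 0 < L := Nat.pos_of_ne_zero (NeZero.ne L)
  have hdr : (0 : ℝ) < d := by exact_mod_cast hd
  have hKr : Real.sqrt K ≤ L := by
    apply Real.sqrt_le_iff.2
    exact ⟨Nat.cast_nonneg _, by exact_mod_cast hKL⟩
  have h1 : Real.sqrt K / (2 * Cf) < ℓ + 1 := Nat.lt_floor_add_one _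
  have h2 : (ℓ : ℝ) ≤ Real.sqrt K / (2 * Cf) := Nat.floor_le (by positivity)
  have h3 : Real.sqrt K / (4 * Cf) ≤ ℓ := by
    have h5 : 1 ≤ Real.sqrt K / (4 * Cf) := by
      rw [le_div_iff₀ (by positivity)]
      linarith
    have h6 : Real.sqrt K / (2 * Cf) = 2 * (Real.sqrt K / (4 * Cf)) := by
      field_simp
      ring
    linarith
  have h7 : ℓ < L := by
    have h8 : Real.sqrt K / (2 * Cf) ≤ Real.sqrt K / 2 := by
      apply div_le_div_of_nonneg_left (Real.sqrt_nonneg _) (by norm_num)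
      linarith
    have hLr : (0 : ℝ) < L := by exact_mod_cast hL0
    have : (ℓ : ℝ) < L := by linarith
    exact_mod_cast this
  have h9 := card_bal_ge (d := d) (L := L) ℓ (ℓ / d) (Nat.mul_div_le ℓ d)
    (lt_of_le_of_lt (Nat.div_le_self _ _) h7)
  have h10 : (((ℓ / d + 1 : ℕ) : ℝ)) ^ d ≤ ((bal (0 : Fin d → ZMod L) ℓ).card : ℝ) := by
    exact_mod_cast h9
  refine le_trans (pow_le_pow_left₀ (by positivity) ?_ d) h10
  have h11 : ℓ < d * (ℓ / d) + d := by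
    have := Nat.div_add_mod ℓ d
    have := Nat.mod_lt ℓ hd
    omega
  have h11r : (ℓ : ℝ) ≤ d * ((ℓ / d : ℕ) : ℝ) + d := by exact_mod_cast h11.le
  push_cast
  rw [div_le_iff₀ (by positivity)]
  rw [div_le_iff₀ (by positivity)] at h3
  nlinarith

/-- the number of particles in a large ball -/
theorem cnt_real (hCNT : S_CNT) {d L : ℕ} [NeZero L] (hd : 1 ≤ d) (hL : 3 ≤ L)
    (S : Finset (Fin d → ZMod L)) {r₁ R lam Z : ℕ} {C' y : ℝ} (hC' : 0 ≤ C') (hy : 0 < y)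
    (hr : d ≤ r₁) (hlam : lam ≤ Z) (hS : ∀ v, (S ∩ bal v r₁).card ≤ lam)
    (hR : (R : ℝ) ≤ C' * (y ^ 4 * Z)) (hr2 : (r₁ : ℝ) ≤ y ^ 4 * Z)
    (h9 : y ^ 9 ≤ (2 * r₁ : ℝ) ^ d) (z : Fin d → ZMod L) :
    ((S ∩ bal z R).card : ℝ) ≤
      (2 * (4 * d * C' + 3)) ^ d * (Z : ℝ) ^ (d + 1) * y ^ (4 * d) / y ^ 9 := by
  have hdr : (0 : ℝ) < d := by exact_mod_cast hd
  have hr0 : (0 : ℝ) < r₁ := by
    have : 0 < r₁ := by omega
    exact_mod_cast this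
  have h1 := hCNT d L hd hL S r₁ R lam hr hS z
  set m := r₁ / d with hm
  have hm1 : 1 ≤ m := (Nat.one_le_div_iff (by omega)).2 hr
  have hm0 : (0 : ℝ) < m := by exact_mod_cast hm1
  have hm2 : r₁ ≤ 2 * d * m := by
    have h2 := Nat.div_add_mod r₁ d
    have h3 := Nat.mod_lt r₁ hd
    rw [← hm] at h2
    nlinarith
  have hm2r : (r₁ : ℝ) ≤ 2 * d * m := by exact_mod_cast hm2
  have h4 : ((R / m : ℕ) : ℝ) ≤ 2 * d * R / r₁ := by
    calc ((R / m : ℕ) : ℝ) ≤ (R : ℝ) / m := Nat.cast_div_le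
      _ ≤ 2 * d * R / r₁ := by
          rw [div_le_div_iff₀ hm0 hr0]
          have := mul_le_mul_of_nonneg_left hm2r (Nat.cast_nonneg (α := ℝ) R)
          linarith
  have h5 : (2 * ((R / m : ℕ) : ℝ) + 3) ≤ (4 * d * C' + 3) * (y ^ 4 * Z / r₁) := by
    have h6 : 1 ≤ y ^ 4 * Z / r₁ := by
      rw [le_div_iff₀ hr0]
      linarith
    have h7 : 2 * d * (R : ℝ) / r₁ ≤ 2 * d * C' * (y ^ 4 * Z / r₁) := by
      rw [mul_div_assoc', div_le_div_iff_of_pos_right hr0]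
      have := mul_le_mul_of_nonneg_left hR (by positivity : (0 : ℝ) ≤ 2 * d)
      linarith
    nlinarith
  have h8 : ((S ∩ bal z R).card : ℝ) ≤ (lam : ℝ) * (2 * ((R / m : ℕ) : ℝ) + 3) ^ d := by
    exact_mod_cast h1
  have hlr : (lam : ℝ) ≤ Z := by exact_mod_cast hlam
  have hr0d : (0 : ℝ) < (r₁ : ℝ) ^ d := by positivity
  have hy9 : (0 : ℝ) < y ^ 9 := by positivity
  calc ((S ∩ bal z R).card : ℝ) ≤ (lam : ℝ) * (2 * ((R / m : ℕ) : ℝ) + 3) ^ d := h8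
    _ ≤ Z * ((4 * d * C' + 3) * (y ^ 4 * Z / r₁)) ^ d :=
        mul_le_mul hlr (pow_le_pow_left₀ (by positivity) h5 d) (by positivity) (by positivity)
    _ = ((4 * d * C' + 3) ^ d * (Z : ℝ) ^ (d + 1) * y ^ (4 * d)) / (r₁ : ℝ) ^ d := by
        rw [mul_pow, div_pow, mul_pow, ← pow_mul, pow_succ]
        ring
    _ ≤ (2 * (4 * d * C' + 3)) ^ d * (Z : ℝ) ^ (d + 1) * y ^ (4 * d) / y ^ 9 := by
        rw [div_le_div_iff₀ hr0d hy9, mul_pow 2 (4 * d * C' + 3) d]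
        rw [mul_pow] at h9
        have := mul_le_mul_of_nonneg_left h9
          (by positivity : (0 : ℝ) ≤ (4 * d * C' + 3) ^ d * (Z : ℝ) ^ (d + 1) * y ^ (4 * d))
        linarith

/-- the damaged set in a ball -/
theorem dm_ball (hB2 : S_BAS2) (hCON2 : S_CON2) {d L : ℕ} [NeZero L] (hd : 1 ≤ d) (hL : 3 ≤ L)
    (σ : ℕ → (Fin d → ZMod L) × Fin d) (hσ : Per σ) (ω : ℕ → Bool)
    (A : Finset (Fin d → ZMod L)) {δ τ ε N : ℝ} {q K ρ B D : ℕ} (z : Fin d → ZMod L)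
    (hδ : 0 < δ) (h2 : 2 * d * δ ≤ 1) (h3 : δ * q ≤ 2) (hτ : 0 ≤ τ) (hε : 0 < ε) (hK : 1 ≤ K)
    (hJ : ∀ j < K, ∀ a ∈ A,
      jumps (ed ∘ σ) ω (j * (q * ms d L)) ((j + 1) * (q * ms d L)) a ≤ ρ)
    (htail : ∀ k ≤ K * (q * ms d L), ∀ y, ∑ x ∈ univ.filter (fun x => D < td x y),
      PP (ed ∘ σ) δ k x y ≤ τ)
    (hτA : τ * A.card ≤ 1)
    (hN : ∀ j < K, (((A.image (gp (ed ∘ σ) ω (j * (q * ms d L)))) ∩
      bal z (B + D + ρ + 1)).card : ℝ) ≤ N) :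
    ((Dmg (ed ∘ σ) ω A δ ε (K * (q * ms d L)) ∩ bal z B).card : ℝ) ≤
      N + (8 * ρ + 16 * d) * (K * (N + 1)) / ε := by
  classical
  have hδ1 : δ ≤ 1 := by
    have hd' : (1 : ℝ) ≤ d := by exact_mod_cast hd
    nlinarith
  set n := K * (q * ms d L) with hn
  set G := univ.filter (fun x => ε < cc (ed ∘ σ) ω A δ n x) ∩ bal z B with hG
  have hsub : Dmg (ed ∘ σ) ω A δ ε n ∩ bal z B ⊆ (A ∩ bal z B) ∪ G := by
    intro x hx
    unfold Dmg at hx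
    rw [mem_inter, mem_filter] at hx
    rw [mem_union, mem_inter, hG, mem_inter, mem_filter]
    tauto
  have hc1 : ((A ∩ bal z B).card : ℝ) ≤ N := by
    have h4 := hN 0 (by omega)
    rw [Nat.zero_mul] at h4
    have h5 : A.image (gp (ed ∘ σ) ω 0) = A := by simp [gp]
    rw [h5] at h4
    refine le_trans ?_ h4
    exact_mod_cast card_le_card (inter_subset_inter_left (bal_mono z (by omega)))
  have hc2 : (G.card : ℝ) ≤ (8 * ρ + 16 * d) * (K * (N + 1)) / ε := by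
    rw [le_div_iff₀ hε]
    calc (G.card : ℝ) * ε = ∑ _x ∈ G, ε := by rw [sum_const, nsmul_eq_mul]
      _ ≤ ∑ x ∈ G, cc (ed ∘ σ) ω A δ n x := by
          refine sum_le_sum fun x hx => ?_
          rw [hG, mem_inter, mem_filter] at hx
          exact hx.1.2.le
      _ ≤ ∑ x ∈ bal z B, cc (ed ∘ σ) ω A δ n x :=
          sum_le_sum_of_subset_of_nonneg inter_subset_right
            fun x _ _ => cc_nonneg hB2 _ ω A hδ.le hδ1 n x
      _ ≤ (8 * ρ + 16 * d) * ∑ j ∈ Finset.range K,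
            (((A.image (gp (ed ∘ σ) ω (j * (q * ms d L)))) ∩ bal z (B + D + ρ + 1)).card +
              τ * A.card) :=
          hCON2 d L hd hL σ hσ ω A δ τ q K ρ B D z hδ h2 h3 hτ hJ htail
      _ ≤ (8 * ρ + 16 * d) * ∑ _j ∈ Finset.range K, (N + 1) := by
          refine mul_le_mul_of_nonneg_left (sum_le_sum fun j hj => ?_) (by positivity)
          exact add_le_add (hN j (mem_range.1 hj)) hτA
      _ = (8 * ρ + 16 * d) * (K * (N + 1)) := by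
          rw [sum_const, card_range, nsmul_eq_mul]
  calc ((Dmg (ed ∘ σ) ω A δ ε n ∩ bal z B).card : ℝ) ≤ (((A ∩ bal z B) ∪ G).card : ℝ) := by
        exact_mod_cast card_le_card hsub
    _ ≤ ((A ∩ bal z B).card : ℝ) + G.card := by exact_mod_cast card_union_le _ _
    _ ≤ _ := add_le_add hc1 hc2

/-- the resolvent form -/
theorem lam_res (hNEA : S_NEA) (hENG : S_ENG) {d L : ℕ} [NeZero L] {CD : ℝ} (hCD : 1 ≤ CD)
    (hDYA : ∀ (L : ℕ) [NeZero L] (r : ℕ), 1 ≤ r → 4 * r ≤ L → ∀ Dm : Finset (Fin d → ZMod L),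
      (∀ v, 2 * (Dm ∩ Q292.LC.box v r).card ≤ r ^ d) → ∀ (f : (Fin d → ZMod L) → ℝ)
      (z : Fin d → ZMod L),
      (phz r Dm z ⬝ᵥ f) ^ 2 ≤ CD / (r : ℝ) ^ (2 * d) *
        ∑ x, ∑ y, (if x ∉ Dm ∧ y ∉ Dm ∧ td x y ≤ 2 * d * r then (f x - f y) ^ 2 else 0))
    (hd : 1 ≤ d) (hL : 3 ≤ L)
    (σ : ℕ → (Fin d → ZMod L) × Fin d) (hσ : Per σ) (ω : ℕ → Bool)
    (A : Finset (Fin d → ZMod L)) {δ ε p : ℝ} {n ℓ r : ℕ} (hδ0 : 0 ≤ δ) (hδ1 : δ ≤ 1)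
    (hp : 0 < p) (hε : 0 ≤ ε) (hr : 1 ≤ r) (hrL : 4 * r ≤ L) (hrl : 2 * d * r ≤ ℓ)
    (hpp : ∀ x y, td x y ≤ 2 * ℓ → p ≤ PP (ed ∘ σ) δ n x y)
    (h8 : 8 * ε ≤ p * (bal (0 : Fin d → ZMod L) ℓ).card)
    (hDm : ∀ v, 2 * (Dmg (ed ∘ σ) ω A δ ε n ∩ Q292.LC.box v r).card ≤ r ^ d)
    (z : Fin d → ZMod L) (w : ℝ) (hw : 1 / 2 ≤ w) (hw1 : w < 1) :
    phz r (Dmg (ed ∘ σ) ω A δ ε n) z ⬝ᵥ
      ((1 - w • (dg (univ \ A) * TT (ed ∘ σ) ω A δ n))⁻¹ *ᵥ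
        phz r (Dmg (ed ∘ σ) ω A δ ε n) z) ≤ 4 * (CD / (r : ℝ) ^ (2 * d) * (16 / p)) := by
  have hr0 : (0 : ℝ) < r := by exact_mod_cast hr
  set Dm := Dmg (ed ∘ σ) ω A δ ε n with hDmd
  have hAD : ∀ a ∈ A, a ∈ Dm := by
    intro a ha
    rw [hDmd]
    unfold Dmg
    rw [mem_filter]
    exact ⟨mem_univ _, Or.inl ha⟩
  have hDc : ∀ x, x ∉ Dm → x ∉ A ∧ cc (ed ∘ σ) ω A δ n x ≤ ε := by
    intro x hx
    rw [hDmd] at hx
    unfold Dmg at hx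
    rw [mem_filter, not_and] at hx
    have h1 := hx (mem_univ _)
    rw [not_or, not_lt] at h1
    exact h1
  have hchi : ∀ z' : Fin d → ZMod L, ∀ a ∈ A, chi r Dm z' a = 0 := by
    intro z' a ha
    unfold chi
    rw [if_neg]
    intro h
    exact (mem_sdiff.1 h).2 (hAD a ha)
  refine hENG _ (ed ∘ σ) ω A n δ w (CD / (r : ℝ) ^ (2 * d) * (16 / p)) (phz r Dm z) hδ0 hδ1 hw
    hw1 (by positivity) ?_ ?_
  · intro a ha
    unfold phz
    rw [hchi z a ha, sum_eq_zero fun z' _ => hchi z' a ha]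
    simp
  · intro f
    have h1 := hDYA L r hr hrL Dm hDm f z
    have h2 := (hNEA d L hd hL σ hσ ω A Dm δ ε p n ℓ hδ0 hδ1 hp hε hpp hDc h8 f).2
    set E : ℝ := ∑ x, ∑ y, (if x ∉ Dm ∧ y ∉ Dm ∧ td x y ≤ ℓ then (f x - f y) ^ 2 else 0) with hE
    set E' : ℝ := ∑ x, ∑ y, (if x ∉ Dm ∧ y ∉ Dm ∧ td x y ≤ 2 * d * r then
      (f x - f y) ^ 2 else 0) with hE'
    have hEE : E' ≤ E := by
      refine sum_le_sum fun x _ => sum_le_sum fun y _ => ?_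
      by_cases h9 : x ∉ Dm ∧ y ∉ Dm ∧ td x y ≤ 2 * d * r
      · rw [if_pos h9, if_pos ⟨h9.1, h9.2.1, h9.2.2.trans hrl⟩]
      · rw [if_neg h9]
        split_ifs
        · exact sq_nonneg _
        · exact le_rfl
    have h3 : E ≤ 16 / p * ∑ x, ∑ y, TT (ed ∘ σ) ω A δ n x y * (f x - f y) ^ 2 := by
      rw [div_mul_eq_mul_div, le_div_iff₀ hp]
      linarith
    calc (phz r Dm z ⬝ᵥ f) ^ 2 ≤ CD / (r : ℝ) ^ (2 * d) * E' := h1
      _ ≤ CD / (r : ℝ) ^ (2 * d) *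
          (16 / p * ∑ x, ∑ y, TT (ed ∘ σ) ω A δ n x y * (f x - f y) ^ 2) :=
          mul_le_mul_of_nonneg_left (hEE.trans h3) (by positivity)
      _ = _ := by ring

/-- the tail parameter -/
theorem tau_le {d L K Z D : ℕ} [NeZero L] {Cf : ℝ} (hCf : 1 ≤ Cf) (hK : 0 < Real.sqrt K)
    (hLZ : (L : ℝ) ^ d ≤ Real.exp Z) (hD : Cf * Real.sqrt K * (Z + Cf) ≤ D)
    (A : Finset (Fin d → ZMod L)) :
    Cf * Real.exp (-(D / (Cf * Real.sqrt K))) * A.card ≤ 1 := by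
  have hCf0 : 0 < Cf := by linarith
  have h1 : (Z : ℝ) + Cf ≤ D / (Cf * Real.sqrt K) := by
    rw [le_div_iff₀ (by positivity)]
    linarith
  have h2 : Real.exp (-(D / (Cf * Real.sqrt K))) ≤ Real.exp (-(Z : ℝ)) * Real.exp (-Cf) := by
    rw [← Real.exp_add]
    apply Real.exp_le_exp.2
    linarith
  have h3 : Cf * Real.exp (-Cf) ≤ 1 := by
    have h4 : Cf ≤ Real.exp Cf := by
      have := Real.add_one_le_exp Cf
      linarith
    calc Cf * Real.exp (-Cf) ≤ Real.exp Cf * Real.exp (-Cf) :=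
          mul_le_mul_of_nonneg_right h4 (Real.exp_pos _).le
      _ = 1 := by rw [← Real.exp_add]; simp
  have h5 : (A.card : ℝ) ≤ Real.exp Z := by
    refine le_trans ?_ hLZ
    have h6 : A.card ≤ L ^ d := by
      refine (card_le_univ A).trans (le_of_eq ?_)
      rw [Fintype.card_fun, ZMod.card, Fintype.card_fin]
    exact_mod_cast h6
  have h7 : Cf * Real.exp (-(D / (Cf * Real.sqrt K))) ≤ Real.exp (-(Z : ℝ)) := by
    calc Cf * Real.exp (-(D / (Cf * Real.sqrt K)))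
        ≤ Cf * (Real.exp (-(Z : ℝ)) * Real.exp (-Cf)) := mul_le_mul_of_nonneg_left h2 hCf0.le
      _ = Real.exp (-(Z : ℝ)) * (Cf * Real.exp (-Cf)) := by ring
      _ ≤ Real.exp (-(Z : ℝ)) * 1 := mul_le_mul_of_nonneg_left h3 (Real.exp_pos _).le
      _ = _ := mul_one _
  calc Cf * Real.exp (-(D / (Cf * Real.sqrt K))) * A.card
      ≤ Real.exp (-(Z : ℝ)) * Real.exp Z :=
        mul_le_mul h7 h5 (Nat.cast_nonneg _) (Real.exp_pos _).le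
    _ = 1 := by rw [← Real.exp_add]; simp

theorem t_LAM (hFRE : S_FRE) (hCON2 : S_CON2) (hNEA : S_NEA) (hCNT : S_CNT) (hDYA : S_DYA)
    (hENG : S_ENG) (hBAS2 : S_BAS2) : S_LAM := by
  intro d hd3
  have hd : 1 ≤ d := by omega
  have hdr : (1 : ℝ) ≤ d := by exact_mod_cast hd
  obtain ⟨Cf, hCf, hF⟩ := hFRE d hd
  obtain ⟨CD, hCD, hDy⟩ := hDYA d hd3
  have hCf0 : 0 < Cf := by linarith
  obtain ⟨ε, hε⟩ : ∃ ε : ℝ, ε = 1 / (8 * Cf * (4 * d * Cf) ^ d) := ⟨_, rfl⟩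
  obtain ⟨C', hC'⟩ : ∃ C' : ℝ, C' = d + Cf * (1 + Cf) + 3 := ⟨_, rfl⟩
  have hC'0 : 0 ≤ C' := by rw [hC']; positivity
  obtain ⟨M, hM⟩ : ∃ M : ℝ, M = (2 * (4 * d * C' + 3)) ^ d := ⟨_, rfl⟩
  have hε0 : 0 < ε := by rw [hε]; positivity
  have hM1 : 1 ≤ M := by
    rw [hM]
    apply one_le_pow₀
    have : (0 : ℝ) ≤ 4 * d * C' := by positivity
    linarith
  obtain ⟨C1, hC1⟩ : ∃ C1 : ℝ, C1 = (1 + 48 * d / ε) * M * 2 ^ d := ⟨_, rfl⟩
  have hC10 : 0 ≤ C1 := by rw [hC1]; positivity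
  obtain ⟨C, hC⟩ : ∃ C : ℕ, C = ⌈8 * d * Cf + 4 + 64 * CD * Cf + C1⌉₊ := ⟨_, rfl⟩
  have hCr : 8 * d * Cf + 4 + 64 * CD * Cf + C1 ≤ C := by rw [hC]; exact Nat.le_ceil _
  have hpos1 : 0 ≤ 8 * d * Cf := by positivity
  have hpos2 : 0 ≤ 64 * CD * Cf := by positivity
  have hC4 : 4 ≤ C := by
    have : (4 : ℝ) ≤ C := by linarith
    exact_mod_cast this
  have hCC1 : C1 ≤ C := by linarith
  refine ⟨C, ε, by omega, hε0, ?_⟩
  intro h hCh Z hZ η hη0 hη L K lam r₁ ρ κ₀ _ hlam hρ hLZ hL hKL hr1 hK9 hr2 hK8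
  obtain ⟨q₁, hq₁⟩ := hF L hL K
  refine ⟨max q₁ (4 * d + 2), fun q hq σ hσ δ hδ1 hδ2 ω A hGd r hr Dm hDm => ?_⟩
  -- the small parameters
  have hq1 : q₁ ≤ q := le_trans (le_max_left _ _) hq
  have hq2 : 4 * d + 2 ≤ q := le_trans (le_max_right _ _) hq
  have hq2r : 4 * (d : ℝ) + 2 ≤ q := by exact_mod_cast hq2
  have hq0 : (0 : ℝ) < q := by linarith
  have hδ0 : 0 < δ := by
    by_contra hc
    push Not at hc
    nlinarith
  have h2dδ : 2 * d * δ ≤ 1 := by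
    by_contra hc
    push Not at hc
    nlinarith
  have hδ11 : δ ≤ 1 := by nlinarith
  obtain ⟨-, hFb, hFc⟩ := hq₁ q hq1 σ hσ δ hδ1 hδ2
  obtain ⟨hG1, hG2, -⟩ := hGd
  -- `y = K^(1/8)`
  obtain ⟨y, hy⟩ : ∃ y : ℝ, y = (K : ℝ) ^ (((8 : ℕ) : ℝ)⁻¹) := ⟨_, rfl⟩
  have hy8 : y ^ 8 = K := by
    rw [hy]
    exact Real.rpow_inv_natCast_pow (Nat.cast_nonneg _) (by norm_num)
  have hy0' : 0 ≤ y := by rw [hy]; positivity
  have hZr : (1 : ℝ) ≤ Z := by exact_mod_cast hZ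
  have hChr : (C : ℝ) ≤ h := by exact_mod_cast hCh
  have hC4r : (4 : ℝ) ≤ C := by exact_mod_cast hC4
  have hh1 : (1 : ℝ) ≤ h := by linarith
  have hXy : (C : ℝ) * (Z : ℝ) ^ (d + 2) * (h : ℝ) ^ d / η ≤ y := by
    rw [← hy8] at hK8
    exact (pow_le_pow_iff_left₀ (by positivity) hy0' (by norm_num)).1 hK8
  have hXy' : (C : ℝ) * (Z : ℝ) ^ (d + 2) * (h : ℝ) ^ d ≤ η * y := by
    rw [div_le_iff₀ hη0] at hXy
    linarith
  have hy2h : 2 * (h : ℝ) ≤ y := by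
    have h1 : (1 : ℝ) ≤ (Z : ℝ) ^ (d + 2) := one_le_pow₀ hZr
    have h2 : (h : ℝ) ≤ (h : ℝ) ^ d := le_self_pow₀ hh1 (by omega)
    have h3 : (h : ℝ) ≤ (C : ℝ) * (Z : ℝ) ^ (d + 2) * (h : ℝ) ^ d := by
      have h4 : (1 : ℝ) ≤ (C : ℝ) * (Z : ℝ) ^ (d + 2) :=
        one_le_mul_of_one_le_of_one_le (by linarith) h1
      calc (h : ℝ) ≤ 1 * (h : ℝ) ^ d := by rw [one_mul]; exact h2
        _ ≤ _ := mul_le_mul_of_nonneg_right h4 (by positivity)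
    have h5 : η * y ≤ 1 / 2 * y := mul_le_mul_of_nonneg_right hη hy0'
    linarith
  have hy1 : 1 ≤ y := by linarith
  have hy0 : 0 < y := by linarith
  have hyy4 : y ≤ y ^ 4 := le_self_pow₀ hy1 (by norm_num)
  have hsq : Real.sqrt K = y ^ 4 := by
    have h1 : y ^ 8 = (y ^ 4) ^ 2 := by ring
    rw [← hy8, h1, Real.sqrt_sq (by positivity)]
  have hKd : (K : ℝ) ^ (d / 2 : ℝ) = y ^ (4 * d) := by
    rw [← hy8, ← Real.rpow_natCast, ← Real.rpow_mul hy0.le, ← Real.rpow_natCast]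
    congr 1
    push_cast
    ring
  have hKr1 : (1 : ℝ) ≤ K := by rw [← hy8]; exact one_le_pow₀ hy1
  have hK1 : 1 ≤ K := by exact_mod_cast hKr1
  -- geometry
  have h8d : 8 * d * Cf ≤ h := by linarith
  obtain ⟨g1, g2, g3, g4⟩ := geo_r (K := K) (h := h) (L := L) (d := d) hCf hd h8d
    (by omega) (by rw [hsq]; linarith) hKL
  rw [← hr] at g1 g2 g3 g4
  have hball := ball_big (d := d) (L := L) (K := K) hCf hd hKL (by
    rw [hsq]
    nlinarith)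
  obtain ⟨ℓ, hℓ⟩ : ∃ ℓ : ℕ, ℓ = ⌊Real.sqrt K / (2 * Cf)⌋₊ := ⟨_, rfl⟩
  rw [← hℓ] at g4 hball
  obtain ⟨p, hp⟩ : ∃ p : ℝ, p = (K : ℝ) ^ (-(d / 2 : ℝ)) / Cf := ⟨_, rfl⟩
  have hpy : p = 1 / (y ^ (4 * d) * Cf) := by
    rw [hp, Real.rpow_neg (Nat.cast_nonneg _), hKd]
    field_simp
  have hp0 : 0 < p := by rw [hpy]; positivity
  have hpp : ∀ x x', td x x' ≤ 2 * ℓ → p ≤ PP (ed ∘ σ) δ (K * (q * ms d L)) x x' := by
    intro x x' hx
    rw [hp]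
    refine hFc K hK1 le_rfl hKL x x' ?_
    have h1 : (ℓ : ℝ) ≤ Real.sqrt K / (2 * Cf) := by
      rw [hℓ]
      exact Nat.floor_le (by positivity)
    have h2 : (td x x' : ℝ) ≤ 2 * ℓ := by exact_mod_cast hx
    have h3 : Real.sqrt K / Cf = 2 * (Real.sqrt K / (2 * Cf)) := by
      field_simp
    rw [h3]
    linarith
  have h8ε : 8 * ε ≤ p * (bal (0 : Fin d → ZMod L) ℓ).card := by
    calc 8 * ε = p * (Real.sqrt K / (4 * d * Cf)) ^ d := by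
          rw [hsq, hpy, hε, div_pow, ← pow_mul]
          field_simp
      _ ≤ _ := mul_le_mul_of_nonneg_left hball hp0.le
  -- the number of damaged points
  have hQ1 : (Z : ℝ) ≤ y ^ 4 * Z := by
    have : (1 : ℝ) ≤ y ^ 4 := one_le_pow₀ hy1
    nlinarith
  obtain ⟨D, hD⟩ : ∃ D : ℕ, D = ⌈Cf * Real.sqrt K * (Z + Cf)⌉₊ := ⟨_, rfl⟩
  have hD1 : Cf * Real.sqrt K * (Z + Cf) ≤ D := by rw [hD]; exact Nat.le_ceil _
  have hD2 : (D : ℝ) ≤ Cf * Real.sqrt K * (Z + Cf) + 1 := by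
    rw [hD]
    exact (Nat.ceil_lt_add_one (by positivity)).le
  have hsq0 : 0 < Real.sqrt K := by rw [hsq]; positivity
  have hτA := tau_le (d := d) (L := L) (K := K) (Z := Z) (D := D) hCf hsq0 hLZ hD1 A
  have hry : (r : ℝ) ≤ y ^ 4 := by
    rw [← hsq]
    refine le_trans ?_ (Real.nat_sqrt_le_real_sqrt (a := K))
    rw [hr]
    exact_mod_cast Nat.div_le_self _ _
  have hR : ((d * r + D + ρ + 1 : ℕ) : ℝ) ≤ C' * (y ^ 4 * Z) := by
    push_cast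
    rw [hC']
    rw [hsq] at hD2
    have h1 : (d : ℝ) * r ≤ d * (y ^ 4 * Z) := by
      refine mul_le_mul_of_nonneg_left ?_ (by positivity)
      refine hry.trans ?_
      have : (0 : ℝ) ≤ y ^ 4 := by positivity
      nlinarith
    have h2 : Cf * y ^ 4 * (Z + Cf) ≤ Cf * (1 + Cf) * (y ^ 4 * Z) := by
      have h3 : (Z : ℝ) + Cf ≤ (1 + Cf) * Z := by nlinarith
      calc Cf * y ^ 4 * (Z + Cf) ≤ Cf * y ^ 4 * ((1 + Cf) * Z) :=
            mul_le_mul_of_nonneg_left h3 (by positivity)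
        _ = _ := by ring
    have h4 : (ρ : ℝ) ≤ Z := by exact_mod_cast hρ
    linarith
  have hr2' : (r₁ : ℝ) ≤ y ^ 4 * Z := by
    have h1 : (r₁ : ℝ) ^ 2 ≤ (y ^ 4 * Z) ^ 2 := by
      have h2 : (r₁ : ℝ) ^ 2 ≤ K * (Z : ℝ) ^ 2 := by exact_mod_cast hr2
      rw [← hy8] at h2
      calc (r₁ : ℝ) ^ 2 ≤ y ^ 8 * (Z : ℝ) ^ 2 := h2
        _ = _ := by ring
    exact (pow_le_pow_iff_left₀ (Nat.cast_nonneg _) (by positivity) (by norm_num)).1 h1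
  have h9 : y ^ 9 ≤ (2 * r₁ : ℝ) ^ d := by
    have h1 : (K : ℝ) ^ 9 ≤ (2 * (r₁ : ℝ)) ^ (8 * d) := by exact_mod_cast hK9
    have h2 : (y ^ 9) ^ 8 ≤ ((2 * r₁ : ℝ) ^ d) ^ 8 := by
      calc (y ^ 9) ^ 8 = (y ^ 8) ^ 9 := by ring
        _ ≤ (2 * (r₁ : ℝ)) ^ (8 * d) := by rw [hy8]; exact h1
        _ = _ := by rw [← pow_mul, Nat.mul_comm]
    exact (pow_le_pow_iff_left₀ (by positivity) (by positivity) (by norm_num)).1 h2
  obtain ⟨N, hN⟩ : ∃ N : ℝ, N = M * (Z : ℝ) ^ (d + 1) * y ^ (4 * d) / y ^ 9 := ⟨_, rfl⟩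
  have hNv : ∀ v, ∀ j < K, (((A.image (gp (ed ∘ σ) ω (j * (q * ms d L)))) ∩
      bal v (d * r + D + ρ + 1)).card : ℝ) ≤ N := by
    intro v j hj
    rw [hN, hM]
    refine cnt_real hCNT hd hL _ hC'0 hy0 hr1 hlam (fun v' => ?_) hR hr2' h9 v
    by_contra hc
    exact hG1 ⟨j, hj, v', not_le.1 hc⟩
  have hN1 : 1 ≤ N := by
    rw [hN, le_div_iff₀ (by positivity), one_mul]
    have h1 : (1 : ℝ) ≤ M * (Z : ℝ) ^ (d + 1) :=
      one_le_mul_of_one_le_of_one_le hM1 (one_le_pow₀ hZr)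
    have h2 : y ^ 9 ≤ y ^ (4 * d) := pow_le_pow_right₀ hy1 (by omega)
    calc y ^ 9 ≤ 1 * y ^ (4 * d) := by rw [one_mul]; exact h2
      _ ≤ _ := mul_le_mul_of_nonneg_right h1 (by positivity)
  have hcard : ∀ v, ((Dm ∩ Q292.LC.box v r).card : ℝ) ≤ η * (r : ℝ) ^ d := by
    intro v
    have h1 := dm_ball hBAS2 hCON2 (d := d) (L := L) hd hL σ hσ ω A (δ := δ)
      (τ := Cf * Real.exp (-(D / (Cf * Real.sqrt K)))) (ε := ε) (N := N) (q := q) (K := K)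
      (ρ := ρ) (B := d * r) (D := D) v hδ0 h2dδ hδ2 (by positivity) hε0 hK1 hG2
      (fun k hk x => hFb K hK1 le_rfl k hk D x) hτA (hNv v)
    rw [← hDm] at h1
    have h2 : ((Dm ∩ Q292.LC.box v r).card : ℝ) ≤ ((Dm ∩ bal v (d * r)).card : ℝ) := by
      exact_mod_cast card_le_card (inter_subset_inter_left (box_sub v r))
    have h3 : N + (8 * ρ + 16 * d) * (K * (N + 1)) / ε ≤
        (1 + 48 * d / ε) * (Z * (K * N)) := by
      have h4 : (ρ : ℝ) ≤ Z := by exact_mod_cast hρ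
      have h5 : (8 * ρ + 16 * d : ℝ) ≤ 24 * d * Z := by nlinarith
      have h6 : (K : ℝ) * (N + 1) ≤ 2 * (K * N) := by nlinarith
      have h7 : (8 * ρ + 16 * d : ℝ) * (K * (N + 1)) ≤ 24 * d * Z * (2 * (K * N)) :=
        mul_le_mul h5 h6 (by positivity) (by positivity)
      have h8 : (8 * ρ + 16 * d : ℝ) * (K * (N + 1)) / ε ≤ 24 * d * Z * (2 * (K * N)) / ε :=
        div_le_div_of_nonneg_right h7 hε0.le
      have h10 : N ≤ Z * (K * N) := by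
        have h11 : (1 : ℝ) ≤ Z * K := one_le_mul_of_one_le_of_one_le hZr hKr1
        calc N = 1 * N := (one_mul _).symm
          _ ≤ Z * K * N := mul_le_mul_of_nonneg_right h11 (by linarith)
          _ = _ := by ring
      calc N + (8 * ρ + 16 * d) * (K * (N + 1)) / ε
          ≤ Z * (K * N) + 24 * d * Z * (2 * (K * N)) / ε := add_le_add h10 h8
        _ = (1 + 48 * d / ε) * (Z * (K * N)) := by ring
    have hKN : (Z : ℝ) * (K * N) = M * (Z : ℝ) ^ (d + 2) * y ^ (4 * d) / y := by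
      rw [hN, ← hy8, pow_succ (Z : ℝ) (d + 1)]
      field_simp
    have h4 : y ^ (4 * d) ≤ 2 ^ d * (h : ℝ) ^ d * (r : ℝ) ^ d := by
      rw [hsq] at g3
      calc y ^ (4 * d) = (y ^ 4) ^ d := pow_mul _ _ _
        _ ≤ (2 * h * r) ^ d := pow_le_pow_left₀ (by positivity) g3 d
        _ = _ := by rw [mul_pow, mul_pow]
    have h5 : C1 * (Z : ℝ) ^ (d + 2) * (h : ℝ) ^ d ≤ η * y := by
      refine le_trans ?_ hXy'
      exact mul_le_mul_of_nonneg_right (mul_le_mul_of_nonneg_right hCC1 (by positivity))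
        (by positivity)
    calc ((Dm ∩ Q292.LC.box v r).card : ℝ) ≤ (1 + 48 * d / ε) * (Z * (K * N)) :=
          h2.trans (h1.trans h3)
      _ = ((1 + 48 * d / ε) * M * (Z : ℝ) ^ (d + 2)) * y ^ (4 * d) / y := by
          rw [hKN]
          ring
      _ ≤ ((1 + 48 * d / ε) * M * (Z : ℝ) ^ (d + 2)) * (2 ^ d * (h : ℝ) ^ d * (r : ℝ) ^ d) / y :=
          div_le_div_of_nonneg_right (mul_le_mul_of_nonneg_left h4 (by positivity)) hy0.le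
      _ = (C1 * (Z : ℝ) ^ (d + 2) * (h : ℝ) ^ d) * (r : ℝ) ^ d / y := by
          rw [hC1]
          ring
      _ ≤ (η * y) * (r : ℝ) ^ d / y :=
          div_le_div_of_nonneg_right (mul_le_mul_of_nonneg_right h5 (by positivity)) hy0.le
      _ = η * (r : ℝ) ^ d := by field_simp
  refine ⟨g1, g2, g3, hcard, fun z w hw hw1 => ?_⟩
  have hhalf : ∀ v, 2 * (Dm ∩ Q292.LC.box v r).card ≤ r ^ d := by
    intro v
    have h1 := hcard v
    have h2 : η * (r : ℝ) ^ d ≤ 1 / 2 * (r : ℝ) ^ d :=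
      mul_le_mul_of_nonneg_right hη (by positivity)
    have h3 : 2 * ((Dm ∩ Q292.LC.box v r).card : ℝ) ≤ (r : ℝ) ^ d := by linarith
    exact_mod_cast h3
  rw [hDm] at hhalf ⊢
  refine (lam_res hNEA hENG hCD (fun L _ r => hDy L r) hd hL σ hσ ω A hδ0.le hδ11 hp0 hε0.le g1 g2
    g4 hpp h8ε hhalf z w hw hw1).trans ?_
  rw [hKd, hpy]
  have hr0 : (0 : ℝ) < r := by exact_mod_cast g1
  calc 4 * (CD / (r : ℝ) ^ (2 * d) * (16 / (1 / (y ^ (4 * d) * Cf)))) =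
        (64 * CD * Cf) * y ^ (4 * d) / (r : ℝ) ^ (2 * d) := by
          field_simp
          ring
    _ ≤ C * y ^ (4 * d) / (r : ℝ) ^ (2 * d) :=
        div_le_div_of_nonneg_right (mul_le_mul_of_nonneg_right (by linarith) (by positivity))
          (by positivity)

end Pool.Agent.Helper76.LC
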