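import Pool.Agent.Helper76.LC.Halve

set_option autoImplicit false

/-!
# The reduction of circuits with few paths to low rank plus sparse
-/

namespace Pool.Agent.Helper76.LC

open Finset

namespace LinCircuit

variable {F : Type} [Field F] {n : ℕ} (C : LinCircuit F n)

/-- the values if the nodes in `T` are set to zero -/
def IsVal0 (T : Finset C.V) (g : C.V → Fin n → F) : Prop := ∀ v, g v =
  if v ∈ T then 0 else
  match C.lab v with
  | some j => Pi.single j 1
  | none => ∑ u ∈ C.pre v, C.wt u v • g u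

theorem exists_val0 (T : Finset C.V) : ∃ g, C.IsVal0 T g := by
  refine C.exists_sol (fun v g => if v ∈ T then 0 else
    match C.lab v with
    | some j => Pi.single j 1
    | none => ∑ u ∈ C.pre v, C.wt u v • g u) ?_
  intro v f g h
  have : ∑ u ∈ C.pre v, C.wt u v • f u = ∑ u ∈ C.pre v, C.wt u v • g u :=
    sum_congr rfl fun u hu => by rw [h u hu]
  simp only [this]

theorem sub_mem_span (T : Finset C.V) (val g : C.V → Fin n → F) (hval : C.IsVal val)
    (hg : C.IsVal0 T g) : ∀ v, val v - g v ∈ Submodule.span F (val '' (T : Set C.V)) := by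
  refine C.ind fun v ih => ?_
  rw [hg v]
  by_cases hv : v ∈ T
  · rw [if_pos hv, sub_zero]
    exact Submodule.subset_span ⟨v, hv, rfl⟩
  · rw [if_neg hv, hval v]
    rcases hl : C.lab v with _ | j
    · simp only
      rw [← sum_sub_distrib]
      refine Submodule.sum_mem _ fun u hu => ?_
      rw [← smul_sub]
      exact Submodule.smul_mem _ _ (ih u hu)
    · simp

theorem rank_le_card (T : Finset C.V) (val : C.V → Fin n → F) (M : Matrix (Fin n) (Fin n) F)
    (hM : ∀ i, M i ∈ Submodule.span F (val '' (T : Set C.V))) : M.rank ≤ T.card := by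
  classical
  rw [Matrix.rank_eq_finrank_span_row]
  have h1 : Submodule.span F (Set.range M.row) ≤ Submodule.span F (val '' (T : Set C.V)) := by
    rw [Submodule.span_le]
    rintro _ ⟨i, rfl⟩
    exact hM i
  have h2 : (val '' (T : Set C.V)) = ((T.image val : Finset _) : Set _) := by
    rw [coe_image]
  rw [h2] at h1
  refine (Submodule.finrank_mono h1).trans ((finrank_span_finset_le_card _).trans ?_)
  exact card_image_le

section count

variable {C} {T₀ : Finset C.V} {a : C.V → ℕ} (ha : C.IsCount T₀ a)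

include ha

theorem count_le {u v : C.V} (hu : u ∈ C.pre v) (hv : v ∉ T₀) : a u ≤ a v := by
  rw [ha v, if_neg hv]
  have := single_le_sum (f := a) (fun _ _ => Nat.zero_le _) hu
  omega

theorem count_two {u u' v : C.V} (hu : u ∈ C.pre v) (hu' : u' ∈ C.pre v) (hne : u ≠ u')
    (hv : v ∉ T₀) : a u + a u' ≤ a v := by
  rw [ha v, if_neg hv]
  have h1 : ∑ w ∈ ({u, u'} : Finset C.V), a w ≤ ∑ w ∈ C.pre v, a w := by
    refine sum_le_sum_of_subset ?_
    intro w hw
    rw [mem_insert, mem_singleton] at hw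
    rcases hw with rfl | rfl
    · exact hu
    · exact hu'
  rw [sum_pair hne] at h1
  omega

theorem val0_zero {T : Finset C.V} (hT : T₀ ⊆ T) {g : C.V → Fin n → F} (hg : C.IsVal0 T g) :
    ∀ v, a v = 0 → g v = 0 := by
  refine C.ind fun v ih => ?_
  intro hv
  rw [hg v]
  by_cases hvT : v ∈ T
  · rw [if_pos hvT]
  · rw [if_neg hvT]
    have hv0 : v ∉ T₀ := fun h => hvT (hT h)
    rw [ha v, if_neg hv0, Nat.add_eq_zero_iff] at hv
    rcases hl : C.lab v with _ | j
    · simp only
      refine sum_eq_zero fun u hu => ?_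
      rw [ih u hu ((sum_eq_zero_iff.mp hv.2) u hu), smul_zero]
    · rw [hl] at hv
      simp at hv

/-- the in-neighbours with a count of the same order of magnitude -/
def flat (a : C.V → ℕ) (v : C.V) : Finset C.V :=
  (C.pre v).filter fun u => 0 < a u ∧ Nat.log 2 (a u) = Nat.log 2 (a v)

theorem flat_eq {u v : C.V} (hv : v ∉ T₀) (hu : u ∈ flat a v) : flat a v = {u} := by
  rw [eq_singleton_iff_unique_mem]
  refine ⟨hu, fun u' hu' => ?_⟩
  by_contra hne
  rw [flat, mem_filter] at hu hu'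
  have h1 := count_two ha hu'.1 hu.1 hne hv
  have h2 := Nat.pow_log_le_self 2 hu.2.1.ne'
  have h3 := Nat.pow_log_le_self 2 hu'.2.1.ne'
  rw [hu.2.2] at h2
  rw [hu'.2.2] at h3
  have h4 := Nat.lt_pow_succ_log_self (b := 2) (by norm_num) (a v)
  rw [pow_succ] at h4
  omega

end count

/-- the length of the flat chain which ends at a node -/
theorem exists_chain (a : C.V → ℕ) : ∃ d : C.V → ℕ, ∀ v, d v =
    ∑ u ∈ flat a v, (d u + 1) := by
  refine C.exists_sol (fun v d => ∑ u ∈ flat a v, (d u + 1)) ?_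
  intro v f g h
  refine sum_congr rfl fun u hu => ?_
  rw [h u (mem_filter.mp hu).1]

theorem exists_color (d : C.V → ℕ) (k : ℕ) (hk : 1 ≤ k) : ∃ ρ < k,
    k * (univ.filter fun v => d v % k = ρ).card ≤ Fintype.card C.V := by
  by_contra hcon
  push Not at hcon
  have h1 : ∑ ρ ∈ range k, Fintype.card C.V <
      ∑ ρ ∈ range k, k * (univ.filter fun v => d v % k = ρ).card :=
    sum_lt_sum_of_nonempty ⟨0, mem_range.mpr hk⟩ fun ρ hρ => hcon ρ (mem_range.mp hρ)
  rw [sum_const, card_range, ← mul_sum, smul_eq_mul] at h1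
  have h2 : ∑ ρ ∈ range k, (univ.filter fun v => d v % k = ρ).card = Fintype.card C.V := by
    rw [← card_univ, eq_comm]
    exact card_eq_sum_card_fiberwise (f := fun v => d v % k) fun v _ => by
      simpa using Nat.mod_lt _ hk
  rw [h2] at h1
  exact absurd h1 (lt_irrefl _)

theorem sum_pre : ∑ v, (C.pre v).card = C.E.card := by
  have h : C.E = univ.biUnion fun v => (C.pre v).image fun u => (u, v) := by
    ext ⟨u, v⟩
    simp [mem_pre]
  conv_rhs => rw [h]
  rw [card_biUnion]
  · refine sum_congr rfl fun v _ => ?_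
    rw [card_image_of_injective]
    intro x y hxy
    exact (Prod.mk.inj hxy).1
  · intro v _ w _ hne
    rw [Function.onFun, Finset.disjoint_left]
    intro e h1 h2
    rw [mem_image] at h1 h2
    obtain ⟨x, _, rfl⟩ := h1
    obtain ⟨y, _, hy⟩ := h2
    exact hne (Prod.mk.inj hy).2.symm

theorem high_card (Δ : ℕ) : (univ.filter fun v => Δ < (C.pre v).card).card * (Δ + 1) ≤ C.E.card := by
  rw [← C.sum_pre]
  calc (univ.filter fun v => Δ < (C.pre v).card).card * (Δ + 1)
      = ∑ v ∈ univ.filter (fun v => Δ < (C.pre v).card), (Δ + 1) := by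
        rw [sum_const, smul_eq_mul]
    _ ≤ ∑ v ∈ univ.filter (fun v => Δ < (C.pre v).card), (C.pre v).card :=
        sum_le_sum fun v hv => (mem_filter.mp hv).2
    _ ≤ ∑ v, (C.pre v).card := sum_le_sum_of_subset (filter_subset _ _)

theorem step_mod {k ρ d : ℕ} (hk : 1 ≤ k) (hρ : ρ < k) (h : (d + 1) % k ≠ ρ) :
    (d + 1 + (k - ρ)) % k = (d + (k - ρ)) % k + 1 := by
  have h1 : d + 1 + (k - ρ) = (d + (k - ρ)) + 1 := by ring
  rw [h1, Nat.add_mod (d + (k - ρ)) 1 k]
  have h0 : (d + (k - ρ)) % k < k := Nat.mod_lt _ hk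
  have h2 : (d + (k - ρ) + 1) % k ≠ 0 := by
    intro h3
    apply h
    have h4 : k ∣ d + (k - ρ) + 1 := Nat.dvd_of_mod_eq_zero h3
    have h40 : k ≤ d + (k - ρ) + 1 := Nat.le_of_dvd (by omega) h4
    have h5 : d + 1 = (d + (k - ρ) + 1) - k + ρ := by omega
    have h6 : k ∣ (d + (k - ρ) + 1) - k := Nat.dvd_sub h4 (dvd_refl k)
    obtain ⟨c, hc⟩ := h6
    rw [h5, hc, Nat.mul_add_mod, Nat.mod_eq_of_lt hρ]
  rw [Nat.add_mod] at h2
  rcases Nat.lt_or_ge 1 k with h7 | h7
  · rw [Nat.mod_eq_of_lt h7] at h2 ⊢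
    rcases Nat.lt_or_ge ((d + (k - ρ)) % k + 1) k with h8 | h8
    · exact Nat.mod_eq_of_lt h8
    · have h9 : (d + (k - ρ)) % k + 1 = k := by omega
      rw [h9, Nat.mod_self] at h2
      exact absurd rfl h2
  · have h8 : k = 1 := by omega
    subst h8
    exact absurd (Nat.mod_one _) h2

/-- The combinatorial core: after the removal of few nodes the count of few paths gives a labelling
with few values which increases along the remaining edges. -/
theorem labelling {T₀ : Finset C.V} {a : C.V → ℕ} (ha : C.IsCount T₀ a) (ℓ t k Δ : ℕ) (ht : t ≤ ℓ)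
    (hk : 1 ≤ k) : ∃ (T₁ T₂ T₃ : Finset C.V) (g : C.V → ℕ),
      T₁.card * (Δ + 1) ≤ C.E.card ∧ T₂.card * (ℓ - t + 1) ≤ t * C.E.card ∧
      k * T₃.card ≤ Fintype.card C.V ∧
      (∀ v, v ∉ T₁ → (C.pre v).card ≤ Δ) ∧
      (∀ u v, u ∈ C.pre v → v ∉ T₀ → v ∉ T₂ → v ∉ T₃ → 0 < a u → g u < g v) ∧
      (∀ v, a v < 2 ^ (2 ^ ℓ) → g v < 2 ^ (ℓ - t) * k) := by
  classical
  obtain ⟨d, hd⟩ := C.exists_chain a
  obtain ⟨ρ, hρ, hcol⟩ := C.exists_color d k hk
  set 𝓔 : Finset (C.V × C.V) := C.E.filter fun e => e.2 ∉ T₀ ∧ 0 < a e.1 ∧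
    Nat.log 2 (a e.1) < Nat.log 2 (a e.2) with h𝓔
  obtain ⟨R, hR, φ, h1, h2, h3⟩ := halves t ℓ (fun v => Nat.log 2 (a v)) 𝓔 ht
    (fun e he => (mem_filter.mp he).2.2.2)
  refine ⟨univ.filter fun v => Δ < (C.pre v).card, R.image Prod.snd,
    univ.filter fun v => d v % k = ρ,
    fun v => φ (Nat.log 2 (a v)) * k + (d v + (k - ρ)) % k, C.high_card Δ, ?_, hcol, ?_, ?_, ?_⟩
  · have h4 : (R.image Prod.snd).card ≤ R.card := card_image_le
    calc (R.image Prod.snd).card * (ℓ - t + 1) ≤ R.card * (ℓ - t + 1) := Nat.mul_le_mul_right _ h4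
      _ ≤ t * 𝓔.card := h1
      _ ≤ t * C.E.card := Nat.mul_le_mul_left _ (card_le_card (filter_subset _ _))
  · intro v hv
    rw [mem_filter, not_and] at hv
    exact not_lt.mp (hv (mem_univ v))
  · intro u v hu hv0 hv2 hv3 hau
    have hle : Nat.log 2 (a u) ≤ Nat.log 2 (a v) := Nat.log_mono_right (count_le ha hu hv0)
    simp only
    rcases Nat.lt_or_ge (Nat.log 2 (a u)) (Nat.log 2 (a v)) with hlt | hge
    · have hmem : (u, v) ∈ 𝓔 := by
        rw [h𝓔, mem_filter]
        exact ⟨C.mem_pre.mp hu, hv0, hau, hlt⟩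
      have hnR : (u, v) ∉ R := fun h => hv2 (mem_image.mpr ⟨(u, v), h, rfl⟩)
      have h5 := h3 (u, v) (mem_sdiff.mpr ⟨hmem, hnR⟩)
      simp only at h5
      have h6 : (d u + (k - ρ)) % k < k := Nat.mod_lt _ hk
      calc φ (Nat.log 2 (a u)) * k + (d u + (k - ρ)) % k < φ (Nat.log 2 (a u)) * k + k := by omega
        _ = (φ (Nat.log 2 (a u)) + 1) * k := by ring
        _ ≤ φ (Nat.log 2 (a v)) * k := Nat.mul_le_mul_right _ h5
        _ ≤ _ := Nat.le_add_right _ _
    · have heq : Nat.log 2 (a u) = Nat.log 2 (a v) := le_antisymm hle hge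
      have hfl : u ∈ flat a v := mem_filter.mpr ⟨hu, hau, heq⟩
      have hdv : d v = d u + 1 := by
        rw [hd v, flat_eq ha hv0 hfl, sum_singleton]
      have hne : (d u + 1) % k ≠ ρ := by
        intro h
        apply hv3
        rw [mem_filter, hdv]
        exact ⟨mem_univ v, h⟩
      rw [heq, hdv, step_mod hk hρ hne]
      omega
  · intro v hv
    have h4 : Nat.log 2 (a v) < 2 ^ ℓ := by
      rcases Nat.eq_zero_or_pos (a v) with h0 | h0
      · rw [h0]; simp
      · exact (Nat.log_lt_iff_lt_pow (by norm_num) h0.ne').mpr hv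
    have h5 := h2 _ h4
    have h6 : (d v + (k - ρ)) % k < k := Nat.mod_lt _ hk
    calc φ (Nat.log 2 (a v)) * k + (d v + (k - ρ)) % k < φ (Nat.log 2 (a v)) * k + k := by omega
      _ = (φ (Nat.log 2 (a v)) + 1) * k := by ring
      _ ≤ 2 ^ (ℓ - t) * k := Nat.mul_le_mul_right _ h5

open Classical in
/-- Every circuit in which few paths reach the outputs computes a matrix of the form low rank plus
sparse. -/
theorem reduction {A : Matrix (Fin n) (Fin n) F} (hA : C.Computes A) {T₀ : Finset C.V}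
    {a : C.V → ℕ} (ha : C.IsCount T₀ a) (ℓ t k Δ : ℕ) (ht : t ≤ ℓ) (hk : 1 ≤ k) (hΔ : 1 ≤ Δ)
    (hN : ∀ i, a (C.out i) < 2 ^ (2 ^ ℓ)) :
    ∃ (R S : Matrix (Fin n) (Fin n) F) (r₁ r₂ r₃ : ℕ), A = R + S ∧
      R.rank ≤ T₀.card + (r₁ + r₂ + r₃) ∧ r₁ * (Δ + 1) ≤ C.E.card ∧
      r₂ * (ℓ - t + 1) ≤ t * C.E.card ∧ k * r₃ ≤ Fintype.card C.V ∧
      ∀ i, (univ.filter fun j => S i j ≠ 0).card ≤ Δ ^ (2 ^ (ℓ - t) * k) := by
  obtain ⟨T₁, T₂, T₃, g, c1, c2, c3, hpre, hg, hgb⟩ := C.labelling ha ℓ t k Δ ht hk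
  set T := T₀ ∪ (T₁ ∪ T₂ ∪ T₃) with hT
  have hT0 : T₀ ⊆ T := subset_union_left
  obtain ⟨val, hval, hout⟩ := hA
  obtain ⟨f, hf⟩ := C.exists_val0 T
  have hsupp : ∀ v, v ∉ T → (univ.filter fun j => f v j ≠ 0).card ≤ Δ ^ g v := by
    refine C.ind fun v ih => ?_
    intro hvT
    have hv0 : v ∉ T₀ := fun h => hvT (hT0 h)
    have hv1 : v ∉ T₁ := fun h => hvT (by simp [hT, h])
    have hv2 : v ∉ T₂ := fun h => hvT (by simp [hT, h])
    have hv3 : v ∉ T₃ := fun h => hvT (by simp [hT, h])
    have hfv := hf v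
    rw [if_neg hvT] at hfv
    rcases hl : C.lab v with _ | j
    · rw [hl] at hfv
      simp only at hfv
      have hsub : (univ.filter fun j => f v j ≠ 0) ⊆
          (C.pre v).biUnion fun u => univ.filter fun j => f u j ≠ 0 := by
        intro j hj
        rw [mem_filter] at hj
        rw [mem_biUnion]
        by_contra hcon
        push Not at hcon
        apply hj.2
        rw [hfv, Finset.sum_apply]
        refine sum_eq_zero fun u hu => ?_
        have h0 : f u j = 0 := by
          by_contra h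
          exact hcon u hu (mem_filter.mpr ⟨mem_univ j, h⟩)
        rw [Pi.smul_apply, h0, smul_zero]
      have hpos : ∀ u ∈ C.pre v, (univ.filter fun j => f u j ≠ 0).card ≤ Δ ^ (g v - 1) := by
        intro u hu
        by_cases huT : u ∈ T
        · have : f u = 0 := by rw [hf u, if_pos huT]
          rw [this]; simp
        · rcases Nat.eq_zero_or_pos (a u) with h0 | h0
          · rw [val0_zero ha hT0 hf u h0]; simp
          · refine (ih u hu huT).trans (Nat.pow_le_pow_right hΔ ?_)
            have := hg u v hu hv0 hv2 hv3 h0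
            omega
      by_cases hall : ∀ u ∈ C.pre v, f u = 0
      · have : f v = 0 := by
          rw [hfv]
          exact sum_eq_zero fun u hu => by rw [hall u hu, smul_zero]
        rw [this]; simp
      · push Not at hall
        obtain ⟨u, hu, hune⟩ := hall
        have hau : 0 < a u := by
          by_contra h
          exact hune (val0_zero ha hT0 hf u (by omega))
        have hlt := hg u v hu hv0 hv2 hv3 hau
        calc (univ.filter fun j => f v j ≠ 0).card
            ≤ ∑ u ∈ C.pre v, (univ.filter fun j => f u j ≠ 0).card :=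
              (card_le_card hsub).trans card_biUnion_le
          _ ≤ ∑ u ∈ C.pre v, Δ ^ (g v - 1) := sum_le_sum hpos
          _ = (C.pre v).card * Δ ^ (g v - 1) := by rw [sum_const, smul_eq_mul]
          _ ≤ Δ * Δ ^ (g v - 1) := Nat.mul_le_mul_right _ (hpre v hv1)
          _ = Δ ^ g v := by rw [← pow_succ']; congr 1; omega
    · rw [hl] at hfv
      simp only at hfv
      have : (univ.filter fun j' => f v j' ≠ 0) ⊆ {j} := by
        intro j' hj'
        rw [mem_filter, hfv] at hj'
        rw [mem_singleton]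
        by_contra hne
        exact hj'.2 (by rw [Pi.single_eq_of_ne hne])
      refine (card_le_card this).trans ?_
      rw [card_singleton]
      exact Nat.one_le_pow _ _ hΔ
  refine ⟨fun i => val (C.out i) - f (C.out i), fun i => f (C.out i), T₁.card, T₂.card, T₃.card,
    ?_, ?_, c1, c2, c3, ?_⟩
  · ext i j
    have := congrFun (hout i) j
    show A i j = (val (C.out i) - f (C.out i)) j + f (C.out i) j
    rw [← this, Pi.sub_apply, sub_add_cancel]
  · refine (C.rank_le_card T val _ fun i => C.sub_mem_span T val f hval hf _).trans ?_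
    rw [hT]
    have h1 := card_union_le T₀ (T₁ ∪ T₂ ∪ T₃)
    have h2 := card_union_le (T₁ ∪ T₂) T₃
    have h3 := card_union_le T₁ T₂
    omega
  · intro i
    by_cases hiT : C.out i ∈ T
    · have : f (C.out i) = 0 := by rw [hf, if_pos hiT]
      simp only [this]
      simp
    · refine (hsupp _ hiT).trans (Nat.pow_le_pow_right hΔ (hgb _ (hN i)).le)

end LinCircuit

end Pool.Agent.Helper76.LC
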