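import Pool.Agent.Helper76.LC.Sym

set_option autoImplicit false

/-!
# Counting characters, and the arithmetic function `sopfr`
-/

namespace Pool.Agent.Helper76.LC

open Finset

theorem sopfr_one : sopfr 1 = 0 := by simp [sopfr]

theorem sopfr_mul {a b : ℕ} (ha : a ≠ 0) (hb : b ≠ 0) : sopfr (a * b) = sopfr a + sopfr b := by
  unfold sopfr
  rw [(Nat.perm_primeFactorsList_mul ha hb).sum_eq, List.sum_append]

theorem sopfr_prime {p : ℕ} (hp : p.Prime) : sopfr p = p := by
  unfold sopfr
  rw [Nat.primeFactorsList_prime hp]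
  simp

theorem sopfr_le : ∀ a : ℕ, 1 ≤ a → sopfr a ≤ a := by
  intro a
  induction a using Nat.strong_induction_on with
  | _ a ih =>
    intro ha
    rcases Nat.lt_or_ge a 2 with h | h
    · have : a = 1 := by omega
      subst this
      rw [sopfr_one]; omega
    · obtain ⟨p, hp, b, rfl⟩ := Nat.exists_prime_and_dvd (show a ≠ 1 by omega)
      have hb : 0 < b := Nat.pos_of_ne_zero fun h0 => by subst h0; omega
      rw [sopfr_mul hp.ne_zero (by omega), sopfr_prime hp]
      rcases Nat.lt_or_ge b 2 with h1 | h1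
      · have : b = 1 := by omega
        subst this
        rw [sopfr_one]; omega
      · have hp2 := hp.two_le
        have hlt : b < p * b := by nlinarith
        have h3 := ih b hlt (by omega)
        nlinarith

theorem sopfr_two_pow (m : ℕ) : sopfr (2 ^ m) = 2 * m := by
  unfold sopfr
  rw [Nat.Prime.primeFactorsList_pow Nat.prime_two, List.sum_replicate]
  simp [mul_comm]

variable {F : Type} [Field F] {H : Type} [AddCommGroup H] [Fintype H]

theorem card_chars (K : AddSubgroup H) (T : Finset (AddChar H F))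
    (hT : ∀ ψ ∈ T, ∀ ψ' ∈ T, ∀ c ∈ K, ψ c = ψ' c) : T.card * Nat.card K ≤ Fintype.card H := by
  classical
  rcases T.eq_empty_or_nonempty with rfl | ⟨ψ₀, h0⟩
  · simp
  have hK : Nat.card (H ⧸ K) * Nat.card K = Fintype.card H := by
    rw [← Nat.card_eq_fintype_card, ← AddSubgroup.card_eq_card_quotient_mul_card_addSubgroup]
  rw [← hK]
  refine Nat.mul_le_mul_right _ ?_
  have : Fintype (H ⧸ K) := Fintype.ofFinite _
  let L : (H ⧸ K → F) →ₗ[F] (Multiplicative H → F) :=
    { toFun := fun w g => ψ₀ g.toAdd * w (QuotientAddGroup.mk g.toAdd)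
      map_add' := by intro w w'; funext g; simp [mul_add]
      map_smul' := by intro a w; funext g; simp [mul_left_comm] }
  have hmem : ∀ ψ : T, (fun g : Multiplicative H => ψ.1 g.toAdd) ∈ LinearMap.range L := by
    intro ψ
    refine ⟨fun q => Quotient.liftOn' q (fun g => ψ.1 g * ψ₀ (-g)) ?_, ?_⟩
    · intro a b hab
      rw [QuotientAddGroup.leftRel_apply] at hab
      have h1 := hT ψ.1 ψ.2 ψ₀ h0 _ hab
      have h2 : ψ.1 b = ψ.1 a * ψ.1 (-a + b) := by
        rw [← AddChar.map_add_eq_mul]; congr 1; abel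
      have h3 : ψ₀ (-a) = ψ₀ (-a + b) * ψ₀ (-b) := by
        rw [← AddChar.map_add_eq_mul]; congr 1; abel
      show ψ.1 a * ψ₀ (-a) = ψ.1 b * ψ₀ (-b)
      rw [h2, h3, h1]
      ring
    · funext g
      show ψ₀ g.toAdd * (ψ.1 g.toAdd * ψ₀ (-g.toAdd)) = ψ.1 g.toAdd
      rw [mul_left_comm, ← AddChar.map_add_eq_mul, add_neg_cancel, AddChar.map_zero_eq_one, mul_one]
  have hli : LinearIndependent F (fun ψ : T => (⟨_, hmem ψ⟩ : LinearMap.range L)) := by
    apply LinearIndependent.of_comp (Submodule.subtype _)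
    have h1 := (linearIndependent_monoidHom (Multiplicative H) F).comp
      (fun ψ : T => ψ.1.toMonoidHom) (by
        intro a b hab
        apply Subtype.ext
        apply AddChar.ext
        intro x
        exact DFunLike.congr_fun hab (Multiplicative.ofAdd x))
    exact h1
  have h1 := hli.fintype_card_le_finrank
  rw [Fintype.card_coe] at h1
  refine h1.trans ?_
  calc Module.finrank F (LinearMap.range L) ≤ Module.finrank F (H ⧸ K → F) :=
        LinearMap.finrank_range_le L
    _ = Nat.card (H ⧸ K) := by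
        rw [Module.finrank_fintype_fun_eq_card, Nat.card_eq_fintype_card]

/-- The inequality for a pair of subgroups. -/
theorem pair_bound (A B : AddSubgroup H) :
    Nat.card (A ⊓ B : AddSubgroup H) * (sopfr (Nat.card B) - sopfr (Nat.card A)) ≤
      Nat.card (A ⊔ B : AddSubgroup H) := by
  classical
  have hpos : ∀ K : AddSubgroup H, 0 < Nat.card K := fun K => Nat.card_pos
  obtain ⟨b, hb⟩ := AddSubgroup.card_dvd_of_le (inf_le_right : A ⊓ B ≤ B)
  obtain ⟨a, ha⟩ := AddSubgroup.card_dvd_of_le (inf_le_left : A ⊓ B ≤ A)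
  have hb0 : b ≠ 0 := by rintro rfl; have := hpos B; omega
  have ha0 : a ≠ 0 := by rintro rfl; have := hpos A; omega
  have h0 : Nat.card (A ⊓ B : AddSubgroup H) ≠ 0 := (hpos _).ne'
  rw [hb, ha, sopfr_mul h0 hb0, sopfr_mul h0 ha0]
  have h1 : sopfr b ≤ b := sopfr_le b (Nat.pos_of_ne_zero hb0)
  have h2 : Nat.card B ≤ Nat.card (A ⊔ B : AddSubgroup H) :=
    AddSubgroup.card_le_of_le le_sup_right
  calc Nat.card (A ⊓ B : AddSubgroup H) * (sopfr (Nat.card (A ⊓ B : AddSubgroup H)) + sopfr b -
        (sopfr (Nat.card (A ⊓ B : AddSubgroup H)) + sopfr a))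
      ≤ Nat.card (A ⊓ B : AddSubgroup H) * b := by
        refine Nat.mul_le_mul_left _ ?_
        omega
    _ = Nat.card B := hb.symm
    _ ≤ _ := h2

end Pool.Agent.Helper76.LC
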