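import Pool.Agent.Helper76.LC.SymB

set_option autoImplicit false

/-!
# The lower bound for symmetric linear circuits
-/

namespace Pool.Agent.Helper76.LC

open Finset

variable {F : Type} [Field F] {n : ℕ} {H : Type} [AddCommGroup H] [Fintype H]
  {τ : H → Equiv.Perm (Fin n)}

/-- level of a form -/
noncomputable def lev (hadd : ∀ c d i, τ (c + d) i = τ c (τ d i)) (f : Fin n → F) : ℕ :=
  sopfr (Nat.card (St hadd f))

theorem lev_single (hadd : ∀ c d i, τ (c + d) i = τ c (τ d i)) (hfree : ∀ c i, τ c i = i → c = 0)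
    (j : Fin n) : lev hadd (Pi.single j (1 : F)) = 0 := by
  have : St hadd (Pi.single j (1 : F)) = ⊥ := by
    rw [eq_bot_iff]
    rintro c ⟨l, hl, h⟩
    have h1 := h j
    rw [Pi.single_eq_same, mul_one] at h1
    rw [AddSubgroup.mem_bot]
    refine hfree c j ?_
    by_contra hne
    rw [Pi.single_eq_of_ne hne] at h1
    exact hl h1.symm
  unfold lev
  rw [this]
  simp [sopfr_one]

variable (C : LinCircuit F n) {val : C.V → Fin n → F}

/-- the tails of the crossing edges -/
def Tail (hadd : ∀ c d i, τ (c + d) i = τ c (τ d i)) (val : C.V → Fin n → F) (ψ : AddChar H F)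
    (t : ℕ) (u : C.V) : Prop :=
  Pr τ ψ (val u) ≠ 0 ∧ lev hadd (val u) ≤ t ∧
    ∃ v, (u, v) ∈ C.E ∧ Pr τ ψ (val v) ≠ 0 ∧ t < lev hadd (val v)

theorem span_claim (hadd : ∀ c d i, τ (c + d) i = τ c (τ d i)) (hfree : ∀ c i, τ c i = i → c = 0)
    (hval : C.IsVal val) (ψ : AddChar H F) (t : ℕ) (v : C.V) :
    t < lev hadd (val v) → Pr τ ψ (val v) ∈
      Submodule.span F (Set.range fun u : {u // Tail C hadd val ψ t u} => Pr τ ψ (val u.1)) := by
  refine C.ind (P := fun v => t < lev hadd (val v) → Pr τ ψ (val v) ∈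
      Submodule.span F (Set.range fun u : {u // Tail C hadd val ψ t u} => Pr τ ψ (val u.1))) ?_ v
  intro v ih hv
  by_cases h0 : Pr τ ψ (val v) = 0
  · rw [h0]; exact Submodule.zero_mem _
  have e := hval v
  cases hl : C.lab v with
  | some j =>
    rw [hl] at e
    simp only at e
    rw [e, lev_single hadd hfree] at hv
    omega
  | none =>
    rw [hl] at e
    simp only at e
    have e2 : Pr τ ψ (val v) = ∑ u ∈ C.pre v, C.wt u v • Pr τ ψ (val u) := by
      conv_lhs => rw [e]
      rw [map_sum]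
      exact sum_congr rfl fun u _ => by rw [map_smul]
    rw [e2]
    refine Submodule.sum_mem _ fun u hu => Submodule.smul_mem _ _ ?_
    by_cases hu0 : Pr τ ψ (val u) = 0
    · rw [hu0]; exact Submodule.zero_mem _
    by_cases ht : lev hadd (val u) ≤ t
    · exact Submodule.subset_span ⟨⟨u, hu0, ht, v, C.mem_pre.mp hu, h0, hv⟩, rfl⟩
    · exact ih u hu (not_le.mp ht)

open Classical in
/-- the crossing edges -/
noncomputable def crossing (hadd : ∀ c d i, τ (c + d) i = τ c (τ d i)) (val : C.V → Fin n → F)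
    (ψ : AddChar H F) (t : ℕ) : Finset (C.V × C.V) :=
  C.E.filter fun e => Pr τ ψ (val e.1) ≠ 0 ∧ Pr τ ψ (val e.2) ≠ 0 ∧
    lev hadd (val e.1) ≤ t ∧ t < lev hadd (val e.2)

theorem act_congr (hadd : ∀ c d i, τ (c + d) i = τ c (τ d i)) {ψ : AddChar H F} {f g : Fin n → F}
    {c : H} {l : F} (hl : l ≠ 0) (h : ∀ j, g (τ c j) = l * f j) :
    Pr τ ψ g = (l / ψ c) • Pr τ ψ f := by
  funext j
  have h1 := Pr_comm hadd ψ h j
  have h2 := psi_ne ψ c
  simp only [Pi.smul_apply, smul_eq_mul]
  field_simp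
  linear_combination h1

theorem sub_mem_St (hadd : ∀ c d i, τ (c + d) i = τ c (τ d i)) {f g : Fin n → F} {c d : H}
    {l m : F} (hl : l ≠ 0) (hm : m ≠ 0) (h1 : ∀ j, g (τ c j) = l * f j)
    (h2 : ∀ j, g (τ d j) = m * f j) : c - d ∈ St hadd g := by
  refine ⟨l / m, div_ne_zero hl hm, fun i => ?_⟩
  obtain ⟨j, rfl⟩ := (τ d).surjective i
  rw [← hadd, sub_add_cancel, h1, h2]
  field_simp

theorem count (hadd : ∀ c d i, τ (c + d) i = τ c (τ d i)) (hC : C.Symm τ) (hval : C.IsVal val)
    (ψ : AddChar H F) (t : ℕ) {ι : Type} [Fintype ι] (w : ι → Fin n → F)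
    (hw : LinearIndependent F w)
    (hspan : ∀ i, w i ∈
      Submodule.span F (Set.range fun u : {u // Tail C hadd val ψ t u} => Pr τ ψ (val u.1))) :
    Fintype.card ι * Fintype.card H ≤ ∑ e ∈ crossing C hadd val ψ t,
      Nat.card (St hadd (val e.1) ⊓ St hadd (val e.2) : AddSubgroup H) := by
  classical
  obtain ⟨κ, a, ha, has, hal⟩ := exists_linearIndependent' F
    (fun u : {u // Tail C hadd val ψ t u} => Pr τ ψ (val u.1))
  have hfin : Finite κ := Finite.of_injective a ha
  have : Fintype κ := Fintype.ofFinite κ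
  have hcard : Fintype.card ι ≤ Fintype.card κ := by
    rw [← finrank_span_eq_card hw, ← finrank_span_eq_card hal]
    refine Submodule.finrank_mono ?_
    rw [has, Submodule.span_le]
    rintro _ ⟨i, rfl⟩
    exact hspan i
  choose vv hvE hvA hvL using fun u : {u // Tail C hadd val ψ t u} => u.2.2.2
  choose α hα hlc using fun c => LinCircuit.symm_val (val := val) hC hval c
  choose lc hlc0 hlc using hlc
  let m : κ × H → C.V × C.V := fun p => (α p.2 (a p.1).1, α p.2 (vv (a p.1)))
  have hm : ∀ p ∈ (univ : Finset (κ × H)), m p ∈ crossing C hadd val ψ t := by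
    rintro ⟨j, c⟩ -
    have hψ := psi_ne ψ c
    simp only [m, crossing, mem_filter]
    refine ⟨hα c _ _ (hvE (a j)), ?_, ?_, ?_, ?_⟩
    · rw [act_congr hadd (hlc0 c _) (hlc c _)]
      exact smul_ne_zero (div_ne_zero (hlc0 c _) hψ) (a j).2.1
    · rw [act_congr hadd (hlc0 c _) (hlc c _)]
      exact smul_ne_zero (div_ne_zero (hlc0 c _) hψ) (hvA (a j))
    · unfold lev
      rw [St_congr hadd (hlc0 c _) (hlc c _)]
      exact (a j).2.2.1
    · unfold lev
      rw [St_congr hadd (hlc0 c _) (hlc c _)]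
      exact hvL (a j)
  have hsum := card_eq_sum_card_fiberwise hm
  rw [card_univ, Fintype.card_prod] at hsum
  refine (Nat.mul_le_mul_right _ hcard).trans ?_
  rw [hsum]
  refine sum_le_sum fun b _ => ?_
  rcases (univ.filter fun p => m p = b).eq_empty_or_nonempty with h | ⟨⟨j₀, c₀⟩, h⟩
  · rw [h]; simp
  have h₀ : m (j₀, c₀) = b := (mem_filter.mp h).2
  have hb1 : α c₀ (a j₀).1 = b.1 := congrArg Prod.fst h₀
  have hb2 : α c₀ (vv (a j₀)) = b.2 := congrArg Prod.snd h₀
  have key : ∀ p ∈ univ.filter (fun p => m p = b), p.1 = j₀ ∧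
      p.2 - c₀ ∈ (St hadd (val b.1) ⊓ St hadd (val b.2) : AddSubgroup H) := by
    rintro ⟨j, c⟩ hp
    have hp' : m (j, c) = b := (mem_filter.mp hp).2
    have hp1 : α c (a j).1 = b.1 := congrArg Prod.fst hp'
    have hp2 : α c (vv (a j)) = b.2 := congrArg Prod.snd hp'
    have hj : j = j₀ := by
      have e1 := act_congr (ψ := ψ) hadd (hlc0 c _) (hlc c (a j).1)
      have e2 := act_congr (ψ := ψ) hadd (hlc0 c₀ _) (hlc c₀ (a j₀).1)
      rw [hp1] at e1
      rw [hb1, e1] at e2
      exact hal.eq_of_smul_apply_eq_smul_apply _ _ _ _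
        (div_ne_zero (hlc0 c _) (psi_ne ψ c)) e2
    subst hj
    refine ⟨rfl, ?_⟩
    rw [AddSubgroup.mem_inf]
    constructor
    · have e1 := hlc c (a j).1
      have e2 := hlc c₀ (a j).1
      rw [hp1] at e1
      rw [hb1] at e2
      exact sub_mem_St hadd (hlc0 c _) (hlc0 c₀ _) e1 e2
    · have e1 := hlc c (vv (a j))
      have e2 := hlc c₀ (vv (a j))
      rw [hp2] at e1
      rw [hb2] at e2
      exact sub_mem_St hadd (hlc0 c _) (hlc0 c₀ _) e1 e2
  have hK : Nat.card (St hadd (val b.1) ⊓ St hadd (val b.2) : AddSubgroup H) =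
      (univ.filter fun x : H => x ∈ St hadd (val b.1) ⊓ St hadd (val b.2)).card := by
    rw [Nat.card_eq_fintype_card]
    exact Fintype.card_subtype _
  rw [hK]
  refine card_le_card_of_injOn (fun p => p.2 - c₀) ?_ ?_
  · intro p hp
    rw [mem_coe] at hp
    rw [mem_coe, mem_filter]
    exact ⟨mem_univ _, (key p hp).2⟩
  · intro p hp q hq hpq
    rw [mem_coe] at hp hq
    refine Prod.ext ?_ ?_
    · rw [(key p hp).1, (key q hq).1]
    · exact sub_left_injective hpq

/-- The bound for one edge. -/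
theorem edge_bound (hadd : ∀ c d i, τ (c + d) i = τ c (τ d i)) (f g : Fin n → F)
    (Ψ : Finset (AddChar H F)) (hΨ : ∀ ψ ∈ Ψ, Pr τ ψ f ≠ 0 ∧ Pr τ ψ g ≠ 0) :
    Nat.card (St hadd f ⊓ St hadd g : AddSubgroup H) * (Ψ.card * (lev hadd g - lev hadd f)) ≤
      Fintype.card H := by
  have h1 := pair_bound (St hadd f) (St hadd g)
  have h2 : Ψ.card * Nat.card (St hadd f ⊔ St hadd g : AddSubgroup H) ≤ Fintype.card H := by
    refine card_chars _ Ψ ?_
    intro ψ hψ ψ' hψ' c hc
    have hf : ∀ c ∈ St hadd f, ψ c = ψ' c := by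
      rintro c ⟨l, _, h⟩
      rw [char_eq hadd (hΨ ψ hψ).1 h, char_eq hadd (hΨ ψ' hψ').1 h]
    have hg : ∀ c ∈ St hadd g, ψ c = ψ' c := by
      rintro c ⟨l, _, h⟩
      rw [char_eq hadd (hΨ ψ hψ).2 h, char_eq hadd (hΨ ψ' hψ').2 h]
    obtain ⟨x, hx, y, hy, rfl⟩ := AddSubgroup.mem_sup.mp hc
    rw [AddChar.map_add_eq_mul, AddChar.map_add_eq_mul, hf x hx, hg y hy]
  calc Nat.card (St hadd f ⊓ St hadd g : AddSubgroup H) * (Ψ.card * (lev hadd g - lev hadd f))
      = Ψ.card * (Nat.card (St hadd f ⊓ St hadd g : AddSubgroup H) *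
          (lev hadd g - lev hadd f)) := by ring
    _ ≤ Ψ.card * Nat.card (St hadd f ⊔ St hadd g : AddSubgroup H) := Nat.mul_le_mul_left _ h1
    _ ≤ _ := h2

open Classical in
theorem lower_crossing (hadd : ∀ c d i, τ (c + d) i = τ c (τ d i)) (hfree : ∀ c i, τ c i = i → c = 0)
    (hC : C.Symm τ) {A : Matrix (Fin n) (Fin n) F} {val : C.V → Fin n → F}
    (hval : C.IsVal val) (hout : ∀ i, val (C.out i) = A i)
    (hψ : ∀ i, ∃ ψ : AddChar H F, ∀ c j, A i (τ c j) = ψ c * A i j)
    (hn : (Fintype.card H : F) ≠ 0) : A.rank * sopfr (Fintype.card H) ≤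
      (C.E.filter fun e => lev hadd (val e.1) < lev hadd (val e.2) ∧ val e.2 ≠ 0).card := by
  classical
  choose ψ hψ using hψ
  obtain ⟨κ, a, ha, has, hrows⟩ := exists_linearIndependent' F (fun i => A i)
  have hfin : Finite κ := Finite.of_injective a ha
  have : Fintype κ := Fintype.ofFinite κ
  have hκ : Fintype.card κ = A.rank := by
    rw [Matrix.rank_eq_finrank_span_row, ← finrank_span_eq_card hrows, has]
    rfl
  have hpos : 0 < Fintype.card H := Fintype.card_pos_iff.mpr ⟨0⟩
  -- the outputs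
  have hPr : ∀ i, Pr τ (ψ i) (A i) = (Fintype.card H : F) • A i := by
    intro i
    funext j
    rw [Pr_apply]
    have : ∀ c ∈ (univ : Finset H), ψ i (-c) * A i (τ c j) = A i j := by
      intro c _
      rw [hψ, ← mul_assoc, ← AddChar.map_add_eq_mul, neg_add_cancel, AddChar.map_zero_eq_one,
        one_mul]
    rw [sum_congr rfl this, sum_const, card_univ, nsmul_eq_mul]
    rfl
  have hlev : ∀ i, lev hadd (A i) = sopfr (Fintype.card H) := by
    intro i
    have : St hadd (A i) = ⊤ := by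
      rw [eq_top_iff]
      intro c _
      exact ⟨ψ i c, psi_ne _ _, hψ i c⟩
    unfold lev
    rw [this]
    congr 1
    rw [← Nat.card_eq_fintype_card]
    exact AddSubgroup.card_top
  set Ψ : Finset (AddChar H F) := univ.image (fun k : κ => ψ (a k)) with hΨ
  have h1 : ∀ χ ∈ Ψ, ∀ t ∈ range (sopfr (Fintype.card H)),
      (univ.filter fun k : κ => ψ (a k) = χ).card * Fintype.card H ≤ ∑ e ∈ crossing C hadd val χ t,
      Nat.card (St hadd (val e.1) ⊓ St hadd (val e.2) : AddSubgroup H) := by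
    intro χ _ t ht
    have h2 := count C hadd hC hval χ t (ι := {k : κ // ψ (a k) = χ})
      (fun k => (Fintype.card H : F) • A (a k.1)) ?_ ?_
    · rwa [Fintype.card_subtype] at h2
    · have h3 : LinearIndependent F (fun k : {k : κ // ψ (a k) = χ} => A (a k.1)) :=
        hrows.comp _ Subtype.val_injective
      exact h3.units_smul (fun _ => Units.mk0 _ hn)
    · rintro ⟨i, hi⟩
      have h4 := span_claim C hadd hfree hval χ t (C.out (a i)) (by
        rw [hout, hlev]; exact mem_range.mp ht)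
      rw [hout] at h4
      subst hi
      rwa [hPr] at h4
  have h5 : ∑ χ ∈ Ψ, ∑ t ∈ range (sopfr (Fintype.card H)),
      (univ.filter fun k : κ => ψ (a k) = χ).card * Fintype.card H ≤
      ∑ χ ∈ Ψ, ∑ t ∈ range (sopfr (Fintype.card H)), ∑ e ∈ crossing C hadd val χ t,
      Nat.card (St hadd (val e.1) ⊓ St hadd (val e.2) : AddSubgroup H) :=
    sum_le_sum fun χ hχ => sum_le_sum fun t ht => h1 χ hχ t ht
  have h6 : ∑ χ ∈ Ψ, ∑ t ∈ range (sopfr (Fintype.card H)),
      (univ.filter fun k : κ => ψ (a k) = χ).card * Fintype.card H =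
      A.rank * (sopfr (Fintype.card H) * Fintype.card H) := by
    have h7 : ∑ χ ∈ Ψ, (univ.filter fun k : κ => ψ (a k) = χ).card = A.rank := by
      rw [← card_eq_sum_card_fiberwise (f := fun k : κ => ψ (a k)) (s := univ) (t := Ψ)]
      · rw [card_univ, hκ]
      · intro i _
        exact mem_image_of_mem _ (mem_univ _)
    calc _ = ∑ χ ∈ Ψ, (univ.filter fun k : κ => ψ (a k) = χ).card *
          (sopfr (Fintype.card H) * Fintype.card H) := by
          refine sum_congr rfl fun χ _ => ?_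
          rw [sum_const, card_range, smul_eq_mul]
          ring
      _ = _ := by rw [← sum_mul, h7]
  have h8 : ∑ χ ∈ Ψ, ∑ t ∈ range (sopfr (Fintype.card H)), ∑ e ∈ crossing C hadd val χ t,
      Nat.card (St hadd (val e.1) ⊓ St hadd (val e.2) : AddSubgroup H) ≤
      ∑ e ∈ C.E.filter (fun e => lev hadd (val e.1) < lev hadd (val e.2) ∧ val e.2 ≠ 0),
        Fintype.card H := by
    rw [sum_filter]
    calc _ = ∑ e ∈ C.E, ∑ χ ∈ Ψ, ∑ t ∈ range (sopfr (Fintype.card H)),
          if Pr τ χ (val e.1) ≠ 0 ∧ Pr τ χ (val e.2) ≠ 0 ∧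
            lev hadd (val e.1) ≤ t ∧ t < lev hadd (val e.2) then
          Nat.card (St hadd (val e.1) ⊓ St hadd (val e.2) : AddSubgroup H) else 0 := by
          symm
          rw [sum_comm]
          refine sum_congr rfl fun χ _ => ?_
          rw [sum_comm]
          refine sum_congr rfl fun t _ => ?_
          unfold crossing
          rw [sum_filter]
      _ ≤ _ := by
          refine sum_le_sum fun e _ => ?_
          by_cases hlt : lev hadd (val e.1) < lev hadd (val e.2) ∧ val e.2 ≠ 0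
          swap
          · rw [if_neg hlt]
            refine (sum_eq_zero fun χ _ => sum_eq_zero fun t _ => if_neg fun h => hlt ?_).le
            exact ⟨lt_of_le_of_lt h.2.2.1 h.2.2.2, fun h0 => h.2.1 (by rw [h0, map_zero])⟩
          rw [if_pos hlt]
          refine le_trans ?_ (edge_bound hadd (val e.1) (val e.2)
            (Ψ.filter fun χ => Pr τ χ (val e.1) ≠ 0 ∧ Pr τ χ (val e.2) ≠ 0)
            (fun χ hχ => (mem_filter.mp hχ).2))
          generalize Nat.card (St hadd (val e.1) ⊓ St hadd (val e.2) : AddSubgroup H) = a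
          have h10 : a * ((Ψ.filter fun χ => Pr τ χ (val e.1) ≠ 0 ∧ Pr τ χ (val e.2) ≠ 0).card *
              (lev hadd (val e.2) - lev hadd (val e.1))) =
              ∑ χ ∈ Ψ, if Pr τ χ (val e.1) ≠ 0 ∧ Pr τ χ (val e.2) ≠ 0 then
                (lev hadd (val e.2) - lev hadd (val e.1)) * a else 0 := by
            rw [← sum_filter, sum_const, smul_eq_mul]
            ring
          rw [h10]
          refine sum_le_sum fun χ _ => ?_
          by_cases hχ : Pr τ χ (val e.1) ≠ 0 ∧ Pr τ χ (val e.2) ≠ 0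
          · rw [if_pos hχ, ← sum_filter, sum_const, smul_eq_mul]
            refine Nat.mul_le_mul_right _ ?_
            rw [← Nat.card_Ico]
            refine card_le_card fun t ht => ?_
            rw [mem_Ico]
            exact ⟨(mem_filter.mp ht).2.2.2.1, (mem_filter.mp ht).2.2.2.2⟩
          · rw [if_neg hχ]
            refine (sum_eq_zero fun t _ => if_neg fun h => hχ ⟨h.1, h.2.1⟩).le
  have h9 := (h6.symm.le.trans h5).trans h8
  rw [sum_const, smul_eq_mul, ← mul_assoc] at h9
  exact Nat.le_of_mul_le_mul_right h9 hpos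

theorem two_le_pre (hadd : ∀ c d i, τ (c + d) i = τ c (τ d i)) {val : C.V → Fin n → F}
    (hval : C.IsVal val) {u v : C.V} (huv : u ∈ C.pre v)
    (h : lev hadd (val u) < lev hadd (val v)) (hv : val v ≠ 0) : 2 ≤ (C.pre v).card := by
  classical
  by_contra hlt
  have hpos : 0 < (C.pre v).card := card_pos.mpr ⟨u, huv⟩
  have h1 : (C.pre v).card = 1 := by omega
  obtain ⟨w, hw⟩ := card_eq_one.mp h1
  have hwu : u = w := by rw [hw] at huv; exact mem_singleton.mp huv
  subst hwu
  have e := hval v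
  rw [C.lab_pre huv] at e
  simp only at e
  rw [hw, sum_singleton] at e
  by_cases h0 : C.wt u v = 0
  · apply hv
    rw [e, h0, zero_smul]
  · have h2 : St hadd (val v) = St hadd (val u) := by
      refine St_congr (c := 0) hadd h0 fun j => ?_
      rw [tau_zero hadd, e]
      rfl
    unfold lev at h
    rw [h2] at h
    exact lt_irrefl _ h

/-- **Lower bound for symmetric circuits.** -/
theorem lower (hadd : ∀ c d i, τ (c + d) i = τ c (τ d i)) (hfree : ∀ c i, τ c i = i → c = 0)
    (hC : C.Symm τ) {A : Matrix (Fin n) (Fin n) F} (hcomp : C.Computes A)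
    (hψ : ∀ i, ∃ ψ : AddChar H F, ∀ c j, A i (τ c j) = ψ c * A i j)
    (hn : (Fintype.card H : F) ≠ 0) : A.rank * sopfr (Fintype.card H) ≤ C.E.card ∧
      A.rank * sopfr (Fintype.card H) ≤ 2 * C.adds := by
  classical
  obtain ⟨val, hval, hout⟩ := hcomp
  have h := lower_crossing C hadd hfree hC hval hout hψ hn
  refine ⟨h.trans (card_filter_le _ _), h.trans ?_⟩
  unfold LinCircuit.adds
  rw [card_eq_sum_card_fiberwise (f := Prod.snd) (t := univ) (fun _ _ => mem_univ _), mul_sum]
  refine sum_le_sum fun v _ => ?_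
  rcases ((C.E.filter fun e => lev hadd (val e.1) < lev hadd (val e.2) ∧ val e.2 ≠ 0).filter
    fun e => e.2 = v).eq_empty_or_nonempty with h1 | ⟨⟨u, v'⟩, h1⟩
  · rw [h1]; simp
  obtain ⟨h2, h3⟩ := mem_filter.mp h1
  obtain ⟨h4, h5, h6⟩ := mem_filter.mp h2
  simp only at h3 h5 h6
  subst h3
  have h7 := two_le_pre C hadd hval (C.mem_pre.mpr h4) h5 h6
  have h8 : ((C.E.filter fun e => lev hadd (val e.1) < lev hadd (val e.2) ∧ val e.2 ≠ 0).filter
      fun e => e.2 = v').card ≤ (C.pre v').card := by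
    refine card_le_card_of_injOn Prod.fst ?_ ?_
    · rintro ⟨a, b⟩ hab
      obtain ⟨h9, h10⟩ := mem_filter.mp (mem_coe.mp hab)
      simp only at h10
      subst h10
      rw [mem_coe, C.mem_pre]
      exact (mem_filter.mp h9).1
    · rintro ⟨a, b⟩ hab ⟨a', b'⟩ hab' haa
      have e1 := (mem_filter.mp (mem_coe.mp hab)).2
      have e2 := (mem_filter.mp (mem_coe.mp hab')).2
      simp only at e1 e2 haa
      rw [haa, e1, e2]
  omega

end Pool.Agent.Helper76.LC
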