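import Mathlib

set_option autoImplicit false

/-!
# Orbits of functions under a triply transitive group
-/

namespace Pool.Agent.Helper76.LC.Tri

open Finset

variable {F : Type} [Field F] {X : Type}

/-- `G` is transitive on the triples of distinct points. -/
def Triple (G : Subgroup (Equiv.Perm X)) : Prop :=
  ∀ x y z x' y' z' : X, x ≠ y → x ≠ z → y ≠ z → x' ≠ y' → x' ≠ z' → y' ≠ z' →
    ∃ g ∈ G, g x = x' ∧ g y = y' ∧ g z = z'

/-- the span of a finite set of vectors is at most as large as the number of the lines in it -/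
theorem finrank_le_lines {V : Type} [AddCommGroup V] [Module F V] [DecidableEq V]
    [DecidableEq (Submodule F V)] (K : Finset V) (S : Finset (Submodule F V))
    (hS : ∀ v ∈ K, Submodule.span F {v} ∈ S) :
    Module.finrank F (Submodule.span F (K : Set V)) ≤ S.card := by
  classical
  have hrep : ∀ L : Submodule F V, ∃ v : V, (∃ w ∈ K, Submodule.span F {w} = L) →
      Submodule.span F {v} = L := by
    intro L
    by_cases h : ∃ w ∈ K, Submodule.span F {w} = L
    · obtain ⟨w, _, hw⟩ := h
      exact ⟨w, fun _ => hw⟩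
    · exact ⟨0, fun h' => absurd h' h⟩
  choose rep hrep using hrep
  have h1 : Submodule.span F (K : Set V) ≤ Submodule.span F ((S.image rep : Finset V) : Set V) := by
    rw [Submodule.span_le]
    intro v hv
    have hv' : v ∈ K := hv
    have h2 : v ∈ Submodule.span F {v} := Submodule.mem_span_singleton_self v
    rw [← hrep (Submodule.span F {v}) ⟨v, hv', rfl⟩] at h2
    refine Submodule.span_mono ?_ h2
    rw [Set.singleton_subset_iff]
    exact mem_coe.mpr (mem_image_of_mem _ (hS v hv'))
  have h3 : Module.finrank F (Submodule.span F (K : Set V)) ≤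
      Module.finrank F (Submodule.span F ((S.image rep : Finset V) : Set V)) :=
    Submodule.finrank_mono h1
  exact h3.trans ((finrank_span_finset_le_card _).trans card_image_le)

variable [Fintype X] [DecidableEq X] (G : Subgroup (Equiv.Perm X))

open Classical in
/-- the elements of `G` which fix `x` -/
noncomputable def fixer (x : X) : Finset (Equiv.Perm X) :=
  univ.filter fun g => g ∈ G ∧ g x = x

variable {G}

theorem mem_fixer {x : X} {g : Equiv.Perm X} : g ∈ fixer G x ↔ g ∈ G ∧ g x = x := by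
  classical
  simp [fixer]

/-- **The span of the orbit of a function which is not constant outside `x` has dimension at least
`|X| - 2`.** -/
theorem comp_dim [CharZero F] (hG : Triple G) (x : X) (f : X → F) {p q : X} (hp : p ≠ x)
    (hq : q ≠ x) (hpq : f p ≠ f q) :
    Fintype.card X - 2 ≤
      Module.finrank F (Submodule.span F ((fun g : Equiv.Perm X => f ∘ g) '' (fixer G x : Set _))) := by
  classical
  set W := Submodule.span F ((fun g : Equiv.Perm X => f ∘ g) '' (fixer G x : Set _)) with hW
  set N := Fintype.card X with hN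
  rcases Nat.lt_or_ge 2 N with hN2 | hN2
  swap
  · have : N - 2 = 0 := by omega
    rw [this]; exact Nat.zero_le _
  -- the complement of two points
  have hcard : ∀ a b : X, a ≠ b → ((univ.erase a).erase b).card = N - 2 := by
    intro a b hab
    rw [card_erase_of_mem (mem_erase.mpr ⟨fun h => hab h.symm, mem_univ _⟩),
      card_erase_of_mem (mem_univ _), card_univ]
    omega
  have third : ∀ a b : X, a ≠ b → ∃ t, t ≠ a ∧ t ≠ b := by
    intro a b hab
    have h1 : ((univ.erase a).erase b).Nonempty := by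
      rw [← card_pos, hcard a b hab]; omega
    obtain ⟨t, ht⟩ := h1
    exact ⟨t, (mem_erase.mp (mem_erase.mp ht).2).1, (mem_erase.mp ht).1⟩
  set S := ∑ z ∈ univ.erase x, f z with hS
  have hN1 : ((N : F) - 1) ≠ 0 := by
    have : ((N : F) - 1) = ((N - 1 : ℕ) : F) := by
      rw [Nat.cast_sub (by omega)]; simp
    rw [this]
    exact Nat.cast_ne_zero.mpr (by omega)
  have hex : ∃ y, y ≠ x ∧ ((N : F) - 1) * f y ≠ S := by
    by_contra hcon
    push Not at hcon
    apply hpq
    have h1 := hcon p hp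
    have h2 := hcon q hq
    exact mul_left_cancel₀ hN1 (h1.trans h2.symm)
  obtain ⟨y₀, hy₀, hyS⟩ := hex
  -- average over the stabilizer of the two points
  set T : Finset (Equiv.Perm X) := univ.filter fun g => g ∈ G ∧ g x = x ∧ g y₀ = y₀ with hT
  have memT : ∀ g, g ∈ T ↔ g ∈ G ∧ g x = x ∧ g y₀ = y₀ := fun g => by simp [hT]
  set w : X → F := ∑ g ∈ T, f ∘ g with hw
  have w_apply : ∀ z, w z = ∑ g ∈ T, f (g z) := by
    intro z
    rw [hw, Finset.sum_apply]
    rfl
  have hTpos : (T.card : F) ≠ 0 := by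
    refine Nat.cast_ne_zero.mpr ?_
    have : (1 : Equiv.Perm X) ∈ T := (memT 1).mpr ⟨G.one_mem, rfl, rfl⟩
    exact (card_pos.mpr ⟨1, this⟩).ne'
  have hinv : ∀ h ∈ T, ∀ z, w (h z) = w z := by
    intro h hh z
    rw [w_apply, w_apply]
    obtain ⟨h1, h2, h3⟩ := (memT h).mp hh
    refine sum_nbij' (fun g => g * h) (fun g => g * h⁻¹) ?_ ?_ ?_ ?_ ?_
    · intro g hg
      obtain ⟨g1, g2, g3⟩ := (memT g).mp hg
      refine (memT _).mpr ⟨G.mul_mem g1 h1, ?_, ?_⟩
      · rw [Equiv.Perm.mul_apply, h2, g2]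
      · rw [Equiv.Perm.mul_apply, h3, g3]
    · intro g hg
      obtain ⟨g1, g2, g3⟩ := (memT g).mp hg
      refine (memT _).mpr ⟨G.mul_mem g1 (G.inv_mem h1), ?_, ?_⟩
      · rw [Equiv.Perm.mul_apply, show h⁻¹ x = x from by rw [Equiv.Perm.inv_eq_iff_eq, h2], g2]
      · rw [Equiv.Perm.mul_apply, show h⁻¹ y₀ = y₀ from by rw [Equiv.Perm.inv_eq_iff_eq, h3], g3]
    · intro g _; simp
    · intro g _; simp
    · intro g _; rfl
  obtain ⟨z₀, hz₀x, hz₀y⟩ := third x y₀ (fun h => hy₀ h.symm)
  set d := w z₀ with hd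
  have hconst : ∀ z, z ≠ x → z ≠ y₀ → w z = d := by
    intro z hzx hzy
    obtain ⟨h, h1, h2, h3, h4⟩ := hG x y₀ z x y₀ z₀ (fun h => hy₀ h.symm) (fun h => hzx h.symm)
      (fun h => hzy h.symm) (fun h => hy₀ h.symm) (fun h => hz₀x h.symm) (fun h => hz₀y h.symm)
    have := hinv h ((memT h).mpr ⟨h1, h2, h3⟩) z
    rw [h4] at this
    exact this.symm
  have hwy : w y₀ = T.card * f y₀ := by
    rw [w_apply]
    rw [sum_congr rfl (fun g hg => by rw [((memT g).mp hg).2.2]), sum_const, nsmul_eq_mul]
  have hsum : ((N : F) - 2) * d = T.card * (S - f y₀) := by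
    have h1 : ∑ z ∈ (univ.erase x).erase y₀, w z = ((N : F) - 2) * d := by
      rw [sum_congr rfl (fun z hz => hconst z (mem_erase.mp (mem_erase.mp hz).2).1
        (mem_erase.mp hz).1), sum_const, hcard x y₀ (fun h => hy₀ h.symm), nsmul_eq_mul,
        Nat.cast_sub (by omega)]
      simp
    have h2 : ∑ z ∈ (univ.erase x).erase y₀, w z = T.card * (S - f y₀) := by
      rw [sum_congr rfl (fun z _ => w_apply z), sum_comm]
      have h3 : ∀ g ∈ T, ∑ z ∈ (univ.erase x).erase y₀, f (g z) = S - f y₀ := by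
        intro g hg
        obtain ⟨g1, g2, g3⟩ := (memT g).mp hg
        have h4 : ∑ z ∈ (univ.erase x).erase y₀, f (g z) =
            ∑ z ∈ (univ.erase x).erase y₀, f z := by
          refine sum_nbij' (fun z => g z) (fun z => g⁻¹ z) ?_ ?_ ?_ ?_ ?_
          · intro z hz
            obtain ⟨a, b⟩ := mem_erase.mp hz
            refine mem_erase.mpr ⟨fun h => a (g.injective (h.trans g3.symm)),
              mem_erase.mpr ⟨fun h => (mem_erase.mp b).1 (g.injective (h.trans g2.symm)),
                mem_univ _⟩⟩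
          · intro z hz
            obtain ⟨a, b⟩ := mem_erase.mp hz
            refine mem_erase.mpr ⟨fun h => a ?_, mem_erase.mpr ⟨fun h => (mem_erase.mp b).1 ?_,
                mem_univ _⟩⟩
            · rw [Equiv.Perm.inv_eq_iff_eq] at h; rw [h, g3]
            · rw [Equiv.Perm.inv_eq_iff_eq] at h; rw [h, g2]
          · intro z _; simp
          · intro z _; simp
          · intro z _; rfl
        rw [h4, eq_sub_iff_add_eq, sum_erase_add _ _ (mem_erase.mpr ⟨hy₀, mem_univ _⟩)]
      rw [sum_congr rfl h3, sum_const, nsmul_eq_mul]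
    exact h1.symm.trans h2
  set c := w y₀ - d with hc
  have hc0 : c ≠ 0 := by
    intro h
    apply hyS
    have h1 : ((N : F) - 2) * c = T.card * (((N : F) - 1) * f y₀ - S) := by
      rw [hc, mul_sub, hsum, hwy]; ring
    rw [h, mul_zero] at h1
    have h2 := (mul_eq_zero.mp h1.symm).resolve_left hTpos
    exact sub_eq_zero.mp h2
  -- closure
  have hwW : ∀ h : Equiv.Perm X, h ∈ G → h x = x → (w ∘ h) ∈ W := by
    intro h h1 h2
    have : w ∘ h = ∑ g ∈ T, f ∘ (g * h : Equiv.Perm X) := by
      funext z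
      rw [Finset.sum_apply, Function.comp_apply, w_apply]
      rfl
    rw [this]
    refine Submodule.sum_mem _ fun g hg => Submodule.subset_span ⟨g * h, ?_, rfl⟩
    obtain ⟨g1, g2, g3⟩ := (memT g).mp hg
    refine mem_coe.mpr (mem_fixer.mpr ⟨G.mul_mem g1 h1, ?_⟩)
    rw [Equiv.Perm.mul_apply, h2, g2]
  have hmove : ∀ y, y ≠ x → ∃ h : Equiv.Perm X, h ∈ G ∧ h x = x ∧ h y = y₀ := by
    intro y hy
    obtain ⟨t, t1, t2⟩ := third x y (fun h => hy h.symm)
    obtain ⟨h, h1, h2, h3, -⟩ := hG x y t x y₀ z₀ (fun h => hy h.symm) (fun h => t1 h.symm)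
      (fun h => t2 h.symm) (fun h => hy₀ h.symm) (fun h => hz₀x h.symm) (fun h => hz₀y h.symm)
    exact ⟨h, h1, h2, h3⟩
  choose! mv hmv using hmove
  let ι := {y // y ∈ (univ.erase x).erase y₀}
  have hιx : ∀ y : ι, (y : X) ≠ x := fun y => (mem_erase.mp (mem_erase.mp y.2).2).1
  have hιy : ∀ y : ι, (y : X) ≠ y₀ := fun y => (mem_erase.mp y.2).1
  let u : ι → (X → F) := fun y => w ∘ (mv y) - w
  have hval : ∀ (y : ι) (z : X), z ≠ x → z ≠ y₀ → u y z = if z = y then c else 0 := by
    intro y z hzx hzy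
    show w (mv y z) - w z = _
    obtain ⟨m1, m2, m3⟩ := hmv y (hιx y)
    rw [hconst z hzx hzy]
    by_cases hzy' : z = y
    · rw [if_pos hzy', hzy', m3]
    · rw [if_neg hzy', hconst, sub_self]
      · intro h; exact hzx ((mv y).injective (h.trans m2.symm))
      · intro h; exact hzy' ((mv y).injective (h.trans m3.symm))
  have hlin : LinearIndependent F u := by
    rw [Fintype.linearIndependent_iff]
    intro a ha z
    have h1 := congrFun ha (z : X)
    rw [Finset.sum_apply] at h1
    have h2 : ∀ y : ι, (a y • u y) (z : X) = if y = z then a z * c else 0 := by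
      intro y
      rw [Pi.smul_apply, hval y z (hιx z) (hιy z), smul_eq_mul]
      by_cases h : y = z
      · rw [if_pos (by rw [h]), if_pos h, h]
      · rw [if_neg (fun h' => h (Subtype.ext h'.symm)), if_neg h, mul_zero]
    rw [sum_congr rfl (fun y _ => h2 y), sum_ite_eq' univ z, if_pos (mem_univ _)] at h1
    exact (mul_eq_zero.mp h1).resolve_right hc0
  have hle : Submodule.span F (Set.range u) ≤ W := by
    rw [Submodule.span_le]
    rintro _ ⟨y, rfl⟩
    obtain ⟨m1, m2, m3⟩ := hmv y (hιx y)
    refine W.sub_mem (hwW _ m1 m2) ?_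
    have := hwW 1 G.one_mem rfl
    simpa using this
  have h5 := finrank_span_eq_card hlin
  have h6 : Fintype.card ι = N - 2 := by
    rw [Fintype.card_coe, hcard x y₀ (fun h => hy₀ h.symm)]
  rw [← h6, ← h5]
  exact Submodule.finrank_mono hle

end Pool.Agent.Helper76.LC.Tri
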