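import Pool.Agent.Helper76.LC.TriA
import Pool.Agent.Helper76.LC.Sym

set_option autoImplicit false
set_option linter.unusedSectionVars false

/-!
# Circuits which are symmetric under a triply transitive group
-/

namespace Pool.Agent.Helper76.LC.Tri

open Finset

variable {F : Type} [Field F] {X : Type} [Fintype X] [DecidableEq X] {ι : Type}
  {G : Subgroup (Equiv.Perm X)}

/-- the action on the second coordinates -/
def sec (ι : Type) (g : Equiv.Perm X) (w : ι × X → F) : ι × X → F := fun p => w (p.1, g p.2)

/-- In each block `w` is constant outside `x`. -/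
def Fx (x : X) (w : ι × X → F) : Prop := ∀ β y z, y ≠ x → z ≠ x → w (β, y) = w (β, z)

/-- In each block `w` is constant. -/
def Tot (w : ι × X → F) : Prop := ∀ β y z, w (β, y) = w (β, z)

/-- **There are at least `|X| - 2` different lines in the orbit.** -/
theorem orbit_lines [CharZero F] [Finite ι] (hG : Triple G) {x : X} {w : ι × X → F}
    (hw : ¬Fx x w) [DecidableEq (Submodule F (ι × X → F))] (S : Finset (Submodule F (ι × X → F)))
    (hS : ∀ g ∈ fixer G x, Submodule.span F {sec ι g w} ∈ S) : Fintype.card X - 2 ≤ S.card := by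
  classical
  unfold Fx at hw
  push Not at hw
  obtain ⟨β, p, q, hp, hq, hpq⟩ := hw
  set K : Finset (ι × X → F) := (fixer G x).image fun g => sec ι g w with hK
  have h1 := finrank_le_lines K S (by
    intro v hv
    obtain ⟨g, hg, rfl⟩ := mem_image.mp hv
    exact hS g hg)
  refine le_trans ?_ h1
  have h2 := comp_dim (F := F) hG x (fun t => w (β, t)) hp hq hpq
  refine h2.trans ?_
  let π : (ι × X → F) →ₗ[F] (X → F) :=
    { toFun := fun v t => v (β, t)
      map_add' := fun _ _ => rfl
      map_smul' := fun _ _ => rfl }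
  have h3 : Submodule.span F ((fun g : Equiv.Perm X => (fun t => w (β, t)) ∘ g) ''
      (fixer G x : Set _)) = (Submodule.span F (K : Set (ι × X → F))).map π := by
    rw [Submodule.map_span]
    congr 1
    rw [hK, coe_image, ← Set.image_comp]
    rfl
  rw [h3]
  exact Submodule.finrank_map_le π _

/-- the action of the permutations of `X` on the inputs -/
def act {n : ℕ} (e : Fin n ≃ ι × X) (g : Equiv.Perm X) : Equiv.Perm (Fin n) :=
  (e.trans ((Equiv.refl ι).prodCongr g)).trans e.symm

theorem e_act {n : ℕ} (e : Fin n ≃ ι × X) (g : Equiv.Perm X) (p : ι × X) :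
    act e g (e.symm p) = e.symm (p.1, g p.2) := by
  show e.symm (((Equiv.refl ι).prodCongr g) (e (e.symm p))) = _
  rw [Equiv.apply_symm_apply]
  rfl

variable {n : ℕ} (C : LinCircuit F n) (e : Fin n ≃ ι × X) (val : C.V → Fin n → F)

/-- the form at a node -/
def fm (v : C.V) : ι × X → F := fun p => val v (e.symm p)

/-- the line spanned by the form at a node -/
def ln (v : C.V) : Submodule F (ι × X → F) := Submodule.span F {fm C e val v}

theorem Fx_smul {x : X} {w : ι × X → F} (h : Fx x w) (a : F) : Fx x (a • w) := by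
  intro β y z hy hz
  show a * w (β, y) = a * w (β, z)
  rw [h β y z hy hz]

theorem Fx_smul_iff {x : X} {w : ι × X → F} {a : F} (ha : a ≠ 0) : Fx x (a • w) ↔ Fx x w := by
  refine ⟨fun h => ?_, fun h => Fx_smul h a⟩
  have := Fx_smul h a⁻¹
  rwa [smul_smul, inv_mul_cancel₀ ha, one_smul] at this

theorem Tot_smul {w : ι × X → F} (h : Tot w) (a : F) : Tot (a • w) := by
  intro β y z
  show a * w (β, y) = a * w (β, z)
  rw [h β y z]

theorem Tot_smul_iff {w : ι × X → F} {a : F} (ha : a ≠ 0) : Tot (a • w) ↔ Tot w := by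
  refine ⟨fun h => ?_, fun h => Tot_smul h a⟩
  have := Tot_smul h a⁻¹
  rwa [smul_smul, inv_mul_cancel₀ ha, one_smul] at this

theorem Fx_sec {x : X} {w : ι × X → F} (g : Equiv.Perm X) : Fx x (sec ι g w) ↔ Fx (g x) w := by
  constructor
  · intro h β y z hy hz
    have := h β (g.symm y) (g.symm z) (fun h' => hy (by rw [← h']; simp))
      (fun h' => hz (by rw [← h']; simp))
    simpa [sec] using this
  · intro h β y z hy hz
    exact h β (g y) (g z) (fun h' => hy (g.injective h')) (fun h' => hz (g.injective h'))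

theorem Tot_sec {w : ι × X → F} (g : Equiv.Perm X) : Tot (sec ι g w) ↔ Tot w := by
  constructor
  · intro h β y z
    have := h β (g.symm y) (g.symm z)
    simpa [sec] using this
  · intro h β y z
    exact h β (g y) (g z)

theorem sec_fix {x : X} {w : ι × X → F} (h : Fx x w) {g : Equiv.Perm X} (hg : g x = x) :
    sec ι g w = w := by
  funext ⟨β, t⟩
  show w (β, g t) = w (β, t)
  by_cases ht : t = x
  · rw [ht, hg]
  · exact h β _ _ (fun h' => ht (g.injective (h'.trans hg.symm))) ht

/-- If `w` is constant outside `x` and outside `x'` it is constant. -/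
theorem tot_of {x x' : X} (hxx : x ≠ x') {t : X} (ht : t ≠ x) (ht' : t ≠ x') {w : ι × X → F}
    (h : Fx x w) (h' : Fx x' w) : Tot w := by
  have key : ∀ β y, w (β, y) = w (β, t) := by
    intro β y
    by_cases hy : y = x
    · exact h' β y t (by rw [hy]; exact hxx) ht'
    · exact h β y t hy ht
  intro β y z
  rw [key β y, key β z]

/-- `w` is a combination of the sum over a block and of a variable -/
theorem Tot_Fx {x : X} {w : ι × X → F} (h : Tot w) : Fx x w := fun β y z _ _ => h β y z

variable {C e val}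

/-- the automorphisms of a symmetric circuit in coordinates -/
theorem auto (hsym : C.Symm fun g : G => act e (g : Equiv.Perm X)) (hval : C.IsVal val)
    {g : Equiv.Perm X} (hg : g ∈ G) : ∃ α : Equiv.Perm C.V,
      (∀ u v, (u, v) ∈ C.E → (α u, α v) ∈ C.E) ∧
      ∀ v, ∃ l : F, l ≠ 0 ∧ fm C e val (α v) = l • sec ι g (fm C e val v) := by
  have hg' : g⁻¹ ∈ G := G.inv_mem hg
  obtain ⟨α, h1, h2⟩ := LinCircuit.symm_val hsym hval ⟨g⁻¹, hg'⟩
  refine ⟨α, h1, fun v => ?_⟩
  obtain ⟨l, hl, h3⟩ := h2 v
  refine ⟨l, hl, ?_⟩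
  funext ⟨β, t⟩
  have h4 := h3 (e.symm (β, g t))
  simp only [e_act] at h4
  rw [show (g⁻¹ : Equiv.Perm X) (g t) = t from by simp] at h4
  exact h4

end Pool.Agent.Helper76.LC.Tri
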