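import Pool.Agent.Helper76.LC.TriB

set_option autoImplicit false
set_option linter.unusedSectionVars false

/-!
# Circuits which are symmetric under a triply transitive group: the lower bound
-/

namespace Pool.Agent.Helper76.LC.Tri

open Finset

variable {F : Type} [Field F] {X : Type} [Fintype X] [DecidableEq X] {ι : Type}
  {G : Subgroup (Equiv.Perm X)} {n : ℕ} (C : LinCircuit F n) (e : Fin n ≃ ι × X)
  (val : C.V → Fin n → F)

open Classical in
/-- the edges which leave the forms that are constant outside `x` -/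
noncomputable def bad (x : X) : Finset (C.V × C.V) :=
  C.E.filter fun p => Fx x (fm C e val p.1) ∧ ¬Fx x (fm C e val p.2) ∧ ¬Tot (fm C e val p.1)

open Classical in
/-- the lines of the forms at the tails of these edges -/
noncomputable def Bad (x : X) : Finset (Submodule F (ι × X → F)) :=
  (bad C e val x).image fun p => ln C e val p.1

open Classical in
/-- all these edges -/
noncomputable def cross : Finset (C.V × C.V) := univ.biUnion (bad C e val)

open Classical in
/-- the pairs of lines of these edges -/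
noncomputable def pairs : Finset (Submodule F (ι × X → F) × Submodule F (ι × X → F)) :=
  (cross C e val).image fun p => (ln C e val p.1, ln C e val p.2)

theorem mem_bad {x : X} {u v : C.V} : (u, v) ∈ bad C e val x ↔ (u, v) ∈ C.E ∧
    Fx x (fm C e val u) ∧ ¬Fx x (fm C e val v) ∧ ¬Tot (fm C e val u) := by
  classical
  unfold bad
  rw [mem_filter]

theorem mem_cross {u v : C.V} : (u, v) ∈ cross C e val ↔ ∃ x, (u, v) ∈ bad C e val x := by
  classical
  unfold cross
  simp

variable {C e val}

theorem line_smul {V : Type} [AddCommGroup V] [Module F V] {a : F} (ha : a ≠ 0) (w : V) :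
    Submodule.span F {a • w} = Submodule.span F {w} :=
  Submodule.span_singleton_smul_eq (IsUnit.mk0 a ha) w

/-- moving a bad edge -/
theorem move (hsym : C.Symm fun g : G => act e (g : Equiv.Perm X)) (hval : C.IsVal val)
    {g : Equiv.Perm X} (hg : g ∈ G) {x : X} {u v : C.V} (h : (u, v) ∈ bad C e val (g x)) :
    ∃ u' v', (u', v') ∈ bad C e val x ∧
      (∃ l : F, l ≠ 0 ∧ fm C e val u' = l • sec ι g (fm C e val u)) ∧
      ∃ l : F, l ≠ 0 ∧ fm C e val v' = l • sec ι g (fm C e val v) := by
  obtain ⟨α, h1, h2⟩ := auto hsym hval hg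
  obtain ⟨h3, h4, h5, h6⟩ := (mem_bad C e val).mp h
  obtain ⟨l, hl, hu⟩ := h2 u
  obtain ⟨l', hl', hv⟩ := h2 v
  refine ⟨α u, α v, (mem_bad C e val).mpr ⟨h1 u v h3, ?_, ?_, ?_⟩, ⟨l, hl, hu⟩, ⟨l', hl', hv⟩⟩
  · rw [hu, Fx_smul_iff hl, Fx_sec]; exact h4
  · rw [hv, Fx_smul_iff hl', Fx_sec]; exact h5
  · rw [hu, Tot_smul_iff hl, Tot_sec]; exact h6

open Classical in
/-- **Each tail has many different heads.** -/
theorem claim_one [CharZero F] [Finite ι] (hG : Triple G)
    (hsym : C.Symm fun g : G => act e (g : Equiv.Perm X)) (hval : C.IsVal val) {x : X}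
    {L : Submodule F (ι × X → F)} (hL : L ∈ Bad C e val x) :
    Fintype.card X - 2 ≤ ((pairs C e val).filter fun q => q.1 = L).card := by
  obtain ⟨⟨u, v⟩, huv, rfl⟩ := mem_image.mp hL
  have h1 := (mem_bad C e val).mp huv
  refine le_trans (orbit_lines hG (x := x) (w := fm C e val v) h1.2.2.1
    (((pairs C e val).filter fun q => q.1 = ln C e val u).image Prod.snd) ?_) card_image_le
  intro g hg
  obtain ⟨g1, g2⟩ := mem_fixer.mp hg
  have h2 : (u, v) ∈ bad C e val (g x) := by rw [g2]; exact huv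
  obtain ⟨u', v', h3, ⟨l, hl, hu⟩, l', hl', hv⟩ := move hsym hval g1 h2
  refine mem_image.mpr ⟨(ln C e val u', ln C e val v'), mem_filter.mpr ⟨?_, ?_⟩, ?_⟩
  · exact mem_image.mpr ⟨(u', v'), (mem_cross C e val).mpr ⟨x, h3⟩, rfl⟩
  · show ln C e val u' = ln C e val u
    unfold ln
    rw [hu, line_smul hl, sec_fix h1.2.1 g2]
  · show ln C e val v' = _
    unfold ln
    rw [hv, line_smul hl']

theorem mem_line {V : Type} [AddCommGroup V] [Module F V] {v w : V}
    (h : Submodule.span F {v} = Submodule.span F {w}) : ∃ a : F, a • w = v := by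
  have : v ∈ Submodule.span F {w} := by
    rw [← h]; exact Submodule.mem_span_singleton_self v
  exact Submodule.mem_span_singleton.mp this

theorem Bad_disjoint (h3 : 2 < Fintype.card X) {x x' : X} (hxx : x ≠ x') :
    Disjoint (Bad C e val x) (Bad C e val x') := by
  classical
  rw [disjoint_left]
  intro L hL hL'
  obtain ⟨⟨u, v⟩, huv, hu⟩ := mem_image.mp hL
  obtain ⟨⟨u', v'⟩, huv', hu'⟩ := mem_image.mp hL'
  obtain ⟨-, a1, -, a2⟩ := (mem_bad C e val).mp huv
  obtain ⟨-, b1, -, -⟩ := (mem_bad C e val).mp huv'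
  obtain ⟨a, ha⟩ := mem_line (hu.trans hu'.symm)
  have h4 : ((univ.erase x).erase x').Nonempty := by
    rw [← card_pos, card_erase_of_mem (mem_erase.mpr ⟨fun h => hxx h.symm, mem_univ _⟩),
      card_erase_of_mem (mem_univ _), card_univ]
    omega
  obtain ⟨t, ht⟩ := h4
  apply a2
  refine tot_of hxx (mem_erase.mp (mem_erase.mp ht).2).1 (mem_erase.mp ht).1 a1 ?_
  simp only at ha
  rw [← ha]
  exact Fx_smul b1 a

theorem pairs_ge [CharZero F] [Finite ι] (hG : Triple G) (h3 : 2 < Fintype.card X)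
    (hsym : C.Symm fun g : G => act e (g : Equiv.Perm X)) (hval : C.IsVal val) :
    (∑ x : X, (Bad C e val x).card) * (Fintype.card X - 2) ≤ (cross C e val).card := by
  classical
  refine le_trans ?_ (card_image_le (s := cross C e val)
    (f := fun p => (ln C e val p.1, ln C e val p.2)))
  show _ ≤ (pairs C e val).card
  rw [← card_biUnion (s := (univ : Finset X)) (t := Bad C e val)
    (fun x _ y _ hxy => Bad_disjoint h3 hxy)]
  have h4 : ∀ q ∈ pairs C e val, q.1 ∈ univ.biUnion (Bad C e val) := by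
    intro q hq
    obtain ⟨⟨u, v⟩, huv, rfl⟩ := mem_image.mp hq
    obtain ⟨x, hx⟩ := (mem_cross C e val).mp huv
    exact mem_biUnion.mpr ⟨x, mem_univ _, mem_image.mpr ⟨(u, v), hx, rfl⟩⟩
  rw [card_eq_sum_card_fiberwise h4, ← smul_eq_mul]
  refine card_nsmul_le_sum _ _ _ fun L hL => ?_
  obtain ⟨x, -, hx⟩ := mem_biUnion.mp hL
  exact claim_one hG hsym hval hx

theorem Bad_card_le (hsym : C.Symm fun g : G => act e (g : Equiv.Perm X)) (hval : C.IsVal val)
    {g : Equiv.Perm X} (hg : g ∈ G) (x : X) :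
    (Bad C e val (g x)).card ≤ (Bad C e val x).card := by
  classical
  let φ : (ι × X → F) →ₗ[F] (ι × X → F) :=
    { toFun := sec ι g
      map_add' := fun _ _ => rfl
      map_smul' := fun _ _ => rfl }
  have hφ : Function.Injective φ := by
    intro w w' h
    funext ⟨β, t⟩
    have h' : w (β, g (g.symm t)) = w' (β, g (g.symm t)) := congrFun h (β, g.symm t)
    rwa [Equiv.apply_symm_apply] at h'
  refine card_le_card_of_injOn (fun L => L.map φ) ?_ ?_
  · intro L hL
    obtain ⟨⟨u, v⟩, huv, rfl⟩ := mem_image.mp (mem_coe.mp hL)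
    obtain ⟨u', v', h3, ⟨l, hl, hu⟩, -⟩ := move hsym hval hg huv
    refine mem_coe.mpr (mem_image.mpr ⟨(u', v'), h3, ?_⟩)
    show ln C e val u' = (ln C e val u).map φ
    unfold ln
    rw [hu, line_smul hl, Submodule.map_span, Set.image_singleton]
    rfl
  · intro L _ L' _ h
    exact Submodule.map_injective_of_injective hφ h

/-- the difference of the coefficients at two points -/
def dif (x₀ x₁ : X) : (ι × X → F) →ₗ[F] (ι → F) where
  toFun w := fun β => w (β, x₀) - w (β, x₁)
  map_add' w w' := by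
    funext β
    simp only [Pi.add_apply]
    ring
  map_smul' a w := by
    funext β
    simp only [Pi.smul_apply, smul_eq_mul, RingHom.id_apply]
    ring

variable (C e val) in
/-- the span of the differences for the bad edges -/
def Sp (x₀ x₁ x : X) : Submodule F (ι → F) :=
  Submodule.span F {w | ∃ u v, (u, v) ∈ bad C e val x ∧ w = dif x₀ x₁ (fm C e val u)}

theorem finrank_Sp [Finite ι] (x₀ x₁ x : X) :
    Module.finrank F (Sp C e val x₀ x₁ x) ≤ (Bad C e val x).card := by
  classical
  have hrep : ∀ L : Submodule F (ι × X → F), ∃ w : ι × X → F,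
      L ∈ Bad C e val x → L = Submodule.span F {w} := by
    intro L
    by_cases h : L ∈ Bad C e val x
    · obtain ⟨⟨u, v⟩, huv, hu⟩ := mem_image.mp h
      exact ⟨fm C e val u, fun _ => hu.symm⟩
    · exact ⟨0, fun h' => absurd h' h⟩
  choose rep hrep using hrep
  have h1 : Sp C e val x₀ x₁ x ≤ Submodule.span F
      (((Bad C e val x).image fun L => dif x₀ x₁ (rep L) : Finset (ι → F)) : Set (ι → F)) := by
    unfold Sp
    rw [Submodule.span_le]
    rintro w ⟨u, v, huv, rfl⟩
    have h2 : ln C e val u ∈ Bad C e val x := mem_image.mpr ⟨(u, v), huv, rfl⟩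
    have h3 := hrep _ h2
    obtain ⟨a, ha⟩ := mem_line (v := fm C e val u) (w := rep (ln C e val u)) h3
    rw [← ha, map_smul]
    exact Submodule.smul_mem _ _ (Submodule.subset_span (mem_coe.mpr
      (mem_image.mpr ⟨_, h2, rfl⟩)))
  exact (Submodule.finrank_mono h1).trans ((finrank_span_finset_le_card _).trans card_image_le)

theorem Sp_le (hsym : C.Symm fun g : G => act e (g : Equiv.Perm X)) (hval : C.IsVal val)
    {x₀ x₁ : X} {g : Equiv.Perm X} (hg : g ∈ G) (h0 : g x₀ = x₁) (h1 : g x₁ = x₀) :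
    Sp C e val x₀ x₁ x₁ ≤ Sp C e val x₀ x₁ x₀ := by
  unfold Sp
  rw [Submodule.span_le]
  rintro w ⟨u, v, huv, rfl⟩
  rw [← h0] at huv
  obtain ⟨u', v', h3, ⟨l, hl, hu⟩, -⟩ := move hsym hval hg huv
  have h4 : dif x₀ x₁ (fm C e val u') = (-l) • dif x₀ x₁ (fm C e val u) := by
    rw [hu]
    funext β
    show l * (fm C e val u) (β, g x₀) - l * (fm C e val u) (β, g x₁) =
      -l * ((fm C e val u) (β, x₀) - (fm C e val u) (β, x₁))
    rw [h0, h1]
    ring
  have h5 : dif x₀ x₁ (fm C e val u) = (-l)⁻¹ • dif x₀ x₁ (fm C e val u') := by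
    rw [h4, smul_smul, inv_mul_cancel₀ (neg_ne_zero.mpr hl), one_smul]
  show dif x₀ x₁ (fm C e val u) ∈ _
  rw [h5]
  exact Submodule.smul_mem _ _ (Submodule.subset_span ⟨u', v', h3, rfl⟩)

theorem dif_mem (hval : C.IsVal val) {x₀ x₁ : X} (v : C.V) (hv0 : ¬Fx x₀ (fm C e val v))
    (hv1 : ¬Fx x₁ (fm C e val v)) :
    dif x₀ x₁ (fm C e val v) ∈ Sp C e val x₀ x₁ x₀ ⊔ Sp C e val x₀ x₁ x₁ := by
  revert hv0 hv1
  refine C.ind (P := fun v => ¬Fx x₀ (fm C e val v) → ¬Fx x₁ (fm C e val v) →
    dif x₀ x₁ (fm C e val v) ∈ Sp C e val x₀ x₁ x₀ ⊔ Sp C e val x₀ x₁ x₁) ?_ v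
  intro v ih hv0 hv1
  have hv := hval v
  cases hlab : C.lab v with
  | some j =>
    rw [hlab] at hv
    simp only at hv
    have key : ∀ x, x ≠ (e j).2 → ∀ β, fm C e val v (β, x) = 0 := by
      intro x hx β
      show val v (e.symm (β, x)) = 0
      rw [hv, Pi.single_eq_of_ne]
      intro h
      apply hx
      rw [← h]; simp
    have h0 : x₀ ≠ (e j).2 := by
      intro h
      apply hv0
      intro β y z hy hz
      rw [key y (by rw [← h]; exact hy), key z (by rw [← h]; exact hz)]
    have h1 : x₁ ≠ (e j).2 := by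
      intro h
      apply hv1
      intro β y z hy hz
      rw [key y (by rw [← h]; exact hy), key z (by rw [← h]; exact hz)]
    have : dif x₀ x₁ (fm C e val v) = 0 := by
      funext β
      show fm C e val v (β, x₀) - fm C e val v (β, x₁) = 0
      rw [key _ h0, key _ h1, sub_zero]
    rw [this]
    exact Submodule.zero_mem _
  | none =>
    rw [hlab] at hv
    simp only at hv
    have h1 : fm C e val v = ∑ u ∈ C.pre v, C.wt u v • fm C e val u := by
      funext p
      show val v (e.symm p) = _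
      rw [hv, Finset.sum_apply, Finset.sum_apply]
      rfl
    rw [h1, map_sum]
    refine Submodule.sum_mem _ fun u hu => ?_
    rw [map_smul]
    refine Submodule.smul_mem _ _ ?_
    by_cases ht : Tot (fm C e val u)
    · have : dif x₀ x₁ (fm C e val u) = 0 := by
        funext β
        show fm C e val u (β, x₀) - fm C e val u (β, x₁) = 0
        rw [ht β x₀ x₁, sub_self]
      rw [this]
      exact Submodule.zero_mem _
    · by_cases hu0 : Fx x₀ (fm C e val u)
      · refine Submodule.mem_sup_left (Submodule.subset_span ⟨u, v, ?_, rfl⟩)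
        exact (mem_bad C e val).mpr ⟨C.mem_pre.mp hu, hu0, hv0, ht⟩
      · by_cases hu1 : Fx x₁ (fm C e val u)
        · refine Submodule.mem_sup_right (Submodule.subset_span ⟨u, v, ?_, rfl⟩)
          exact (mem_bad C e val).mpr ⟨C.mem_pre.mp hu, hu1, hv1, ht⟩
        · exact ih u hu hu0 hu1

theorem two_le {u v : C.V} (hval : C.IsVal val) {x : X} (h : (u, v) ∈ bad C e val x) :
    2 ≤ (C.pre v).card := by
  classical
  obtain ⟨h1, h2, h3, h4⟩ := (mem_bad C e val).mp h
  have huv : u ∈ C.pre v := C.mem_pre.mpr h1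
  by_contra hlt
  have hpos : 0 < (C.pre v).card := card_pos.mpr ⟨u, huv⟩
  have h1 : (C.pre v).card = 1 := by omega
  obtain ⟨w, hw⟩ := card_eq_one.mp h1
  have hwu : u = w := by rw [hw] at huv; exact mem_singleton.mp huv
  subst hwu
  have e1 := hval v
  rw [C.lab_pre huv] at e1
  simp only at e1
  rw [hw, sum_singleton] at e1
  apply h3
  have : fm C e val v = C.wt u v • fm C e val u := by
    funext p
    show val v (e.symm p) = _
    rw [e1]
    rfl
  rw [this]
  exact Fx_smul h2 _

theorem cross_le_adds (hval : C.IsVal val) : (cross C e val).card ≤ 2 * C.adds := by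
  classical
  unfold LinCircuit.adds
  rw [card_eq_sum_card_fiberwise (f := Prod.snd) (t := univ) (fun _ _ => mem_univ _), mul_sum]
  refine sum_le_sum fun v _ => ?_
  rcases ((cross C e val).filter fun e => e.2 = v).eq_empty_or_nonempty with h1 | ⟨⟨u, v'⟩, h1⟩
  · rw [h1]; simp
  obtain ⟨h2, h3⟩ := mem_filter.mp h1
  simp only at h3
  subst h3
  obtain ⟨x, hx⟩ := (mem_cross C e val).mp h2
  have h7 := two_le hval hx
  have h8 : ((cross C e val).filter fun e => e.2 = v').card ≤ (C.pre v').card := by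
    refine card_le_card_of_injOn Prod.fst ?_ ?_
    · rintro ⟨a, b⟩ hab
      obtain ⟨h9, h10⟩ := mem_filter.mp (mem_coe.mp hab)
      simp only at h10
      subst h10
      obtain ⟨x', hx'⟩ := (mem_cross C e val).mp h9
      rw [mem_coe, C.mem_pre]
      exact ((mem_bad C e val).mp hx').1
    · rintro ⟨a, b⟩ hab ⟨a', b'⟩ hab' haa
      have e1 := (mem_filter.mp (mem_coe.mp hab)).2
      have e2 := (mem_filter.mp (mem_coe.mp hab')).2
      simp only at e1 e2 haa
      rw [haa, e1, e2]
  omega

theorem cross_le_E : (cross C e val).card ≤ C.E.card := by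
  classical
  refine card_le_card ?_
  rintro ⟨u, v⟩ h
  obtain ⟨x, hx⟩ := (mem_cross C e val).mp h
  exact ((mem_bad C e val).mp hx).1

/-- **Lower bound for circuits which are symmetric under a triply transitive group.** -/
theorem lower [CharZero F] [Finite ι] (hG : Triple G) (h3 : 2 < Fintype.card X)
    (hsym : C.Symm fun g : G => act e (g : Equiv.Perm X)) (hval : C.IsVal val) {x₀ x₁ : X}
    (hx : x₀ ≠ x₁) (P : Submodule F (ι → F))
    (hP : P ≤ Submodule.span F {w | ∃ v, ¬Fx x₀ (fm C e val v) ∧ ¬Fx x₁ (fm C e val v) ∧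
      w = dif x₀ x₁ (fm C e val v)}) :
    Fintype.card X * (Fintype.card X - 2) * Module.finrank F P ≤ C.E.card ∧
    Fintype.card X * (Fintype.card X - 2) * Module.finrank F P ≤ 2 * C.adds := by
  classical
  have h4 : ((univ.erase x₀).erase x₁).Nonempty := by
    rw [← card_pos, card_erase_of_mem (mem_erase.mpr ⟨fun h => hx h.symm, mem_univ _⟩),
      card_erase_of_mem (mem_univ _), card_univ]
    omega
  obtain ⟨t, ht⟩ := h4
  have ht0 : x₀ ≠ t := fun h => (mem_erase.mp (mem_erase.mp ht).2).1 h.symm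
  have ht1 : x₁ ≠ t := fun h => (mem_erase.mp ht).1 h.symm
  obtain ⟨g, g1, g2, g3, -⟩ := hG x₀ x₁ t x₁ x₀ t hx ht0 ht1 (fun h => hx h.symm) ht1 ht0
  have h5 : P ≤ Sp C e val x₀ x₁ x₀ := by
    refine hP.trans (Submodule.span_le.mpr ?_)
    rintro w ⟨v, hv0, hv1, rfl⟩
    have h6 := dif_mem hval v hv0 hv1
    rwa [sup_eq_left.mpr (Sp_le hsym hval g1 g2 g3)] at h6
  have h7 : Module.finrank F P ≤ (Bad C e val x₀).card :=
    (Submodule.finrank_mono h5).trans (finrank_Sp x₀ x₁ x₀)
  have h8 : ∀ x, Module.finrank F P ≤ (Bad C e val x).card := by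
    intro x
    refine h7.trans ?_
    by_cases hxx : x = x₀
    · rw [hxx]
    · have h9 : ((univ.erase x).erase x₀).Nonempty := by
        rw [← card_pos, card_erase_of_mem (mem_erase.mpr ⟨fun h => hxx h.symm, mem_univ _⟩),
          card_erase_of_mem (mem_univ _), card_univ]
        omega
      obtain ⟨s, hs⟩ := h9
      have hs0 : x ≠ s := fun h => (mem_erase.mp (mem_erase.mp hs).2).1 h.symm
      have hs1 : x₀ ≠ s := fun h => (mem_erase.mp hs).1 h.symm
      obtain ⟨g', k1, k2, -, -⟩ := hG x x₀ s x₀ x s hxx hs0 hs1 (fun h => hxx h.symm) hs1 hs0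
      have := Bad_card_le hsym hval k1 x
      rwa [k2] at this
  have h9 : Fintype.card X * Module.finrank F P ≤ ∑ x : X, (Bad C e val x).card := by
    rw [← card_univ, ← smul_eq_mul]
    exact card_nsmul_le_sum _ _ _ fun x _ => h8 x
  have h10 := pairs_ge hG h3 hsym hval
  have h11 : Fintype.card X * (Fintype.card X - 2) * Module.finrank F P ≤
      (cross C e val).card := by
    refine le_trans ?_ h10
    calc Fintype.card X * (Fintype.card X - 2) * Module.finrank F P
        = Fintype.card X * Module.finrank F P * (Fintype.card X - 2) := by ring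
      _ ≤ _ := Nat.mul_le_mul_right _ h9
  exact ⟨h11.trans cross_le_E, h11.trans (cross_le_adds hval)⟩

end Pool.Agent.Helper76.LC.Tri
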