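import Pool.Agent.Helper76.LC.TriC
import Pool.Agent.Helper76.LC.FftE

set_option autoImplicit false
set_option linter.unusedSectionVars false

/-!
# The affine group and the Walsh-Hadamard matrices
-/

namespace Pool.Agent.Helper76.LC.Tri

open Finset

/-- The group of the affine bijections `x ↦ M x + a` of the space of bit vectors: the bijections
which preserve all sums of three vectors. -/
def Aff (m : ℕ) : Subgroup (Equiv.Perm (Fin m → ZMod 2)) where
  carrier := {g | ∀ x y z, g (x + y + z) = g x + g y + g z}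
  one_mem' := fun _ _ _ => rfl
  mul_mem' := by
    intro g h hg hh x y z
    rw [Equiv.Perm.mul_apply, hh, hg]
    rfl
  inv_mem' := by
    intro g hg x y z
    rw [Equiv.Perm.inv_eq_iff_eq, hg]
    simp

theorem mem_Aff {m : ℕ} {g : Equiv.Perm (Fin m → ZMod 2)} :
    g ∈ Aff m ↔ ∀ x y z, g (x + y + z) = g x + g y + g z := Iff.rfl


/-- a vector plus itself -/
theorem add_self {m : ℕ} (x : Fin m → ZMod 2) : x + x = 0 := by
  funext i
  exact CharTwo.add_self_eq_zero (x i)

/-- translations -/
def trl {m : ℕ} (a : Fin m → ZMod 2) : Equiv.Perm (Fin m → ZMod 2) where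
  toFun x := x + a
  invFun x := x + a
  left_inv x := by
    show x + a + a = x
    rw [add_assoc, add_self, add_zero]
  right_inv x := by
    show x + a + a = x
    rw [add_assoc, add_self, add_zero]

theorem trl_mem {m : ℕ} (a : Fin m → ZMod 2) : trl a ∈ Aff m := by
  intro x y z
  show x + y + z + a = (x + a) + (y + a) + (z + a)
  have : (x + a) + (y + a) + (z + a) = x + y + z + a + (a + a) := by abel
  rw [this, add_self, add_zero]

/-- transvections -/
def tsv {m : ℕ} (φ : (Fin m → ZMod 2) →ₗ[ZMod 2] ZMod 2) (c : Fin m → ZMod 2) (hc : φ c = 0) :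
    Equiv.Perm (Fin m → ZMod 2) where
  toFun x := x + φ x • c
  invFun x := x + φ x • c
  left_inv x := by
    show x + φ x • c + φ (x + φ x • c) • c = x
    rw [map_add, map_smul, hc, smul_zero, add_zero, add_assoc, add_self, add_zero]
  right_inv x := by
    show x + φ x • c + φ (x + φ x • c) • c = x
    rw [map_add, map_smul, hc, smul_zero, add_zero, add_assoc, add_self, add_zero]

theorem tsv_mem {m : ℕ} (φ : (Fin m → ZMod 2) →ₗ[ZMod 2] ZMod 2) (c : Fin m → ZMod 2)
    (hc : φ c = 0) : tsv φ c hc ∈ Aff m := by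
  intro x y z
  show x + y + z + φ (x + y + z) • c = (x + φ x • c) + (y + φ y • c) + (z + φ z • c)
  rw [map_add, map_add, add_smul, add_smul]
  abel

theorem sep {m : ℕ} (p : Submodule (ZMod 2) (Fin m → ZMod 2)) {v : Fin m → ZMod 2} (hv : v ∉ p) :
    ∃ φ : (Fin m → ZMod 2) →ₗ[ZMod 2] ZMod 2, φ v = 1 ∧ ∀ w ∈ p, φ w = 0 := by
  obtain ⟨f, hf, hp⟩ := Submodule.exists_le_ker_of_notMem hv
  refine ⟨f, ?_, fun w hw => LinearMap.mem_ker.mp (hp hw)⟩
  have key : ∀ t : ZMod 2, t ≠ 0 → t = 1 := by decide
  exact key _ hf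

theorem two_cases (k : ZMod 2) : k = 0 ∨ k = 1 := by
  revert k
  decide

theorem eq_of_add {m : ℕ} {x y : Fin m → ZMod 2} (h : x + y = 0) : x = y := by
  have := congrArg (· + y) h
  simp only [add_assoc, add_self, add_zero, zero_add] at this
  exact this

theorem lin_one {m : ℕ} {a a' : Fin m → ZMod 2} (ha : a ≠ 0) (ha' : a' ≠ 0) :
    ∃ g ∈ Aff m, g 0 = 0 ∧ g a = a' := by
  by_cases h : a = a'
  · exact ⟨1, (Aff m).one_mem, rfl, h⟩
  · have h1 : a ∉ Submodule.span (ZMod 2) {a + a'} := by
      intro h2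
      obtain ⟨k, hk⟩ := Submodule.mem_span_singleton.mp h2
      rcases two_cases k with rfl | rfl
      · rw [zero_smul] at hk; exact ha hk.symm
      · rw [one_smul] at hk
        apply ha'
        have := congrArg (a + ·) hk
        simp only [← add_assoc, add_self, zero_add] at this
        exact this
    obtain ⟨φ, h2, h3⟩ := sep _ h1
    have h4 := h3 _ (Submodule.mem_span_singleton_self _)
    refine ⟨tsv φ _ h4, tsv_mem φ _ h4, ?_, ?_⟩
    · show (0 : Fin m → ZMod 2) + φ 0 • (a + a') = 0
      rw [map_zero, zero_smul, add_zero]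
    · show a + φ a • (a + a') = a'
      rw [h2, one_smul, ← add_assoc, add_self, zero_add]

theorem lin_two {m : ℕ} {a b b' : Fin m → ZMod 2} (hb : b ≠ 0) (hb' : b' ≠ 0)
    (hab : b ≠ a) (hab' : b' ≠ a) : ∃ g ∈ Aff m, g 0 = 0 ∧ g a = a ∧ g b = b' := by
  by_cases h : b = b'
  · exact ⟨1, (Aff m).one_mem, rfl, rfl, h⟩
  · have h1 : b ∉ Submodule.span (ZMod 2) {a, b + b'} := by
      intro h2
      obtain ⟨k, l, hk⟩ := Submodule.mem_span_pair.mp h2
      rcases two_cases k with rfl | rfl
      · rcases two_cases l with rfl | rfl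
        · rw [zero_smul, zero_smul, add_zero] at hk; exact hb hk.symm
        · rw [zero_smul, zero_add, one_smul] at hk
          apply hb'
          have := congrArg (b + ·) hk
          simp only [← add_assoc, add_self, zero_add] at this
          exact this
      · rcases two_cases l with rfl | rfl
        · rw [one_smul, zero_smul, add_zero] at hk; exact hab hk.symm
        · rw [one_smul, one_smul] at hk
          apply hab'
          have h5 : b + (a + (b + b')) = 0 := by rw [hk, add_self]
          have h6 : b + (a + (b + b')) = b' + a + (b + b) := by abel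
          rw [h6, add_self, add_zero] at h5
          exact eq_of_add h5
    obtain ⟨φ, h2, h3⟩ := sep _ h1
    have h4 := h3 (b + b') (Submodule.subset_span (by simp))
    have h5 := h3 a (Submodule.subset_span (by simp))
    refine ⟨tsv φ _ h4, tsv_mem φ _ h4, ?_, ?_, ?_⟩
    · show (0 : Fin m → ZMod 2) + φ 0 • (b + b') = 0
      rw [map_zero, zero_smul, add_zero]
    · show a + φ a • (b + b') = a
      rw [h5, zero_smul, add_zero]
    · show b + φ b • (b + b') = b'
      rw [h2, one_smul, ← add_assoc, add_self, zero_add]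

theorem triple_Aff (m : ℕ) : Triple (Aff m) := by
  intro x y z x' y' z' hxy hxz hyz hxy' hxz' hyz'
  have ne : ∀ {u v : Fin m → ZMod 2}, u ≠ v → v + u ≠ 0 := fun h h' => h (eq_of_add h').symm
  have can : ∀ u v : Fin m → ZMod 2, v + u + u = v := fun u v => by
    rw [add_assoc, add_self, add_zero]
  obtain ⟨g₁, a1, a2, a3⟩ := lin_one (ne hxy) (ne hxy')
  have hz1 : g₁ (z + x) ≠ 0 := by
    intro h
    rw [← a2] at h
    exact ne hxz (g₁.injective h)
  have hz2 : g₁ (z + x) ≠ y' + x' := by
    intro h
    rw [← a3] at h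
    have := g₁.injective h
    exact hyz (add_right_cancel this).symm
  obtain ⟨g₂, b1, b2, b3, b4⟩ := lin_two (a := y' + x') hz1 (ne hxz') hz2
    (fun h => hyz' (add_right_cancel h).symm)
  refine ⟨trl x' * (g₂ * (g₁ * trl x)), (Aff m).mul_mem (trl_mem x') ((Aff m).mul_mem b1
    ((Aff m).mul_mem a1 (trl_mem x))), ?_, ?_, ?_⟩
  · show g₂ (g₁ (x + x)) + x' = x'
    rw [add_self, a2, b2, zero_add]
  · show g₂ (g₁ (y + x)) + x' = y'
    rw [a3, b3, can]
  · show g₂ (g₁ (z + x)) + x' = z'
    rw [b4, can]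

end Pool.Agent.Helper76.LC.Tri
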