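import Pool.Agent.Helper76.LC.TriD

set_option autoImplicit false
set_option linter.unusedSectionVars false

/-!
# The matrices of Walsh and Hadamard under the affine group
-/

namespace Pool.Agent.Helper76.LC.Tri

open Finset FFT

/-- the edges of the circuit of depth one -/
def trivE (n : ℕ) : Finset ((Fin n ⊕ Fin n) × (Fin n ⊕ Fin n)) :=
  ((univ : Finset (Fin n)).map ⟨Sum.inl, Sum.inl_injective⟩) ×ˢ
    ((univ : Finset (Fin n)).map ⟨Sum.inr, Sum.inr_injective⟩)

theorem mem_trivE {n : ℕ} {u v : Fin n ⊕ Fin n} : (u, v) ∈ trivE n ↔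
    (∃ j, u = Sum.inl j) ∧ ∃ i, v = Sum.inr i := by
  unfold trivE
  rw [mem_product, mem_map, mem_map]
  constructor
  · rintro ⟨⟨j, -, hj⟩, i, -, hi⟩
    exact ⟨⟨j, hj.symm⟩, i, hi.symm⟩
  · rintro ⟨⟨j, rfl⟩, i, rfl⟩
    exact ⟨⟨j, mem_univ _, rfl⟩, i, mem_univ _, rfl⟩

/-- the coefficients -/
def trivW {F : Type} [Field F] {n : ℕ} (A : Matrix (Fin n) (Fin n) F) :
    Fin n ⊕ Fin n → Fin n ⊕ Fin n → F
  | Sum.inl j, Sum.inr i => A i j
  | _, _ => 0

/-- the labels -/
def trivL (n : ℕ) : Fin n ⊕ Fin n → Option (Fin n)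
  | Sum.inl j => some j
  | Sum.inr _ => none

/-- the ranks -/
def trivR (n : ℕ) : Fin n ⊕ Fin n → ℕ
  | Sum.inl _ => 0
  | Sum.inr _ => 1

/-- the circuit of depth one -/
def triv {F : Type} [Field F] {n : ℕ} (A : Matrix (Fin n) (Fin n) F) : LinCircuit F n where
  V := Fin n ⊕ Fin n
  E := trivE n
  rk := trivR n
  acyclic := by
    intro u v h
    obtain ⟨⟨j, rfl⟩, i, rfl⟩ := mem_trivE.mp h
    exact Nat.zero_lt_one
  lab := trivL n
  source := by
    intro u v h
    obtain ⟨⟨j, rfl⟩, i, rfl⟩ := mem_trivE.mp h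
    rfl
  wt := trivW A
  out i := Sum.inr i

section

variable {F : Type} [Field F] {n : ℕ} (A : Matrix (Fin n) (Fin n) F)

theorem card_triv : (triv A).E.card = n * n := by
  show (trivE n).card = _
  unfold trivE
  rw [card_product, card_map, card_map, card_univ, Fintype.card_fin]

theorem pre_inl (j : Fin n) : (triv A).pre (Sum.inl j) = (∅ : Finset (Fin n ⊕ Fin n)) := by
  refine Finset.ext fun u => ?_
  constructor
  · intro h
    have h1 : (u, (Sum.inl j : Fin n ⊕ Fin n)) ∈ trivE n := (triv A).mem_pre.mp h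
    obtain ⟨-, i, hi⟩ := mem_trivE.mp h1
    exact absurd hi (by simp)
  · intro h; exact absurd h (notMem_empty _)

theorem pre_inr (i : Fin n) : (triv A).pre (Sum.inr i) =
    (univ : Finset (Fin n)).map ⟨Sum.inl, Sum.inl_injective⟩ := by
  refine Finset.ext fun u => ?_
  constructor
  · intro h
    have h1 : (u, (Sum.inr i : Fin n ⊕ Fin n)) ∈ trivE n := (triv A).mem_pre.mp h
    obtain ⟨⟨j, rfl⟩, -⟩ := mem_trivE.mp h1
    exact mem_map.mpr ⟨j, mem_univ _, rfl⟩
  · intro h
    obtain ⟨j, -, rfl⟩ := mem_map.mp h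
    refine (triv A).mem_pre.mpr ?_
    show ((Sum.inl j : Fin n ⊕ Fin n), (Sum.inr i : Fin n ⊕ Fin n)) ∈ trivE n
    exact mem_trivE.mpr ⟨⟨j, rfl⟩, i, rfl⟩

theorem card_pre_inr (i : Fin n) : ((triv A).pre (Sum.inr i)).card = n := by
  have h := congrArg Finset.card (pre_inr A i)
  have h1 : ((univ : Finset (Fin n)).map
      (⟨Sum.inl, Sum.inl_injective⟩ : Fin n ↪ Fin n ⊕ Fin n)).card = n := by
    rw [card_map, card_univ, Fintype.card_fin]
  exact h.trans h1

theorem card_pre_inl (j : Fin n) : ((triv A).pre (Sum.inl j)).card = 0 := by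
  have h := congrArg Finset.card (pre_inl A j)
  exact h

theorem adds_triv : (triv A).adds = n * (n - 1) := by
  unfold LinCircuit.adds
  show ∑ v : Fin n ⊕ Fin n, (((triv A).pre v).card - 1) = _
  rw [Fintype.sum_sum_type]
  have h1 : ∀ j : Fin n, ((triv A).pre (Sum.inl j)).card - 1 = 0 := by
    intro j; rw [card_pre_inl]
  have h2 : ∀ i : Fin n, ((triv A).pre (Sum.inr i)).card - 1 = n - 1 := by
    intro i; rw [card_pre_inr]
  rw [sum_congr rfl (fun j _ => h1 j), sum_congr rfl (fun i _ => h2 i)]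
  simp

/-- the values -/
def trivV : Fin n ⊕ Fin n → Fin n → F
  | Sum.inl j => Pi.single j 1
  | Sum.inr i => A i

theorem triv_sum (i : Fin n) : A i = ∑ u ∈ (univ : Finset (Fin n)).map
    (⟨Sum.inl, Sum.inl_injective⟩ : Fin n ↪ Fin n ⊕ Fin n),
      trivW A u (Sum.inr i) • trivV A u := by
  rw [sum_map]
  funext k
  rw [Finset.sum_apply]
  have : ∀ j : Fin n, (trivW A (Sum.inl j) (Sum.inr i) • trivV A (Sum.inl j)) k =
      if j = k then A i k else 0 := by
    intro j
    show A i j * (Pi.single j (1 : F) : Fin n → F) k = _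
    by_cases h : j = k
    · subst h; simp
    · rw [if_neg h, Pi.single_eq_of_ne (fun h' => h h'.symm), mul_zero]
  refine Eq.trans ?_ (sum_congr rfl fun j _ => (this j).symm)
  rw [sum_ite_eq' univ k, if_pos (mem_univ _)]

theorem triv_computes : (triv A).Computes A := by
  refine ⟨trivV A, ?_, fun i => rfl⟩
  rintro (j | i)
  · rfl
  · have h := triv_sum A i
    have h2 := pre_inr A i
    show A i = ∑ u ∈ (triv A).pre (Sum.inr i), (triv A).wt u (Sum.inr i) • trivV A u
    rw [h2]
    exact h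

theorem triv_symm {H : Type} (τ : H → Equiv.Perm (Fin n))
    (h : ∀ c, ∃ (π : Equiv.Perm (Fin n)) (s : Fin n → F), (∀ i, s i ≠ 0) ∧
      ∀ i j, A (π i) (τ c j) = s i * A i j) : (triv A).Symm τ := by
  intro c
  obtain ⟨π, s, hs, hA⟩ := h c
  refine ⟨(Equiv.sumCongr (τ c) π : Equiv.Perm (Fin n ⊕ Fin n)),
    (Sum.elim (fun _ => 1) s : Fin n ⊕ Fin n → F), ?_, ?_, ?_, ?_, ?_⟩
  · rintro (j | i)
    · exact one_ne_zero
    · exact hs i
  · have key : ∀ u v : Fin n ⊕ Fin n, (Equiv.sumCongr (τ c) π u, Equiv.sumCongr (τ c) π v) ∈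
        trivE n ↔ (u, v) ∈ trivE n := by
      intro u v
      rw [mem_trivE, mem_trivE]
      rcases u with j | i <;> rcases v with j' | i' <;> simp
    exact key
  · have key : ∀ u v : Fin n ⊕ Fin n, (u, v) ∈ trivE n →
        trivW A (Equiv.sumCongr (τ c) π u) (Equiv.sumCongr (τ c) π v) *
          (Sum.elim (fun _ => 1) s : Fin n ⊕ Fin n → F) u =
        (Sum.elim (fun _ => 1) s : Fin n ⊕ Fin n → F) v * trivW A u v := by
      intro u v huv
      obtain ⟨⟨j, rfl⟩, i, rfl⟩ := mem_trivE.mp huv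
      show A (π i) (τ c j) * 1 = s i * A i j
      rw [mul_one, hA]
    exact key
  · rintro (j | i)
    · rfl
    · rfl
  · rintro (j | i) hv
    · rfl
    · exact absurd rfl hv

end

section

variable {F : Type} [Field F]

theorem chi_sq {m : ℕ} (y a : Fin m → ZMod 2) : walshChar F y a * walshChar F y a = 1 := by
  rw [← AddChar.map_add_eq_mul, add_self, AddChar.map_zero_eq_one]

theorem chi_ne {m : ℕ} (y a : Fin m → ZMod 2) : walshChar F y a ≠ 0 := by
  intro h
  have := chi_sq (F := F) y a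
  rw [h, zero_mul] at this
  exact zero_ne_one this

theorem walshChar_inj (h2 : (2 : F) ≠ 0) (m : ℕ) :
    Function.Injective (walshChar F : (Fin m → ZMod 2) → _) := by
  have hcard : Fintype.card (Fin m → ZMod 2) = 2 ^ m := by
    rw [Fintype.card_fun, ZMod.card, Fintype.card_fin]
  let e : Fin (2 ^ m) ≃ (Fin m → ZMod 2) := (Fintype.equivFinOfCardEq hcard).symm
  intro y y' h
  have := walshChar_injective (F := F) h2 e (a₁ := e.symm y) (a₂ := e.symm y')
    (by simpa using h)
  exact e.symm.injective this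

theorem walshChar_surj (h2 : (2 : F) ≠ 0) (m : ℕ) :
    Function.Surjective (walshChar F : (Fin m → ZMod 2) → _) := by
  have : Finite (AddChar (Fin m → ZMod 2) F) := finite_addChar _
  exact ((walshChar_inj h2 m).bijective_of_nat_card_le (card_addChar _)).2

/-- the translated character -/
theorem chi_aff (h2 : (2 : F) ≠ 0) {m : ℕ} {g : Equiv.Perm (Fin m → ZMod 2)} (hg : g ∈ Aff m)
    (y : Fin m → ZMod 2) : ∃ (y' : Fin m → ZMod 2) (s : F), s ≠ 0 ∧
      ∀ x, walshChar F y' (g x) = s * walshChar F y x := by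
  have hg' : g⁻¹ ∈ Aff m := (Aff m).inv_mem hg
  let ψ : AddChar (Fin m → ZMod 2) F :=
    { toFun := fun x => walshChar F y (g⁻¹ x) * walshChar F y (g⁻¹ 0)
      map_zero_eq_one' := chi_sq y _
      map_add_eq_mul' := by
        intro x z
        have h1 : g⁻¹ (x + z) = g⁻¹ x + g⁻¹ z + g⁻¹ 0 := by
          rw [← hg', add_zero]
        rw [h1, AddChar.map_add_eq_mul, AddChar.map_add_eq_mul]
        ring }
  obtain ⟨y', hy'⟩ := walshChar_surj h2 m ψ
  refine ⟨y', walshChar F y (g⁻¹ 0), chi_ne _ _, fun x => ?_⟩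
  rw [hy']
  show walshChar F y (g⁻¹ (g x)) * walshChar F y (g⁻¹ 0) = _
  rw [show g⁻¹ (g x) = x from by simp, mul_comm]

/-- the action of the affine group on the inputs -/
def actA {m : ℕ} (e : Fin (2 ^ m) ≃ (Fin m → ZMod 2)) (g : Aff m) : Equiv.Perm (Fin (2 ^ m)) :=
  (e.trans (g : Equiv.Perm (Fin m → ZMod 2))).trans e.symm

theorem walsh_symm (h2 : (2 : F) ≠ 0) {m : ℕ} (e : Fin (2 ^ m) ≃ (Fin m → ZMod 2)) :
    (triv (walsh F e)).Symm (actA e) := by
  refine triv_symm _ _ fun c => ?_
  have h := fun y => chi_aff (F := F) h2 c.2 y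
  choose Y s hs hY using h
  have hinj : Function.Injective Y := by
    intro y y' hyy
    apply walshChar_inj (F := F) h2 m
    have h1 : ∀ x, s y * walshChar F y x = s y' * walshChar F y' x := by
      intro x
      rw [← hY, ← hY, hyy]
    have h3 := h1 0
    rw [AddChar.map_zero_eq_one, AddChar.map_zero_eq_one, mul_one, mul_one] at h3
    refine DFunLike.ext _ _ fun x => ?_
    have h4 := h1 x
    rw [h3] at h4
    exact mul_left_cancel₀ (hs y') h4
  let π₀ : Equiv.Perm (Fin m → ZMod 2) :=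
    Equiv.ofBijective Y (Finite.injective_iff_bijective.mp hinj)
  refine ⟨(e.trans π₀).trans e.symm, fun i => s (e i), fun i => hs _, fun i j => ?_⟩
  show walshChar F (e (e.symm (Y (e i)))) (e (e.symm ((c : Equiv.Perm _) (e j)))) =
    s (e i) * walshChar F (e i) (e j)
  rw [Equiv.apply_symm_apply, Equiv.apply_symm_apply, hY]

end

/-- **Kronecker products with Walsh-Hadamard matrices.** -/
theorem kron_lower {F : Type} [Field F] [CharZero F] {m b n : ℕ} (hm : 2 ≤ m)
    (B : Matrix (Fin b) (Fin b) F) (hB : IsUnit B.det) (e : Fin n ≃ Fin b × (Fin m → ZMod 2))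
    (C : LinCircuit F n) (hsym : C.Symm fun g : Aff m => act e (g : Equiv.Perm _))
    (hcomp : C.Computes (Matrix.of fun i j => B (e i).1 (e j).1 *
      walshChar F (e i).2 (e j).2)) :
    n * (2 ^ m - 2) ≤ C.E.card ∧ n * (2 ^ m - 2) ≤ 2 * C.adds := by
  classical
  obtain ⟨val, hval, hout⟩ := hcomp
  have hcard : Fintype.card (Fin m → ZMod 2) = 2 ^ m := by
    rw [Fintype.card_fun, ZMod.card, Fintype.card_fin]
  have h4 : 4 ≤ 2 ^ m := by
    calc 4 = 2 ^ 2 := by norm_num
      _ ≤ 2 ^ m := Nat.pow_le_pow_right (by norm_num) hm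
  let l : Fin m := ⟨0, by omega⟩
  set c : Fin m → ZMod 2 := Pi.single l 1 with hc
  have hc0 : (0 : Fin m → ZMod 2) ≠ c := by
    intro h
    have := congrFun h l
    rw [hc] at this
    simp at this
  have hchi : walshChar F c c = -1 := by
    show (∏ l', if c l' = 1 ∧ c l' = 1 then (-1 : F) else 1) = -1
    rw [prod_eq_single l]
    · rw [hc]; simp
    · intro k _ hk
      rw [hc, Pi.single_eq_of_ne hk, if_neg]
      rintro ⟨h, _⟩
      exact absurd h (by simp)
    · intro h; exact absurd (mem_univ _) h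
  let nd : Fin b → C.V := fun β' => C.out (e.symm (β', c))
  have hfm : ∀ β' β x, fm C e val (nd β') (β, x) = B β' β * walshChar F c x := by
    intro β' β x
    show val (C.out (e.symm (β', c))) (e.symm (β, x)) = _
    rw [hout]
    show B (e (e.symm (β', c))).1 (e (e.symm (β, x))).1 *
      walshChar F (e (e.symm (β', c))).2 (e (e.symm (β, x))).2 = _
    rw [Equiv.apply_symm_apply, Equiv.apply_symm_apply]
  have hFx : ∀ β' x, ¬Fx x (fm C e val (nd β')) := by
    intro β' x hF
    have h5 : ((univ.erase x).erase (x + c)).Nonempty := by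
      rw [← card_pos]
      have h6 := pred_card_le_card_erase (s := univ.erase x) (a := x + c)
      have h7 : (univ.erase x : Finset (Fin m → ZMod 2)).card = 2 ^ m - 1 := by
        rw [card_erase_of_mem (mem_univ _), card_univ, hcard]
      omega
    obtain ⟨p, hp⟩ := h5
    have hp1 : p ≠ x := (mem_erase.mp (mem_erase.mp hp).2).1
    have hp2 : p + c ≠ x := by
      intro h
      apply (mem_erase.mp hp).1
      rw [← h, add_assoc, add_self, add_zero]
    have hrow : ∃ β, B β' β ≠ 0 := by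
      by_contra hcon
      push Not at hcon
      have := Matrix.det_eq_zero_of_row_eq_zero β' hcon
      rw [this] at hB
      exact not_isUnit_zero hB
    obtain ⟨β, hβ⟩ := hrow
    have h8 := hF β p (p + c) hp1 hp2
    rw [hfm, hfm, AddChar.map_add_eq_mul, hchi] at h8
    have h9 : (2 : F) * (B β' β * walshChar F c p) = 0 := by linear_combination h8
    rcases mul_eq_zero.mp h9 with h10 | h10
    · exact two_ne_zero h10
    · rcases mul_eq_zero.mp h10 with h11 | h11
      · exact hβ h11
      · exact chi_ne _ _ h11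
  have hdif : ∀ β', dif (0 : Fin m → ZMod 2) c (fm C e val (nd β')) = (2 : F) • B β' := by
    intro β'
    funext β
    show fm C e val (nd β') (β, 0) - fm C e val (nd β') (β, c) = 2 * B β' β
    rw [hfm, hfm, hchi, AddChar.map_zero_eq_one]
    ring
  have key := lower (G := Aff m) (triple_Aff m) (by rw [hcard]; omega) hsym hval hc0
    (⊤ : Submodule F (Fin b → F)) (by
      intro u _
      have h12 : u = ∑ β', ((Matrix.vecMul u B⁻¹) β' * (2 : F)⁻¹) • ((2 : F) • B β') := by
        have h13 : u = Matrix.vecMul (Matrix.vecMul u B⁻¹) B := by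
          rw [Matrix.vecMul_vecMul, Matrix.nonsing_inv_mul B hB, Matrix.vecMul_one]
        conv_lhs => rw [h13]
        funext β
        rw [Finset.sum_apply]
        show ∑ β', (Matrix.vecMul u B⁻¹) β' * B β' β = _
        refine sum_congr rfl fun β' _ => ?_
        show _ = (Matrix.vecMul u B⁻¹) β' * (2 : F)⁻¹ * (2 * B β' β)
        field_simp
      rw [h12]
      refine Submodule.sum_mem _ fun β' _ => Submodule.smul_mem _ _ (Submodule.subset_span ?_)
      exact ⟨nd β', hFx β' _, hFx β' _, (hdif β').symm⟩)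
  rw [hcard, finrank_top, Module.finrank_fin_fun] at key
  have hn : n = b * 2 ^ m := by
    have := Fintype.card_congr e
    rwa [Fintype.card_fin, Fintype.card_prod, Fintype.card_fin, hcard] at this
  have h14 : n * (2 ^ m - 2) = 2 ^ m * (2 ^ m - 2) * b := by rw [hn]; ring
  rw [h14]
  exact key

/-- **Dichotomy.** -/
theorem dichotomy {F : Type} [Field F] [CharZero F] {n : ℕ} {G : Subgroup (Equiv.Perm (Fin n))}
    (hG : Triple G) (C : LinCircuit F n) (hsym : C.Symm fun g : G => (g : Equiv.Perm (Fin n)))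
    {val : C.V → Fin n → F} (hval : C.IsVal val) (v : C.V)
    (hv : ¬∃ (j : Fin n) (a b : F), ∀ i, val v i = if i = j then a else b) :
    n * (n - 2) ≤ C.E.card ∧ n * (n - 2) ≤ 2 * C.adds := by
  classical
  rcases Nat.lt_or_ge 2 n with hn | hn
  swap
  · have : n - 2 = 0 := by omega
    rw [this, mul_zero]
    exact ⟨Nat.zero_le _, Nat.zero_le _⟩
  let e : Fin n ≃ Unit × Fin n := ⟨fun i => ((), i), Prod.snd, fun _ => rfl, fun _ => rfl⟩
  have hsym' : C.Symm fun g : G => act e (g : Equiv.Perm (Fin n)) := hsym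
  have hFx : ∀ x, ¬Fx x (fm C e val v) := by
    intro x hF
    have h1 : ((univ : Finset (Fin n)).erase x).Nonempty := by
      rw [← card_pos, card_erase_of_mem (mem_univ _), card_univ, Fintype.card_fin]
      omega
    obtain ⟨t, ht⟩ := h1
    apply hv
    refine ⟨x, val v x, val v t, fun i => ?_⟩
    by_cases hi : i = x
    · rw [if_pos hi, hi]
    · rw [if_neg hi]
      exact hF () i t hi (mem_erase.mp ht).1
  have hex : ∃ x₀ x₁, val v x₀ ≠ val v x₁ := by
    by_contra hcon
    push Not at hcon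
    apply hFx ⟨0, by omega⟩
    intro _ y z _ _
    exact hcon y z
  obtain ⟨x₀, x₁, h01⟩ := hex
  have hx : x₀ ≠ x₁ := fun h => h01 (by rw [h])
  have hd : dif x₀ x₁ (fm C e val v) ≠ 0 := by
    intro h
    exact h01 (sub_eq_zero.mp (congrFun h ()))
  have key := lower (G := G) hG (by rw [Fintype.card_fin]; exact hn) hsym' hval hx
    (Submodule.span F {dif x₀ x₁ (fm C e val v)}) (by
      refine Submodule.span_mono ?_
      rw [Set.singleton_subset_iff]
      exact ⟨v, hFx _, hFx _, rfl⟩)
  rw [finrank_span_singleton hd, Fintype.card_fin, mul_one] at key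
  exact key

end Pool.Agent.Helper76.LC.Tri
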